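import Mathlib

/-! # Assembly of the exterior range -/

open Finset Metric Set

namespace Pool.Agent.SG

lemma ea_log_bound (x L : ℝ) (hx : 0 < x) (hL : 0 < L) (h500 : 500 * x ≤ L) (hsq : L ≤ x ^ 2) :
    50 * Real.log x * x / L ≤ (Real.log x - Real.log L / 2) / 5 + 50 := by
  obtain ⟨lt, hlt⟩ : ∃ lt, lt = Real.log x - Real.log L / 2 := ⟨_, rfl⟩
  have h0 : 0 ≤ lt := by
    have := Real.log_le_log hL hsq
    rw [Real.log_pow] at this
    push_cast at this
    rw [hlt]; linarith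
  have e : Real.log x = 2 * lt + Real.log (L / x) := by
    rw [Real.log_div hL.ne' hx.ne', hlt]; ring
  have h1 : Real.log (L / x) ≤ L / x - 1 := Real.log_le_sub_one_of_pos (by positivity)
  have h2 : x / L * Real.log (L / x) ≤ 1 := by
    have h3 : x / L * Real.log (L / x) ≤ x / L * (L / x - 1) :=
      mul_le_mul_of_nonneg_left h1 (by positivity)
    have h4 : x / L * (L / x - 1) = 1 - x / L := by field_simp
    have h5 : 0 < x / L := by positivity
    linarith
  have h3 : x / L ≤ 1 / 500 := by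
    rw [div_le_div_iff₀ hL (by norm_num)]; linarith
  have h4 : x / L * lt ≤ 1 / 500 * lt := mul_le_mul_of_nonneg_right h3 h0
  have h5 : 50 * Real.log x * x / L = 100 * (x / L * lt) + 50 * (x / L * Real.log (L / x)) := by
    have : 50 * Real.log x * x / L = 50 * (x / L) * Real.log x := by ring
    rw [this, e]; ring
  rw [h5, ← hlt]
  linarith

lemma ea_block (X₀ : ℕ) (L : ℝ) (hL : Real.exp 160 ≤ L) (hX : (X₀ : ℝ) ≤ Real.sqrt L)
    (F : Finset ℕ) (hF : ∀ k ∈ F, 500 * (k : ℝ) ≤ L)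
    (hloc : ∀ (x₀ : ℕ) (σ : ℝ), X₀ ≤ x₀ → 480 * (x₀ : ℝ) ≤ L → L ≤ (x₀ : ℝ) ^ 2 → 1 ≤ σ →
      1000 * σ ≤ x₀ → σ ^ 3 * Real.exp (180 + 50 * Real.log x₀ * x₀ / L) ≤ x₀ * L →
      ((F.filter (fun t : ℕ => |(t : ℝ) - x₀| ≤ σ)).card : ℝ) ≤ 400 * (L / x₀) + 1) (i : ℕ) :
    ((F.filter (fun k : ℕ => (2 : ℝ) ^ i * Real.sqrt L ≤ k ∧
      (k : ℝ) < 2 ^ (i + 1) * Real.sqrt L)).card : ℝ) ≤
      802 * Real.exp 80 * Real.sqrt L * Real.exp (-(Real.log 2 / 4)) ^ i := by
  have hLpos : 0 < L := (Real.exp_pos _).trans_le hL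
  have hlogL : 160 ≤ Real.log L := by rwa [Real.le_log_iff_exp_le hLpos]
  have hlog2 : 0 < Real.log 2 := Real.log_pos (by norm_num)
  have hs : Real.sqrt L = Real.exp (Real.log L / 2) := by
    rw [Real.exp_half, Real.exp_log hLpos]
  have hspos : 0 < Real.sqrt L := Real.sqrt_pos.2 hLpos
  have hss : Real.sqrt L * Real.sqrt L = L := Real.mul_self_sqrt hLpos.le
  obtain ⟨P, hP⟩ : ∃ P, P = (2 : ℝ) ^ i * Real.sqrt L := ⟨_, rfl⟩
  obtain ⟨σ, hσ⟩ : ∃ σ, σ = Real.exp (-80 + Real.log L / 2 + i * (Real.log 2 / 4)) := ⟨_, rfl⟩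
  have hσpos : 0 < σ := by rw [hσ]; exact Real.exp_pos _
  have hPpos : 0 < P := by rw [hP]; positivity
  have h2i : (2 : ℝ) ^ i = Real.exp (i * Real.log 2) := by
    rw [mul_comm, Real.exp_mul, Real.exp_log (by norm_num), Real.rpow_natCast]
  have hPexp : P = Real.exp (Real.log L / 2 + i * Real.log 2) := by
    rw [hP, h2i, hs, ← Real.exp_add]; ring_nf
  have hlogP : Real.log P = Real.log L / 2 + i * Real.log 2 := by rw [hPexp, Real.log_exp]
  have hi0 : (0 : ℝ) ≤ i := Nat.cast_nonneg i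
  have hsP : Real.sqrt L ≤ P := by
    rw [hP]
    have : (1 : ℝ) ≤ 2 ^ i := one_le_pow₀ (by norm_num)
    nlinarith
  have hσ1 : 1 ≤ σ := by
    rw [hσ]
    apply Real.one_le_exp
    have : 0 ≤ (i : ℝ) * (Real.log 2 / 4) := by positivity
    linarith
  have hbig : (1000 : ℝ) ≤ Real.exp 80 := by
    have h1 : (41 : ℝ) ≤ Real.exp 40 := by
      have := Real.add_one_le_exp (40 : ℝ); linarith
    have h2 : Real.exp 80 = Real.exp 40 * Real.exp 40 := by rw [← Real.exp_add]; norm_num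
    rw [h2]; nlinarith
  have hσP : 1000 * σ ≤ P := by
    calc 1000 * σ ≤ Real.exp 80 * σ := mul_le_mul_of_nonneg_right hbig hσpos.le
      _ = Real.exp (Real.log L / 2 + i * (Real.log 2 / 4)) := by
          rw [hσ, ← Real.exp_add]; ring_nf
      _ ≤ Real.exp (Real.log L / 2 + i * Real.log 2) := by
          apply Real.exp_le_exp.2
          have : (i : ℝ) * (Real.log 2 / 4) ≤ i * Real.log 2 :=
            mul_le_mul_of_nonneg_left (by linarith) hi0
          linarith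
      _ = P := hPexp.symm
  obtain ⟨B, hB⟩ : ∃ B, B = F.filter (fun k : ℕ => (2 : ℝ) ^ i * Real.sqrt L ≤ k ∧
      (k : ℝ) < 2 ^ (i + 1) * Real.sqrt L) := ⟨_, rfl⟩
  have hBmem : ∀ k ∈ B, k ∈ F ∧ P ≤ k ∧ (k : ℝ) < 2 * P := by
    intro k hk
    rw [hB, Finset.mem_filter] at hk
    refine ⟨hk.1, by rw [hP]; exact hk.2.1, ?_⟩
    rw [hP]
    have h := hk.2.2
    rw [pow_succ] at h
    linarith
  rw [← hB]
  -- the window estimate
  have hwin : ∀ k₀ ∈ B, ((F.filter (fun t : ℕ => |(t : ℝ) - k₀| ≤ σ)).card : ℝ) ≤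
      401 * (L / P) := by
    intro k₀ hk₀
    obtain ⟨hkF, hPk, -⟩ := hBmem k₀ hk₀
    have hk0 : (0 : ℝ) < k₀ := hPpos.trans_le hPk
    have h500 := hF k₀ hkF
    have hsq : L ≤ (k₀ : ℝ) ^ 2 := by
      have := hsP.trans hPk
      nlinarith
    have hlog : Real.log P ≤ Real.log k₀ := Real.log_le_log hPpos hPk
    have hb := ea_log_bound k₀ L hk0 hLpos h500 hsq
    have hcond : σ ^ 3 * Real.exp (180 + 50 * Real.log k₀ * k₀ / L) ≤ k₀ * L := by
      have e1 : σ ^ 3 = Real.exp (3 * (-80 + Real.log L / 2 + i * (Real.log 2 / 4))) := by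
        rw [hσ, ← Real.exp_nat_mul]; norm_num
      have e2 : (k₀ : ℝ) * L = Real.exp (Real.log k₀ + Real.log L) := by
        rw [Real.exp_add, Real.exp_log hk0, Real.exp_log hLpos]
      rw [e1, e2, ← Real.exp_add]
      apply Real.exp_le_exp.2
      rw [hlogP] at hlog
      nlinarith
    have h := hloc k₀ σ (by
        have : (X₀ : ℝ) ≤ k₀ := hX.trans (hsP.trans hPk)
        exact_mod_cast this) (by linarith) hsq hσ1 (hσP.trans hPk) hcond
    have h1 : L / k₀ ≤ L / P := div_le_div_of_nonneg_left hLpos.le hPpos hPk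
    have h2 : 1 ≤ L / P := by
      rw [one_le_div hPpos]; linarith
    linarith
  -- the partition of the block into windows
  obtain ⟨M, hM⟩ : ∃ M, M = ⌊P / σ⌋₊ + 1 := ⟨_, rfl⟩
  have hmaps : ∀ k ∈ B, ⌊((k : ℝ) - P) / σ⌋₊ ∈ Finset.range M := by
    intro k hk
    obtain ⟨-, h1, h2⟩ := hBmem k hk
    rw [Finset.mem_range, hM, Nat.lt_succ_iff]
    apply Nat.floor_le_floor
    apply div_le_div_of_nonneg_right _ hσpos.le
    linarith
  have hfib : ∀ b ∈ Finset.range M,
      ((B.filter (fun k : ℕ => ⌊((k : ℝ) - P) / σ⌋₊ = b)).card : ℝ) ≤ 401 * (L / P) := by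
    intro b _
    rcases (B.filter (fun k : ℕ => ⌊((k : ℝ) - P) / σ⌋₊ = b)).eq_empty_or_nonempty with he | hne
    · rw [he, Finset.card_empty]
      have : 0 < L / P := by positivity
      push_cast
      linarith
    · obtain ⟨k₀, hk₀⟩ := hne
      rw [Finset.mem_filter] at hk₀
      refine le_trans ?_ (hwin k₀ hk₀.1)
      refine Nat.cast_le.2 ?_
      apply Finset.card_le_card
      intro k hk
      rw [Finset.mem_filter] at hk ⊢
      refine ⟨(hBmem k hk.1).1, ?_⟩
      have h1 := (hBmem k hk.1).2.1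
      have h2 := (hBmem k₀ hk₀.1).2.1
      have a1 : 0 ≤ ((k : ℝ) - P) / σ := div_nonneg (by linarith) hσpos.le
      have a2 : 0 ≤ ((k₀ : ℝ) - P) / σ := div_nonneg (by linarith) hσpos.le
      have b1 := Nat.floor_le a1
      have b2 := Nat.floor_le a2
      have c1 := Nat.lt_floor_add_one (((k : ℝ) - P) / σ)
      have c2 := Nat.lt_floor_add_one (((k₀ : ℝ) - P) / σ)
      rw [hk.2] at b1 c1
      rw [hk₀.2] at b2 c2
      rw [le_div_iff₀ hσpos] at b1 b2
      rw [div_lt_iff₀ hσpos] at c1 c2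
      rw [abs_le]
      constructor <;> nlinarith
  have hcard : (B.card : ℝ) = ∑ b ∈ Finset.range M,
      ((B.filter (fun k : ℕ => ⌊((k : ℝ) - P) / σ⌋₊ = b)).card : ℝ) := by
    rw [Finset.card_eq_sum_card_fiberwise (f := fun k : ℕ => ⌊((k : ℝ) - P) / σ⌋₊)
      (t := Finset.range M) (fun k hk => by exact_mod_cast hmaps k hk)]
    push_cast
    rfl
  have hsum : (B.card : ℝ) ≤ M * (401 * (L / P)) := by
    rw [hcard]
    calc _ ≤ ∑ b ∈ Finset.range M, 401 * (L / P) := Finset.sum_le_sum hfib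
      _ = M * (401 * (L / P)) := by rw [Finset.sum_const, Finset.card_range, nsmul_eq_mul]
  have hMle : (M : ℝ) ≤ 2 * (P / σ) := by
    rw [hM]
    push_cast
    have h1 : (⌊P / σ⌋₊ : ℝ) ≤ P / σ := Nat.floor_le (by positivity)
    have h2 : 1 ≤ P / σ := by rw [one_le_div hσpos]; linarith
    linarith
  have hfinal : 802 * Real.exp 80 * Real.sqrt L * Real.exp (-(Real.log 2 / 4)) ^ i =
      802 * (L / σ) := by
    have e0 : L = Real.exp (Real.log L) := (Real.exp_log hLpos).symm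
    have e1 : L / σ = Real.exp (Real.log L - (-80 + Real.log L / 2 + i * (Real.log 2 / 4))) := by
      rw [Real.exp_sub, ← e0, ← hσ]
    rw [e1, hs, ← Real.exp_nat_mul, mul_assoc, mul_assoc, ← Real.exp_add, ← Real.exp_add]
    ring_nf
  rw [hfinal]
  calc (B.card : ℝ) ≤ M * (401 * (L / P)) := hsum
    _ ≤ 2 * (P / σ) * (401 * (L / P)) := mul_le_mul_of_nonneg_right hMle (by positivity)
    _ = 802 * (L / σ) := by field_simp; ring

theorem ext_assembly (X₀ : ℕ) : ∃ C : ℝ, ∀ L : ℝ, 1 / 2 ≤ L → ∀ F : Finset ℕ,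
    (∀ k ∈ F, 500 * (k : ℝ) ≤ L) →
    (∀ (x₀ : ℕ) (σ : ℝ), X₀ ≤ x₀ → 480 * (x₀ : ℝ) ≤ L → L ≤ (x₀ : ℝ) ^ 2 → 1 ≤ σ →
      1000 * σ ≤ x₀ → σ ^ 3 * Real.exp (180 + 50 * Real.log x₀ * x₀ / L) ≤ x₀ * L →
      ((F.filter (fun t : ℕ => |(t : ℝ) - x₀| ≤ σ)).card : ℝ) ≤ 400 * (L / x₀) + 1) →
    (F.card : ℝ) ≤ C * Real.sqrt L := by
  obtain ⟨r, hr⟩ : ∃ r, r = Real.exp (-(Real.log 2 / 4)) := ⟨_, rfl⟩
  have hlog2 : 0 < Real.log 2 := Real.log_pos (by norm_num)
  have hr0 : 0 < r := by rw [hr]; exact Real.exp_pos _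
  have hr1 : r < 1 := by rw [hr, Real.exp_lt_one_iff]; linarith
  obtain ⟨L0, hL0⟩ : ∃ L0 : ℝ, L0 = Real.exp 160 + (X₀ : ℝ) ^ 2 := ⟨_, rfl⟩
  have hL0pos : 0 < L0 := by rw [hL0]; positivity
  obtain ⟨K, hK⟩ : ∃ K : ℝ, K = 802 * Real.exp 80 * (1 / (1 - r)) := ⟨_, rfl⟩
  have hKpos : 0 < K := by
    rw [hK]
    have : 0 < 1 - r := by linarith
    positivity
  refine ⟨2 * (L0 + 1) + 2 + K, ?_⟩
  intro L hL F hF hloc
  have hLpos : 0 < L := by linarith
  have hspos : 0 < Real.sqrt L := Real.sqrt_pos.2 hLpos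
  have hss : Real.sqrt L * Real.sqrt L = L := Real.mul_self_sqrt hLpos.le
  have hshalf : 1 / 2 ≤ Real.sqrt L := by
    apply Real.le_sqrt_of_sq_le; norm_num; linarith
  by_cases hcase : L < L0
  · -- small `L`
    have h1 : F ⊆ Finset.range (⌊L0⌋₊ + 1) := by
      intro k hk
      rw [Finset.mem_range, Nat.lt_succ_iff]
      apply Nat.le_floor
      have := hF k hk
      have h0 : (0 : ℝ) ≤ k := Nat.cast_nonneg k
      linarith
    have h2 : (F.card : ℝ) ≤ L0 + 1 := by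
      have h3 := Finset.card_le_card h1
      rw [Finset.card_range] at h3
      have h4 : (F.card : ℝ) ≤ ((⌊L0⌋₊ + 1 : ℕ) : ℝ) := by exact_mod_cast h3
      push_cast at h4
      have h5 := Nat.floor_le hL0pos.le
      linarith
    nlinarith [mul_pos hKpos hspos]
  · have hcase' : L0 ≤ L := not_lt.1 hcase
    have hLexp : Real.exp 160 ≤ L := by
      have : 0 ≤ (X₀ : ℝ) ^ 2 := by positivity
      linarith
    have hX : (X₀ : ℝ) ≤ Real.sqrt L := by
      apply Real.le_sqrt_of_sq_le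
      have := Real.exp_pos 160
      linarith
    -- the blocks
    obtain ⟨m, hm⟩ : ∃ m : ℕ, ∀ k ∈ F, (k : ℝ) < 2 ^ m * Real.sqrt L := by
      obtain ⟨m, hm⟩ := pow_unbounded_of_one_lt (L / Real.sqrt L) (one_lt_two)
      refine ⟨m, fun k hk => ?_⟩
      have h1 := hF k hk
      rw [div_lt_iff₀ hspos] at hm
      have h0 : (0 : ℝ) ≤ k := Nat.cast_nonneg k
      linarith
    have hcover : F ⊆ F.filter (fun k : ℕ => (k : ℝ) < Real.sqrt L) ∪
        (Finset.range m).biUnion (fun i => F.filter (fun k : ℕ =>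
          (2 : ℝ) ^ i * Real.sqrt L ≤ k ∧ (k : ℝ) < 2 ^ (i + 1) * Real.sqrt L)) := by
      intro k hk
      rw [Finset.mem_union, Finset.mem_filter, Finset.mem_biUnion]
      by_cases hks : (k : ℝ) < Real.sqrt L
      · exact Or.inl ⟨hk, hks⟩
      · right
        have h1 : 1 ≤ (k : ℝ) / Real.sqrt L := by
          rw [one_le_div hspos]; exact not_lt.1 hks
        obtain ⟨i, hi1, hi2⟩ := exists_nat_pow_near h1 (one_lt_two (α := ℝ))
        rw [le_div_iff₀ hspos] at hi1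
        rw [div_lt_iff₀ hspos] at hi2
        refine ⟨i, ?_, ?_⟩
        · rw [Finset.mem_range]
          by_contra hc
          have h2 : (2 : ℝ) ^ m ≤ 2 ^ i := pow_le_pow_right₀ (by norm_num) (not_lt.1 hc)
          have h3 := hm k hk
          have h4 : (2 : ℝ) ^ m * Real.sqrt L ≤ 2 ^ i * Real.sqrt L :=
            mul_le_mul_of_nonneg_right h2 hspos.le
          linarith
        · rw [Finset.mem_filter]
          exact ⟨hk, hi1, hi2⟩
    have hsmall : ((F.filter (fun k : ℕ => (k : ℝ) < Real.sqrt L)).card : ℝ) ≤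
        Real.sqrt L + 1 := by
      have h1 : F.filter (fun k : ℕ => (k : ℝ) < Real.sqrt L) ⊆
          Finset.range (⌊Real.sqrt L⌋₊ + 1) := by
        intro k hk
        rw [Finset.mem_filter] at hk
        rw [Finset.mem_range, Nat.lt_succ_iff]
        exact Nat.le_floor hk.2.le
      have h3 := Finset.card_le_card h1
      rw [Finset.card_range] at h3
      have h4 : ((F.filter (fun k : ℕ => (k : ℝ) < Real.sqrt L)).card : ℝ) ≤
          ((⌊Real.sqrt L⌋₊ + 1 : ℕ) : ℝ) := by exact_mod_cast h3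
      push_cast at h4
      have h5 := Nat.floor_le hspos.le
      linarith
    have hblocks : ∑ i ∈ Finset.range m, ((F.filter (fun k : ℕ =>
          (2 : ℝ) ^ i * Real.sqrt L ≤ k ∧ (k : ℝ) < 2 ^ (i + 1) * Real.sqrt L)).card : ℝ) ≤
        K * Real.sqrt L := by
      calc _ ≤ ∑ i ∈ Finset.range m, 802 * Real.exp 80 * Real.sqrt L * r ^ i := by
            apply Finset.sum_le_sum
            intro i _
            rw [hr]
            exact ea_block X₀ L hLexp hX F hF hloc i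
        _ = 802 * Real.exp 80 * Real.sqrt L * ∑ i ∈ Finset.range m, r ^ i := by
            rw [Finset.mul_sum]
        _ ≤ 802 * Real.exp 80 * Real.sqrt L * (1 / (1 - r)) := by
            apply mul_le_mul_of_nonneg_left _ (by positivity)
            rw [geom_sum_eq hr1.ne]
            have h1 : 0 < 1 - r := by linarith
            have h2 : (r ^ m - 1) / (r - 1) = (1 - r ^ m) / (1 - r) := by
              rw [← neg_sub 1 (r ^ m), ← neg_sub 1 r, neg_div_neg_eq]
            rw [h2]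
            apply div_le_div_of_nonneg_right _ h1.le
            have : 0 < r ^ m := by positivity
            linarith
        _ = K * Real.sqrt L := by rw [hK]; ring
    have hcard : (F.card : ℝ) ≤ ((F.filter (fun k : ℕ => (k : ℝ) < Real.sqrt L)).card : ℝ) +
        ∑ i ∈ Finset.range m, ((F.filter (fun k : ℕ =>
          (2 : ℝ) ^ i * Real.sqrt L ≤ k ∧ (k : ℝ) < 2 ^ (i + 1) * Real.sqrt L)).card : ℝ) := by
      have h1 := (Finset.card_le_card hcover).trans (Finset.card_union_le _ _)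
      have h2 := Finset.card_biUnion_le (s := Finset.range m) (t := fun i => F.filter (fun k : ℕ =>
          (2 : ℝ) ^ i * Real.sqrt L ≤ k ∧ (k : ℝ) < 2 ^ (i + 1) * Real.sqrt L))
      have h3 := h1.trans (Nat.add_le_add_left h2 _)
      exact_mod_cast h3
    nlinarith [mul_pos hKpos hspos, mul_pos hL0pos hspos]

end Pool.Agent.SG
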