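import Mathlib

/-! Assembly of the local counts: the interior range, and the final count of pairs. -/

open Finset Metric Set

namespace Pool.Agent.SG

theorem ia_choose_ge (n : ℕ) : ∀ k : ℕ, 1 ≤ k → k < n → n ≤ n.choose k := by
  induction n with
  | zero => intro k _ h; omega
  | succ n ih =>
    intro k hk hkn
    obtain ⟨k, rfl⟩ : ∃ j, k = j + 1 := ⟨k - 1, by omega⟩
    rw [Nat.choose_succ_succ']
    rcases Nat.lt_or_ge (k + 1) n with h | h
    · have h1 := ih (k + 1) (by omega) h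
      have h2 : 0 < n.choose k := Nat.choose_pos (by omega)
      omega
    · have h3 : n = k + 1 := by omega
      subst h3
      rw [Nat.choose_self, Nat.choose_succ_self_right]

theorem ia_choose_lt {n k : ℕ} (hk : 1 ≤ k) (hkn : k ≤ n) : n.choose k < (n + 1).choose k := by
  obtain ⟨k, rfl⟩ : ∃ j, k = j + 1 := ⟨k - 1, by omega⟩
  rw [Nat.choose_succ_succ']
  have : 0 < n.choose k := Nat.choose_pos (by omega)
  omega

theorem ia_choose_strict {k : ℕ} (hk : 1 ≤ k) (n d : ℕ) (hkn : k ≤ n) :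
    n.choose k < (n + d + 1).choose k := by
  induction d with
  | zero => exact ia_choose_lt hk hkn
  | succ d ih => exact ih.trans (ia_choose_lt hk (by omega))

theorem ia_choose_inj {k n n' : ℕ} (hk : 1 ≤ k) (hn : k ≤ n) (hn' : k ≤ n')
    (h : n.choose k = n'.choose k) : n = n' := by
  rcases lt_trichotomy n n' with h1 | h1 | h1
  · have := ia_choose_strict hk n (n' - n - 1) hn
    rw [show n + (n' - n - 1) + 1 = n' by omega] at this
    omega
  · exact h1
  · have := ia_choose_strict hk n' (n - n' - 1) hn'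
    rw [show n' + (n - n' - 1) + 1 = n by omega] at this
    omega

/-- `(n / k) ^ k ≤ C(n, k)`. -/
theorem ia_choose_lower (n k : ℕ) (hk : 1 ≤ k) (hkn : k ≤ n) :
    ((n : ℝ) / k) ^ k ≤ (n.choose k : ℝ) := by
  have key : ∀ j : ℕ, j ≤ k → ((n : ℝ) / k) ^ j * ((k.choose j : ℕ) : ℝ) ≤ (n.choose j : ℝ) := by
    intro j
    induction j with
    | zero => intro _; simp
    | succ j ih =>
      intro hj
      have h1 := ih (by omega)
      have h2 : ((n.choose (j + 1) : ℕ) : ℝ) * (j + 1) = (n.choose j : ℝ) * (n - j) := by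
        have := Nat.choose_succ_right_eq n j
        have h3 : ((n.choose (j + 1) * (j + 1) : ℕ) : ℝ) = ((n.choose j * (n - j) : ℕ) : ℝ) := by
          rw [this]
        push_cast [Nat.cast_sub (show j ≤ n by omega)] at h3
        exact h3
      have h2' : ((k.choose (j + 1) : ℕ) : ℝ) * (j + 1) = (k.choose j : ℝ) * (k - j) := by
        have := Nat.choose_succ_right_eq k j
        have h3 : ((k.choose (j + 1) * (j + 1) : ℕ) : ℝ) = ((k.choose j * (k - j) : ℕ) : ℝ) := by
          rw [this]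
        push_cast [Nat.cast_sub (show j ≤ k by omega)] at h3
        exact h3
      have hkpos : (0 : ℝ) < k := by exact_mod_cast hk
      have hjk : (j : ℝ) + 1 ≤ k := by exact_mod_cast hj
      have hkn' : (k : ℝ) ≤ n := by exact_mod_cast hkn
      have hj0 : (0 : ℝ) < (j : ℝ) + 1 := by positivity
      have h4 : (n : ℝ) / k * (k - j) ≤ n - j := by
        rw [div_mul_eq_mul_div, div_le_iff₀ hkpos]
        have : (j : ℝ) * k ≤ j * n := mul_le_mul_of_nonneg_left hkn' (Nat.cast_nonneg j)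
        nlinarith
      have h5 : ((n : ℝ) / k) ^ (j + 1) * ((k.choose (j + 1) : ℕ) : ℝ) * (j + 1) ≤
          ((n.choose (j + 1) : ℕ) : ℝ) * (j + 1) := by
        calc ((n : ℝ) / k) ^ (j + 1) * ((k.choose (j + 1) : ℕ) : ℝ) * (j + 1)
            = ((n : ℝ) / k) ^ (j + 1) * (((k.choose (j + 1) : ℕ) : ℝ) * (j + 1)) := by ring
          _ = (((n : ℝ) / k) ^ j * (k.choose j : ℝ)) * ((n : ℝ) / k * (k - j)) := by
              rw [h2', pow_succ]; ring
          _ ≤ (n.choose j : ℝ) * (n - j) := by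
              refine mul_le_mul h1 h4 ?_ (Nat.cast_nonneg _)
              refine mul_nonneg (by positivity) (by linarith)
          _ = _ := h2.symm
      exact le_of_mul_le_mul_right h5 hj0
  have := key k le_rfl
  rwa [Nat.choose_self, Nat.cast_one, mul_one] at this

theorem ia_log_lower (n k : ℕ) (hk : 1 ≤ k) (hkn : k ≤ n) :
    (k : ℝ) * Real.log ((n : ℝ) / k) ≤ Real.log (n.choose k) := by
  have hkpos : (0 : ℝ) < k := by exact_mod_cast hk
  have hnpos : (0 : ℝ) < n := by exact_mod_cast (show 0 < n by omega)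
  rw [← Real.log_pow]
  exact Real.log_le_log (by positivity) (ia_choose_lower n k hk hkn)

theorem int_assembly (L₀ c C : ℝ) (hc : 0 < c)
    (h : ∀ L ≥ L₀, ∀ τ₀ ∈ Set.Icc (Real.log 2) 500, ∀ T : Finset ℕ,
      (∀ t ∈ T, 1 ≤ t ∧ ∃ n : ℕ, 2 * t ≤ n ∧ Real.log (n.choose t) = L ∧
        |Real.log ((n : ℝ) / t) - τ₀| ≤ c * L ^ (-(5 / 11) : ℝ)) → (T.card : ℝ) ≤ C) :
    ∃ C' : ℝ, ∀ L : ℝ, 1 / 2 ≤ L → ∀ F : Finset ℕ,
      (∀ k ∈ F, 1 ≤ k ∧ L < 500 * (k : ℝ) ∧
        ∃ n : ℕ, 2 * k ≤ n ∧ Real.log (n.choose k) = L) →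
      (F.card : ℝ) ≤ C' * Real.sqrt L := by
  have hlog2 : (1 : ℝ) / 2 < Real.log 2 := by have := Real.log_two_gt_d9; linarith
  have hlog2' : Real.log 2 < 500 := by have := Real.log_two_lt_d9; linarith
  refine ⟨2 * Real.sqrt (max L₀ 1) + (1000 / c + 2) * max C 0, ?_⟩
  intro L hL F hF
  have hL0 : 0 < L := by linarith
  have hsq : 0 < Real.sqrt L := Real.sqrt_pos.mpr hL0
  have hsqL : Real.sqrt L * Real.sqrt L = L := Real.mul_self_sqrt hL0.le
  have hA : 0 ≤ 2 * Real.sqrt (max L₀ 1) := by positivity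
  have hB : 0 ≤ (1000 / c + 2) * max C 0 := by positivity
  -- size of `k`
  have htau : ∀ k ∈ F, ∃ n : ℕ, 2 * k ≤ n ∧ Real.log (n.choose k) = L ∧
      Real.log 2 ≤ Real.log ((n : ℝ) / k) ∧ (k : ℝ) * Real.log ((n : ℝ) / k) ≤ L := by
    intro k hk
    obtain ⟨hk1, hk2, n, hn, hn'⟩ := hF k hk
    have hkpos : (0 : ℝ) < k := by exact_mod_cast hk1
    refine ⟨n, hn, hn', ?_, ?_⟩
    · refine Real.log_le_log (by norm_num) ?_
      rw [le_div_iff₀ hkpos]
      exact_mod_cast hn
    · rw [← hn']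
      exact ia_log_lower n k hk1 (by omega)
  rcases lt_or_ge L L₀ with hlt | hge
  · -- small `L`
    have hsub : F ⊆ Finset.Icc 1 ⌊2 * L⌋₊ := by
      intro k hk
      obtain ⟨n, _, _, h1, h2⟩ := htau k hk
      have hk1 := (hF k hk).1
      have hkpos : (0 : ℝ) < k := by exact_mod_cast hk1
      rw [Finset.mem_Icc]
      refine ⟨hk1, Nat.le_floor ?_⟩
      have : (k : ℝ) * (1 / 2) ≤ L := by
        refine le_trans ?_ h2
        exact mul_le_mul_of_nonneg_left (by linarith) hkpos.le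
      linarith
    have hcard : (F.card : ℝ) ≤ 2 * L := by
      have h1 := Finset.card_le_card hsub
      rw [Nat.card_Icc, Nat.add_sub_cancel] at h1
      have h2 : ((⌊2 * L⌋₊ : ℕ) : ℝ) ≤ 2 * L := Nat.floor_le (by linarith)
      have h3 : (F.card : ℝ) ≤ ((⌊2 * L⌋₊ : ℕ) : ℝ) := by exact_mod_cast h1
      linarith
    have h4 : Real.sqrt L ≤ Real.sqrt (max L₀ 1) :=
      Real.sqrt_le_sqrt (hlt.le.trans (le_max_left _ _))
    calc (F.card : ℝ) ≤ 2 * L := hcard
      _ = 2 * Real.sqrt L * Real.sqrt L := by rw [mul_assoc, hsqL]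
      _ ≤ 2 * Real.sqrt (max L₀ 1) * Real.sqrt L := by
          refine mul_le_mul_of_nonneg_right (by linarith) hsq.le
      _ ≤ _ := mul_le_mul_of_nonneg_right (by linarith) hsq.le
  · -- large `L`
    have hC0 : 0 ≤ C := by
      have := h L hge 500 ⟨hlog2'.le, le_rfl⟩ ∅ (by simp)
      simpa using this
    set δ : ℝ := c * L ^ (-(5 / 11) : ℝ) with hδ
    have hδ0 : 0 < δ := by positivity
    have hchoose : ∀ k ∈ F, ∃ n : ℕ, 2 * k ≤ n ∧ Real.log (n.choose k) = L ∧
      Real.log 2 ≤ Real.log ((n : ℝ) / k) ∧ Real.log ((n : ℝ) / k) ≤ 500 := by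
      intro k hk
      obtain ⟨n, h1, h2, h3, h4⟩ := htau k hk
      refine ⟨n, h1, h2, h3, ?_⟩
      have hk1 := (hF k hk).1
      have hkpos : (0 : ℝ) < k := by exact_mod_cast hk1
      have h5 := (hF k hk).2.1
      by_contra hcon
      rw [not_le] at hcon
      have := mul_lt_mul_of_pos_left hcon hkpos
      linarith
    choose! N hN1 hN2 hN3 hN4 using hchoose
    set win : ℕ → Finset ℕ := fun j => F.filter fun k =>
      |Real.log ((N k : ℝ) / k) - (Real.log 2 + j * δ)| ≤ δ ∧ Real.log 2 + j * δ ≤ 500 with hwin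
    have hcover : F ⊆ (Finset.range (⌊500 / δ⌋₊ + 1)).biUnion win := by
      intro k hk
      have h1 := hN3 k hk
      have h2 := hN4 k hk
      set x : ℝ := (Real.log ((N k : ℝ) / k) - Real.log 2) / δ with hx
      have hx0 : 0 ≤ x := div_nonneg (by linarith) hδ0.le
      have hxe : Real.log ((N k : ℝ) / k) = Real.log 2 + x * δ := by
        rw [hx, div_mul_cancel₀ _ hδ0.ne']; ring
      have hfl := Nat.floor_le hx0
      have hfl' := Nat.lt_floor_add_one x
      rw [Finset.mem_biUnion]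
      refine ⟨⌊x⌋₊, ?_, ?_⟩
      · rw [Finset.mem_range, Nat.lt_succ_iff]
        apply Nat.floor_le_floor
        rw [hx]
        exact div_le_div_of_nonneg_right (by linarith) hδ0.le
      · rw [hwin, Finset.mem_filter]
        have h3 : (⌊x⌋₊ : ℝ) * δ ≤ x * δ := mul_le_mul_of_nonneg_right hfl hδ0.le
        have h4 : x * δ ≤ ((⌊x⌋₊ : ℝ) + 1) * δ := mul_le_mul_of_nonneg_right hfl'.le hδ0.le
        refine ⟨hk, ?_, ?_⟩
        · rw [hxe, abs_le]
          constructor
          · linarith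
          · linarith
        · linarith
    have hwc : ∀ j, ((win j).card : ℝ) ≤ C := by
      intro j
      by_cases hj : Real.log 2 + j * δ ≤ 500
      · have hj0 : 0 ≤ (j : ℝ) * δ := by positivity
        refine h L hge (Real.log 2 + j * δ) ⟨by linarith, hj⟩ (win j) ?_
        intro t ht
        rw [hwin, Finset.mem_filter] at ht
        refine ⟨(hF t ht.1).1, N t, hN1 t ht.1, hN2 t ht.1, ht.2.1⟩
      · have : win j = ∅ := by
          rw [hwin, Finset.filter_eq_empty_iff]
          intro t _ ht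
          exact hj ht.2
        rw [this, Finset.card_empty, Nat.cast_zero]
        exact hC0
    have hcard : (F.card : ℝ) ≤ (500 / δ + 1) * C := by
      have h1 := (Finset.card_le_card hcover).trans Finset.card_biUnion_le
      have h2 : (F.card : ℝ) ≤ ∑ j ∈ Finset.range (⌊500 / δ⌋₊ + 1), ((win j).card : ℝ) := by
        exact_mod_cast h1
      have h3 : ∑ j ∈ Finset.range (⌊500 / δ⌋₊ + 1), ((win j).card : ℝ) ≤
          ∑ _j ∈ Finset.range (⌊500 / δ⌋₊ + 1), C := Finset.sum_le_sum fun j _ => hwc j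
      rw [Finset.sum_const, Finset.card_range, nsmul_eq_mul] at h3
      have h4 : ((⌊500 / δ⌋₊ + 1 : ℕ) : ℝ) ≤ 500 / δ + 1 := by
        push_cast
        have := Nat.floor_le (show 0 ≤ 500 / δ by positivity)
        linarith
      exact (h2.trans h3).trans (mul_le_mul_of_nonneg_right h4 hC0)
    have hpow : L ^ (5 / 11 : ℝ) ≤ 2 * Real.sqrt L := by
      rw [Real.sqrt_eq_rpow]
      have h1 : L ^ (5 / 11 : ℝ) = L ^ (1 / 2 : ℝ) * L ^ (-(1 / 22) : ℝ) := by
        rw [← Real.rpow_add hL0]; norm_num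
      have h2 : L ^ (-(1 / 22) : ℝ) ≤ 2 := by
        calc L ^ (-(1 / 22) : ℝ) ≤ (1 / 2 : ℝ) ^ (-(1 / 22) : ℝ) :=
              Real.rpow_le_rpow_of_nonpos (by norm_num) hL (by norm_num)
          _ = 2 ^ (1 / 22 : ℝ) := by
              rw [one_div, Real.inv_rpow (by norm_num), ← Real.rpow_neg (by norm_num)]
              norm_num
          _ ≤ 2 ^ (1 : ℝ) := Real.rpow_le_rpow_of_exponent_le (by norm_num) (by norm_num)
          _ = 2 := Real.rpow_one 2
      rw [h1, mul_comm]
      exact mul_le_mul_of_nonneg_right h2 (by positivity)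
    have hdiv : 500 / δ = 500 / c * L ^ (5 / 11 : ℝ) := by
      rw [hδ, Real.rpow_neg hL0.le]
      field_simp
    have hone : 1 ≤ 2 * Real.sqrt L := by
      have : (1 / 2 : ℝ) ≤ Real.sqrt L := by
        rw [show (1 / 2 : ℝ) = Real.sqrt (1 / 4) by
          rw [show (1 / 4 : ℝ) = (1 / 2) ^ 2 by norm_num, Real.sqrt_sq (by norm_num)]]
        exact Real.sqrt_le_sqrt (by linarith)
      linarith
    calc (F.card : ℝ) ≤ (500 / δ + 1) * C := hcard
      _ ≤ (500 / c * (2 * Real.sqrt L) + 2 * Real.sqrt L) * C := by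
          refine mul_le_mul_of_nonneg_right ?_ hC0
          rw [hdiv]
          have := mul_le_mul_of_nonneg_left hpow (show 0 ≤ 500 / c by positivity)
          linarith
      _ = ((1000 / c + 2) * C) * Real.sqrt L := by ring
      _ ≤ _ := by
          refine mul_le_mul_of_nonneg_right ?_ hsq.le
          have : (1000 / c + 2) * C ≤ (1000 / c + 2) * max C 0 :=
            mul_le_mul_of_nonneg_left (le_max_left _ _) (by positivity)
          linarith

theorem final_assembly (C : ℝ)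
    (h : ∀ a : ℕ, 2 ≤ a → ∀ F : Finset ℕ,
      (∀ k ∈ F, 1 ≤ k ∧ ∃ n : ℕ, 2 * k ≤ n ∧ n.choose k = a) →
      (F.card : ℝ) ≤ C * Real.sqrt (Real.log a)) :
    ∀ a : ℕ, 2 ≤ a → {p : ℕ × ℕ | p.2 ≤ p.1 ∧ p.1.choose p.2 = a}.Finite ∧
      ({p : ℕ × ℕ | p.2 ≤ p.1 ∧ p.1.choose p.2 = a}.ncard : ℝ)
        ≤ 2 * C * Real.sqrt (Real.log a) := by
  classical
  intro a ha
  set F : Finset ℕ := (Finset.range (a + 1)).filter fun j => 1 ≤ j ∧
    ∃ n : ℕ, 2 * j ≤ n ∧ n.choose j = a with hF
  have hex : ∀ j ∈ F, ∃ n : ℕ, 2 * j ≤ n ∧ n.choose j = a := by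
    intro j hj
    rw [hF, Finset.mem_filter] at hj
    exact hj.2.2
  choose! N hN1 hN2 using hex
  have hFcard := h a ha F (fun k hk => by
    rw [hF, Finset.mem_filter] at hk
    exact hk.2)
  have hsub : {p : ℕ × ℕ | p.2 ≤ p.1 ∧ p.1.choose p.2 = a} ⊆
      ↑(F.image (fun j => (N j, j)) ∪ F.image (fun j => (N j, N j - j))) := by
    rintro ⟨n, k⟩ ⟨hkn, hch⟩
    simp only at hkn hch
    have hk0 : k ≠ 0 := by
      rintro rfl
      rw [Nat.choose_zero_right] at hch
      omega
    have hkn' : k ≠ n := by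
      rintro rfl
      rw [Nat.choose_self] at hch
      omega
    have hna : n ≤ a := by
      rw [← hch]
      exact ia_choose_ge n k (by omega) (by omega)
    rw [Finset.coe_union, Set.mem_union, Finset.mem_coe, Finset.mem_coe, Finset.mem_image,
      Finset.mem_image]
    rcases Nat.lt_or_ge n (2 * k) with h1 | h1
    · right
      have hch' : n.choose (n - k) = a := by rw [Nat.choose_symm hkn]; exact hch
      have hmem : n - k ∈ F := by
        rw [hF, Finset.mem_filter, Finset.mem_range]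
        exact ⟨by omega, by omega, n, by omega, hch'⟩
      have hNn : N (n - k) = n := ia_choose_inj (k := n - k) (by omega)
        (by have := hN1 _ hmem; omega) (by omega) (by rw [hN2 _ hmem, hch'])
      refine ⟨n - k, hmem, ?_⟩
      rw [hNn, Prod.mk.injEq]
      exact ⟨rfl, by omega⟩
    · left
      have hmem : k ∈ F := by
        rw [hF, Finset.mem_filter, Finset.mem_range]
        exact ⟨by omega, by omega, n, h1, hch⟩
      have hNn : N k = n := ia_choose_inj (k := k) (by omega)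
        (by have := hN1 _ hmem; omega) (by omega) (by rw [hN2 _ hmem, hch])
      exact ⟨k, hmem, by rw [hNn]⟩
  refine ⟨Set.Finite.subset (Finset.finite_toSet _) hsub, ?_⟩
  have h1 : {p : ℕ × ℕ | p.2 ≤ p.1 ∧ p.1.choose p.2 = a}.ncard ≤ F.card + F.card := by
    refine (Set.ncard_le_ncard hsub (Finset.finite_toSet _)).trans ?_
    rw [Set.ncard_coe_finset]
    exact (Finset.card_union_le _ _).trans (add_le_add Finset.card_image_le Finset.card_image_le)
  have h2 : ({p : ℕ × ℕ | p.2 ≤ p.1 ∧ p.1.choose p.2 = a}.ncard : ℝ) ≤ F.card + F.card := by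
    exact_mod_cast h1
  linarith

end Pool.Agent.SG
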