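import Mathlib

open Finset Metric Set

namespace Pool.Agent.SG

theorem fixedpoint_family (U : Set ℂ) (hU : IsOpen U) (c : ℂ → ℂ)
    (hc : DifferentiableOn ℂ c U) (R : ℂ → ℝ) (hR : ∀ τ ∈ U, 0 ≤ R τ)
    (hRb : ∃ M : ℝ, ∀ τ ∈ U, R τ ≤ M) (Φ : ℂ → ℂ → ℂ)
    (hmaps : ∀ τ ∈ U, ∀ x ∈ Metric.closedBall (c τ) (R τ), Φ τ x ∈ Metric.closedBall (c τ) (R τ))
    (hcontr : ∀ τ ∈ U, ∀ x ∈ Metric.closedBall (c τ) (R τ),
      ∀ y ∈ Metric.closedBall (c τ) (R τ), ‖Φ τ x - Φ τ y‖ ≤ 1 / 2 * ‖x - y‖)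
    (hdiff : ∀ f : ℂ → ℂ, DifferentiableOn ℂ f U →
      (∀ τ ∈ U, f τ ∈ Metric.closedBall (c τ) (R τ)) →
      DifferentiableOn ℂ (fun τ => Φ τ (f τ)) U) :
    ∃ f : ℂ → ℂ, DifferentiableOn ℂ f U ∧ ∀ τ ∈ U, f τ ∈ Metric.closedBall (c τ) (R τ) ∧
      Φ τ (f τ) = f τ ∧ ∀ x ∈ Metric.closedBall (c τ) (R τ), Φ τ x = x → x = f τ := by
  obtain ⟨M, hM⟩ := hRb
  -- the iteration
  set x : ℕ → ℂ → ℂ := fun n => Nat.rec c (fun _ g => fun τ => Φ τ (g τ)) n with hx
  have hx0 : x 0 = c := rfl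
  have hxs : ∀ n τ, x (n + 1) τ = Φ τ (x n τ) := fun n τ => rfl
  have hmem : ∀ n, ∀ τ ∈ U, x n τ ∈ Metric.closedBall (c τ) (R τ) := by
    intro n
    induction n with
    | zero => intro τ hτ; exact Metric.mem_closedBall_self (hR τ hτ)
    | succ n ih => intro τ hτ; rw [hxs]; exact hmaps τ hτ _ (ih τ hτ)
  have hxd : ∀ n, DifferentiableOn ℂ (x n) U := by
    intro n
    induction n with
    | zero => exact hc
    | succ n ih => exact hdiff (x n) ih (hmem n)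
  have hstep : ∀ n, ∀ τ ∈ U, dist (x n τ) (x (n + 1) τ) ≤ 2 * R τ / 2 / 2 ^ n := by
    intro n
    induction n with
    | zero =>
      intro τ hτ
      have := hmem 1 τ hτ
      rw [Metric.mem_closedBall, dist_comm] at this
      rw [hx0]
      simpa using this
    | succ n ih =>
      intro τ hτ
      rw [hxs n, hxs (n + 1), dist_eq_norm]
      refine (hcontr τ hτ _ (hmem n τ hτ) _ (hmem (n + 1) τ hτ)).trans ?_
      have := ih τ hτ
      rw [dist_eq_norm] at this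
      rw [pow_succ]
      calc 1 / 2 * ‖x n τ - x (n + 1) τ‖ ≤ 1 / 2 * (2 * R τ / 2 / 2 ^ n) := by linarith
        _ = 2 * R τ / 2 / (2 ^ n * 2) := by field_simp
  have hlim : ∀ τ ∈ U, ∃ a, Filter.Tendsto (fun n => x n τ) Filter.atTop (nhds a) := by
    intro τ hτ
    exact cauchySeq_tendsto_of_complete (cauchySeq_of_le_geometric_two (fun n => hstep n τ hτ))
  choose! f hf using hlim
  have hdist : ∀ n, ∀ τ ∈ U, dist (x n τ) (f τ) ≤ 2 * R τ / 2 ^ n := fun n τ hτ =>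
    dist_le_of_le_geometric_two_of_tendsto (fun n => hstep n τ hτ) (hf τ hτ) n
  have hfmem : ∀ τ ∈ U, f τ ∈ Metric.closedBall (c τ) (R τ) := by
    intro τ hτ
    exact Metric.isClosed_closedBall.mem_of_tendsto (hf τ hτ)
      (Filter.Eventually.of_forall fun n => hmem n τ hτ)
  have hunif : TendstoUniformlyOn x f Filter.atTop U := by
    rw [Metric.tendstoUniformlyOn_iff]
    intro ε hε
    have hM0 : Filter.Tendsto (fun n : ℕ => 2 * |M| * (1 / 2 : ℝ) ^ n) Filter.atTop (nhds 0) := by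
      have := (tendsto_pow_atTop_nhds_zero_of_lt_one (by norm_num : (0:ℝ) ≤ 1 / 2)
        (by norm_num : (1 / 2 : ℝ) < 1)).const_mul (2 * |M|)
      simpa using this
    filter_upwards [hM0.eventually_lt_const hε] with n hn τ hτ
    rw [dist_comm]
    refine (hdist n τ hτ).trans_lt (lt_of_le_of_lt ?_ hn)
    have h1 : R τ ≤ |M| := (hM τ hτ).trans (le_abs_self M)
    have h2 : (0:ℝ) < (1 / 2 : ℝ) ^ n := by positivity
    have h3 : 2 * R τ / 2 ^ n = 2 * R τ * (1 / 2 : ℝ) ^ n := by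
      rw [div_pow, one_pow]; ring
    rw [h3]
    exact mul_le_mul_of_nonneg_right (by linarith) h2.le
  refine ⟨f, hunif.tendstoLocallyUniformlyOn.differentiableOn
    (Filter.Eventually.of_forall hxd) hU, fun τ hτ => ⟨hfmem τ hτ, ?_, ?_⟩⟩
  · have h1 : Filter.Tendsto (fun n => x (n + 1) τ) Filter.atTop (nhds (f τ)) :=
      (hf τ hτ).comp (Filter.tendsto_add_atTop_nat 1)
    have h2 : Filter.Tendsto (fun n => x (n + 1) τ) Filter.atTop (nhds (Φ τ (f τ))) := by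
      rw [tendsto_iff_dist_tendsto_zero]
      have h3 : Filter.Tendsto (fun n => 1 / 2 * dist (x n τ) (f τ)) Filter.atTop (nhds 0) := by
        have := (tendsto_iff_dist_tendsto_zero.1 (hf τ hτ)).const_mul (1 / 2 : ℝ)
        simpa using this
      refine squeeze_zero (fun n => dist_nonneg) (fun n => ?_) h3
      rw [hxs, dist_eq_norm, dist_eq_norm]
      exact hcontr τ hτ _ (hmem n τ hτ) _ (hfmem τ hτ)
    exact tendsto_nhds_unique h2 h1
  · intro y hy hyf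
    have hfix : Φ τ (f τ) = f τ := by
      have h1 : Filter.Tendsto (fun n => x (n + 1) τ) Filter.atTop (nhds (f τ)) :=
        (hf τ hτ).comp (Filter.tendsto_add_atTop_nat 1)
      have h2 : Filter.Tendsto (fun n => x (n + 1) τ) Filter.atTop (nhds (Φ τ (f τ))) := by
        rw [tendsto_iff_dist_tendsto_zero]
        have h3 : Filter.Tendsto (fun n => 1 / 2 * dist (x n τ) (f τ)) Filter.atTop (nhds 0) := by
          have := (tendsto_iff_dist_tendsto_zero.1 (hf τ hτ)).const_mul (1 / 2 : ℝ)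
          simpa using this
        refine squeeze_zero (fun n => dist_nonneg) (fun n => ?_) h3
        rw [hxs, dist_eq_norm, dist_eq_norm]
        exact hcontr τ hτ _ (hmem n τ hτ) _ (hfmem τ hτ)
      exact tendsto_nhds_unique h2 h1
    have h := hcontr τ hτ y hy (f τ) (hfmem τ hτ)
    rw [hyf, hfix] at h
    have h0 : ‖y - f τ‖ = 0 := by
      have := norm_nonneg (y - f τ)
      linarith
    exact sub_eq_zero.1 (norm_eq_zero.1 h0)

/-- The Cayley type quotient has positive real part and bounded modulus. -/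
lemma fd_quot (ρ : ℝ) (hρ0 : 0 ≤ ρ) (hρ1 : ρ < 1) (w : ℂ) (hw : ‖w‖ ≤ 1) :
    1 - (ρ : ℂ) * w ≠ 0 ∧ 0 < ((1 + (ρ : ℂ) * w) / (1 - (ρ : ℂ) * w)).re ∧
      ‖(1 + (ρ : ℂ) * w) / (1 - (ρ : ℂ) * w)‖ ≤ (1 + ρ) / (1 - ρ) := by
  set z := (ρ : ℂ) * w with hz
  have hzn : ‖z‖ ≤ ρ := by
    rw [hz, norm_mul, Complex.norm_real, Real.norm_of_nonneg hρ0]
    nlinarith [norm_nonneg w]
  have hz1 : ‖z‖ < 1 := hzn.trans_lt hρ1
  have hne : 1 - z ≠ 0 := by
    intro h
    have : z = 1 := by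
      have := sub_eq_zero.1 h
      exact this.symm
    rw [this, norm_one] at hz1
    exact lt_irrefl _ hz1
  have hpos : 0 < Complex.normSq (1 - z) := Complex.normSq_pos.2 hne
  refine ⟨hne, ?_, ?_⟩
  · rw [Complex.div_re]
    have h1 : (1 + z).re * (1 - z).re / Complex.normSq (1 - z)
        + (1 + z).im * (1 - z).im / Complex.normSq (1 - z)
        = (1 - Complex.normSq z) / Complex.normSq (1 - z) := by
      rw [← add_div]
      congr 1
      simp only [Complex.add_re, Complex.one_re, Complex.sub_re, Complex.add_im, Complex.one_im,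
        Complex.sub_im, Complex.normSq_apply]
      ring
    rw [h1]
    apply div_pos _ hpos
    rw [Complex.normSq_eq_norm_sq]
    nlinarith [norm_nonneg z]
  · rw [norm_div]
    have h1 : ‖1 + z‖ ≤ 1 + ρ := (norm_add_le _ _).trans (by rw [norm_one]; linarith)
    have h2 : 1 - ρ ≤ ‖1 - z‖ := by
      have := norm_sub_norm_le (1 : ℂ) z
      rw [norm_one] at this
      linarith
    exact div_le_div₀ (by linarith) h1 (by linarith) h2

lemma fd_pow_sub_one (k : ℕ) (y : ℝ) (hy0 : 0 ≤ y) (hy : y ≤ 2) :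
    |y ^ k - 1| ≤ k * 2 ^ k * |y - 1| := by
  induction k with
  | zero => simp
  | succ k ih =>
    have e : y ^ (k + 1) - 1 = y * (y ^ k - 1) + (y - 1) := by ring
    rw [e]
    refine (abs_add_le _ _).trans ?_
    rw [abs_mul, abs_of_nonneg hy0]
    have h1 : y * |y ^ k - 1| ≤ 2 * (k * 2 ^ k * |y - 1|) := by
      apply mul_le_mul hy ih (abs_nonneg _) (by norm_num)
    have h2 : |y - 1| ≤ 2 ^ (k + 1) * |y - 1| := by
      have : (1:ℝ) ≤ 2 ^ (k + 1) := one_le_pow₀ (by norm_num)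
      nlinarith [abs_nonneg (y - 1)]
    calc y * |y ^ k - 1| + |y - 1| ≤ 2 * (k * 2 ^ k * |y - 1|) + 2 ^ (k + 1) * |y - 1| :=
          add_le_add h1 h2
      _ = ((k + 1 : ℕ) : ℝ) * 2 ^ (k + 1) * |y - 1| := by push_cast; ring

theorem disc_map (A M η : ℝ) (hA : 1 ≤ A) (hM : 1 ≤ M) (hη : 0 < η) :
    ∃ B ϑ C : ℝ, 0 < ϑ ∧ ϑ < 1 ∧ 0 < C ∧ ∀ ξ₀ : ℝ, 1 / A ≤ ξ₀ → ξ₀ ≤ A →
      ∃ Ψ : ℂ → ℂ, DifferentiableOn ℂ Ψ (Metric.closedBall 0 1) ∧
        (∀ w ∈ Metric.closedBall (0 : ℂ) 1,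
          0 < (Ψ w).re ∧ (Ψ w).re < B ∧ |(Ψ w).im| < η) ∧
        (∀ ξ : ℝ, ξ₀ / M ≤ ξ → ξ ≤ ξ₀ * M → ∃ w : ℂ, ‖w‖ ≤ ϑ ∧ Ψ w = ξ) ∧
        (∀ ξ : ℝ, |ξ - ξ₀| ≤ 1 / C → ∃ w : ℂ, ‖w‖ ≤ C * |ξ - ξ₀| ∧ Ψ w = ξ) := by
  have hA0 : 0 < A := by linarith
  have hM0 : 0 < M := by linarith
  obtain ⟨k, hk⟩ := exists_nat_gt (A * M * Real.pi / η)
  rw [div_lt_iff₀ hη] at hk
  have hk0 : 0 < (k : ℝ) := by
    by_contra hcon
    have h1 : (k : ℝ) * η ≤ 0 := mul_nonpos_of_nonpos_of_nonneg (not_lt.1 hcon) hη.le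
    have h2 : 0 < A * M * Real.pi := by positivity
    linarith
  have hkn : k ≠ 0 := by
    rintro rfl
    simp at hk0
  set κ : ℝ := (k : ℝ)⁻¹ with hκ
  have hκ0 : 0 < κ := inv_pos.2 hk0
  have hκ1 : κ ≤ 1 := by
    rw [hκ]
    apply inv_le_one_of_one_le₀
    exact_mod_cast Nat.one_le_iff_ne_zero.2 hkn
  set P : ℝ := (2 * M) ^ k with hP
  set Q : ℝ := M ^ k with hQ
  have hQ1 : 1 ≤ Q := one_le_pow₀ hM
  have hQP : Q < P := pow_lt_pow_left₀ (by linarith) (by linarith) hkn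
  have hP1 : 1 < P := hQ1.trans_lt hQP
  set ρ : ℝ := (P - 1) / (P + 1) with hρ
  have hρ0 : 0 < ρ := div_pos (by linarith) (by linarith)
  have hρ1 : ρ < 1 := by rw [hρ, div_lt_one (by linarith)]; linarith
  have hρP : (1 + ρ) / (1 - ρ) = P := by
    rw [hρ]; field_simp; ring
  have hPκ : P ^ κ = 2 * M := by
    rw [hP, hκ]
    exact Real.pow_rpow_inv_natCast (by linarith) hkn
  set ϑ : ℝ := max (1 / 2) ((Q - 1) / (Q + 1) / ρ) with hϑ
  have hϑ1 : ϑ < 1 := by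
    rw [hϑ]
    apply max_lt (by norm_num)
    rw [div_lt_one hρ0, hρ, div_lt_div_iff₀ (by linarith) (by linarith)]
    nlinarith
  set C : ℝ := max (2 * A) (k * 2 ^ k * A / ρ) with hC
  have hC0 : 0 < C := lt_max_of_lt_left (by linarith)
  refine ⟨2 * A * M + 1, ϑ, C, lt_max_of_lt_left (by norm_num), hϑ1, hC0, fun ξ₀ hξ1 hξA => ?_⟩
  have hξ0 : 0 < ξ₀ := lt_of_lt_of_le (by positivity) hξ1
  -- the inverse on the positive reals
  have hinv : ∀ ξ : ℝ, 0 < ξ → (ξ₀ : ℂ) * ((1 + (ρ : ℂ) * ((((ξ / ξ₀) ^ k - 1)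
      / ((ξ / ξ₀) ^ k + 1) / ρ : ℝ) : ℂ)) / (1 - (ρ : ℂ) * ((((ξ / ξ₀) ^ k - 1)
      / ((ξ / ξ₀) ^ k + 1) / ρ : ℝ) : ℂ))) ^ (κ : ℂ) = ξ := by
    intro ξ hξ
    set y := ξ / ξ₀ with hy
    have hy0 : 0 < y := div_pos hξ hξ0
    set s := y ^ k with hs
    have hs0 : 0 < s := pow_pos hy0 k
    have h1 : (1 + (ρ : ℂ) * (((s - 1) / (s + 1) / ρ : ℝ) : ℂ))
        / (1 - (ρ : ℂ) * (((s - 1) / (s + 1) / ρ : ℝ) : ℂ)) = (s : ℂ) := by
      have h2 : ρ * ((s - 1) / (s + 1) / ρ) = (s - 1) / (s + 1) := by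
        field_simp
      have h3 : (1 + (ρ : ℂ) * (((s - 1) / (s + 1) / ρ : ℝ) : ℂ))
        / (1 - (ρ : ℂ) * (((s - 1) / (s + 1) / ρ : ℝ) : ℂ))
        = (((1 + ρ * ((s - 1) / (s + 1) / ρ)) / (1 - ρ * ((s - 1) / (s + 1) / ρ)) : ℝ) : ℂ) := by
        push_cast; rfl
      rw [h3, h2]
      congr 1
      have h4 : (s + 1) ≠ 0 := by linarith
      field_simp
      ring
    rw [h1, ← Complex.ofReal_cpow hs0.le, ← Complex.ofReal_mul]
    congr 1
    rw [hs, hκ, Real.pow_rpow_inv_natCast hy0.le hkn, hy]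
    field_simp
  refine ⟨fun w => (ξ₀ : ℂ) * ((1 + (ρ : ℂ) * w) / (1 - (ρ : ℂ) * w)) ^ (κ : ℂ), ?_, ?_, ?_, ?_⟩
  · intro w hw
    rw [mem_closedBall_zero_iff] at hw
    obtain ⟨hne, hre, -⟩ := fd_quot ρ hρ0.le hρ1 w hw
    apply DifferentiableAt.differentiableWithinAt
    apply DifferentiableAt.const_mul
    apply DifferentiableAt.cpow
    · apply DifferentiableAt.div
      · fun_prop
      · fun_prop
      · exact hne
    · fun_prop
    · exact Or.inl hre
  · intro w hw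
    rw [mem_closedBall_zero_iff] at hw
    obtain ⟨hne, hre, hnorm⟩ := fd_quot ρ hρ0.le hρ1 w hw
    set u := (1 + (ρ : ℂ) * w) / (1 - (ρ : ℂ) * w) with hu
    have hu0 : u ≠ 0 := by
      rintro h
      rw [h] at hre
      simp at hre
    rw [hρP] at hnorm
    have harg : |u.arg| < Real.pi / 2 := Complex.abs_arg_lt_pi_div_two_iff.2 (Or.inl hre)
    have hun : 0 < ‖u‖ := norm_pos_iff.2 hu0
    set E : ℝ := Real.exp (Real.log ‖u‖ * κ) with hE
    have hEle : E ≤ 2 * M := by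
      have h1 : E = ‖u‖ ^ κ := by rw [hE, Real.rpow_def_of_pos hun]
      rw [h1, ← hPκ]
      exact Real.rpow_le_rpow hun.le hnorm hκ0.le
    have hE0 : 0 < E := Real.exp_pos _
    have hpow : u ^ (κ : ℂ) = Complex.exp (Complex.log u * κ) :=
      Complex.cpow_def_of_ne_zero hu0 _
    have hre' : (u ^ (κ : ℂ)).re = E * Real.cos (u.arg * κ) := by
      rw [hpow, Complex.exp_re]
      simp [hE, Complex.log_re, Complex.log_im]
    have him' : (u ^ (κ : ℂ)).im = E * Real.sin (u.arg * κ) := by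
      rw [hpow, Complex.exp_im]
      simp [hE, Complex.log_re, Complex.log_im]
    have hangle : |u.arg * κ| ≤ Real.pi / 2 * κ := by
      rw [abs_mul, abs_of_pos hκ0]
      exact mul_le_mul_of_nonneg_right harg.le hκ0.le
    have hangle' : |u.arg * κ| < Real.pi / 2 := by
      rw [abs_mul, abs_of_pos hκ0]
      nlinarith [abs_nonneg u.arg]
    have hcos : 0 < Real.cos (u.arg * κ) := Real.cos_pos_of_mem_Ioo (abs_lt.1 hangle')
    simp only [Complex.re_ofReal_mul, Complex.im_ofReal_mul]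
    rw [hre', him']
    refine ⟨by positivity, ?_, ?_⟩
    · have h1 : E * Real.cos (u.arg * κ) ≤ 2 * M := by
        have := Real.cos_le_one (u.arg * κ)
        nlinarith
      have h2 : ξ₀ * (E * Real.cos (u.arg * κ)) ≤ A * (2 * M) :=
        mul_le_mul hξA h1 (by positivity) hA0.le
      linarith
    · rw [abs_mul, abs_mul, abs_of_pos hξ0, abs_of_pos hE0]
      have h1 : |Real.sin (u.arg * κ)| ≤ Real.pi / 2 * κ :=
        (Real.abs_sin_le_abs).trans hangle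
      have h2 : E * |Real.sin (u.arg * κ)| ≤ 2 * M * (Real.pi / 2 * κ) :=
        mul_le_mul hEle h1 (abs_nonneg _) (by positivity)
      have h3 : ξ₀ * (E * |Real.sin (u.arg * κ)|) ≤ A * (2 * M * (Real.pi / 2 * κ)) :=
        mul_le_mul hξA h2 (by positivity) hA0.le
      have h4 : A * (2 * M * (Real.pi / 2 * κ)) < η := by
        have : A * (2 * M * (Real.pi / 2 * κ)) = A * M * Real.pi / k := by
          rw [hκ]; ring
        rw [this, div_lt_iff₀ hk0]
        linarith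
      linarith
  · intro ξ h1 h2
    have hξ : 0 < ξ := lt_of_lt_of_le (by positivity) h1
    refine ⟨_, ?_, hinv ξ hξ⟩
    rw [Complex.norm_real, Real.norm_eq_abs, abs_div, abs_of_pos hρ0]
    refine le_trans ?_ (le_max_right _ _)
    apply div_le_div_of_nonneg_right _ hρ0.le
    set y := ξ / ξ₀ with hy
    have hy1 : 1 / M ≤ y := by
      rw [hy, div_le_div_iff₀ hM0 hξ0]
      rw [div_le_iff₀ hM0] at h1
      linarith
    have hy2 : y ≤ M := by
      rw [hy, div_le_iff₀ hξ0]; linarith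
    have hy0 : 0 < y := lt_of_lt_of_le (by positivity) hy1
    have hs1 : y ^ k ≤ Q := pow_le_pow_left₀ hy0.le hy2 k
    have hs2 : 1 / Q ≤ y ^ k := by
      have := pow_le_pow_left₀ (by positivity) hy1 k
      rwa [div_pow, one_pow] at this
    have hs0 : 0 < y ^ k := pow_pos hy0 k
    have hQ0 : 0 < Q := by linarith
    rw [div_le_iff₀ hQ0] at hs2
    rw [abs_le, le_div_iff₀ (by linarith), div_le_div_iff₀ (by linarith) (by linarith)]
    constructor
    · have h5 : -((Q - 1) / (Q + 1)) * (y ^ k + 1) = -((Q - 1) * (y ^ k + 1) / (Q + 1)) := by ring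
      rw [h5, neg_le, le_div_iff₀ (by linarith)]
      nlinarith
    · nlinarith
  · intro ξ h1
    have hC2 : 2 * A ≤ C := le_max_left _ _
    have hsmall : |ξ - ξ₀| ≤ ξ₀ / 2 := by
      refine h1.trans ?_
      have : 1 / C ≤ 1 / (2 * A) := one_div_le_one_div_of_le (by linarith) hC2
      refine this.trans ?_
      have : 1 / (2 * A) = (1 / A) / 2 := by field_simp
      rw [this]
      linarith
    rw [abs_le] at hsmall
    have hξ : 0 < ξ := by linarith [hsmall.1]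
    refine ⟨_, ?_, hinv ξ hξ⟩
    rw [Complex.norm_real, Real.norm_eq_abs, abs_div, abs_div, abs_of_pos hρ0]
    set y := ξ / ξ₀ with hy
    have hy0 : 0 < y := div_pos hξ hξ0
    have hy2 : y ≤ 2 := by
      rw [hy, div_le_iff₀ hξ0]; linarith [hsmall.2]
    have hs0 : 0 < y ^ k := pow_pos hy0 k
    have hden : |y ^ k + 1| = y ^ k + 1 := abs_of_pos (by linarith)
    rw [hden]
    have h2 := fd_pow_sub_one k y hy0.le hy2
    have hy1 : |y - 1| = |ξ - ξ₀| / ξ₀ := by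
      rw [hy, div_sub_one hξ0.ne', abs_div, abs_of_pos hξ0]
    have hle : |ξ - ξ₀| / ξ₀ ≤ A * |ξ - ξ₀| := by
      rw [div_le_iff₀ hξ0]
      have : 1 ≤ A * ξ₀ := by
        rw [div_le_iff₀ hA0] at hξ1
        linarith
      nlinarith [abs_nonneg (ξ - ξ₀)]
    calc |y ^ k - 1| / (y ^ k + 1) / ρ ≤ |y ^ k - 1| / ρ := by
          apply div_le_div_of_nonneg_right _ hρ0.le
          apply div_le_self (abs_nonneg _) (by linarith)
      _ ≤ (k * 2 ^ k * (A * |ξ - ξ₀|)) / ρ := by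
          apply div_le_div_of_nonneg_right _ hρ0.le
          refine h2.trans ?_
          rw [hy1]
          exact mul_le_mul_of_nonneg_left hle (by positivity)
      _ = (k * 2 ^ k * A / ρ) * |ξ - ξ₀| := by ring
      _ ≤ C * |ξ - ξ₀| := mul_le_mul_of_nonneg_right (le_max_right _ _) (abs_nonneg _)

end Pool.Agent.SG
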