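import Mathlib

/-! SG16: the function `h(τ)`. -/

open Finset Metric Set

namespace Pool.Agent.SG

/-- `h(τ) = t log t - (t-1) log (t-1)` with `t = exp τ` -/
noncomputable def hfun (τ : ℂ) : ℂ :=
  Complex.exp τ * τ - (Complex.exp τ - 1) * Complex.log (Complex.exp τ - 1)

/-- the parameter domain -/
def Om (B : ℝ) : Set ℂ := {τ | 3 / 5 < τ.re ∧ τ.re < B ∧ |τ.im| < 1 / 10}

theorem hf_arg (z : ℂ) (hz : 0 < z.re) : |z.arg| ≤ |z.im| / z.re := by
  have h1 : |z.arg| < Real.pi / 2 := Complex.abs_arg_lt_pi_div_two_iff.2 (Or.inl hz)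
  have h2 := Real.le_tan (abs_nonneg z.arg) h1
  have h3 : Real.tan |z.arg| = |z.im| / z.re := by
    rcases le_or_gt 0 z.arg with h | h
    · rw [abs_of_nonneg h, Complex.tan_arg, abs_of_nonneg (Complex.arg_nonneg_iff.1 h)]
    · rw [abs_of_neg h, Real.tan_neg, Complex.tan_arg, abs_of_neg (Complex.arg_neg_iff.1 h),
        neg_div]
  rw [← h3]
  exact h2

theorem hf_slit (z : ℂ) (hz : 0 < z.re) (s : ℝ) (hs : 0 ≤ s) : z + s ∈ Complex.slitPlane := by
  left
  simp
  linarith

theorem hf_int (z : ℂ) (hz : 0 < z.re) :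
    ∫ s in (0 : ℝ)..1, Complex.log (z + s) =
      (z + 1) * Complex.log (z + 1) - z * Complex.log z - 1 := by
  have hder : ∀ s ∈ Set.uIcc (0 : ℝ) 1,
      HasDerivAt (fun s : ℝ => (z + s) * Complex.log (z + s) - (z + s)) (Complex.log (z + s)) s := by
    intro s hs
    rw [Set.uIcc_of_le zero_le_one] at hs
    have hsl := hf_slit z hz s hs.1
    have hne : z + s ≠ 0 := Complex.slitPlane_ne_zero hsl
    have h1 : HasDerivAt (fun s : ℝ => z + (s : ℂ)) 1 s := by
      have := (Complex.ofRealCLM.hasDerivAt (x := s)).const_add z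
      simpa using this
    have h2 : HasDerivAt (fun w : ℂ => w * Complex.log w - w)
        (1 * Complex.log (z + s) + (z + s) * (z + s)⁻¹ - 1) (z + s) :=
      ((hasDerivAt_id _).mul (Complex.hasDerivAt_log hsl)).sub (hasDerivAt_id _)
    have h3 := h2.comp_of_eq s h1 rfl
    have h4 : (1 * Complex.log (z + s) + (z + s) * (z + s)⁻¹ - 1) * 1 = Complex.log (z + s) := by
      rw [mul_inv_cancel₀ hne]; ring
    rw [h4] at h3
    exact h3
  have hcont : ContinuousOn (fun s : ℝ => Complex.log (z + s)) (Set.uIcc 0 1) := by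
    intro s hs
    rw [Set.uIcc_of_le zero_le_one] at hs
    have hsl := hf_slit z hz s hs.1
    have : ContinuousAt (fun s : ℝ => z + (s : ℂ)) s := by fun_prop
    exact (this.clog hsl).continuousWithinAt
  rw [intervalIntegral.integral_eq_sub_of_hasDerivAt hder hcont.intervalIntegrable]
  push_cast
  rw [add_zero]
  ring

theorem hf_eq (τ : ℂ) (h1 : |τ.im| < 1 / 10) (h2 : 0 < (Complex.exp τ - 1).re) :
    hfun τ = 1 + ∫ s in (0 : ℝ)..1, Complex.log ((Complex.exp τ - 1) + s) := by
  have hpi := Real.pi_gt_three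
  have h3 := abs_lt.1 h1
  rw [hf_int _ h2, sub_add_cancel, Complex.log_exp (by linarith) (by linarith), hfun]
  ring

theorem hf_t (B : ℝ) (τ : ℂ) (hτ : τ ∈ Om B) :
    4 / 5 ≤ (Complex.exp τ - 1).re ∧
    |(Complex.exp τ - 1).im| ≤ 1 / 4 * (Complex.exp τ - 1).re ∧
    |(Complex.exp τ).im| ≤ 1 / 8 * (Complex.exp τ).re := by
  obtain ⟨h1, h2, h3⟩ := hτ
  have h4 := abs_lt.1 h3
  have hcos : 1 - τ.im ^ 2 / 2 ≤ Real.cos τ.im := Real.one_sub_sq_div_two_le_cos
  have hsq : τ.im ^ 2 ≤ 1 / 100 := by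
    have : |τ.im| ^ 2 ≤ (1 / 10) ^ 2 := pow_le_pow_left₀ (abs_nonneg _) h3.le 2
    rw [sq_abs] at this
    linarith
  have hc : 199 / 200 ≤ Real.cos τ.im := by linarith
  have hs : |Real.sin τ.im| ≤ 1 / 10 := (Real.abs_sin_le_abs (x := τ.im)).trans h3.le
  have he : 182 / 100 ≤ Real.exp τ.re := by
    have e1 : Real.exp (3 / 5) ≤ Real.exp τ.re := Real.exp_le_exp.2 h1.le
    have e2 := Real.sum_le_exp_of_nonneg (x := 3 / 5) (by norm_num) 5
    norm_num [Finset.sum_range_succ, Nat.factorial] at e2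
    linarith
  have hE : 0 < Real.exp τ.re := Real.exp_pos _
  have r1 : (Complex.exp τ).re = Real.exp τ.re * Real.cos τ.im := Complex.exp_re τ
  have i1 : (Complex.exp τ).im = Real.exp τ.re * Real.sin τ.im := Complex.exp_im τ
  have i2 : |(Complex.exp τ).im| ≤ Real.exp τ.re * (1 / 10) := by
    rw [i1, abs_mul, abs_of_pos hE]
    exact mul_le_mul_of_nonneg_left hs hE.le
  have r2 : Real.exp τ.re * (199 / 200) ≤ (Complex.exp τ).re := by
    rw [r1]
    exact mul_le_mul_of_nonneg_left hc hE.le
  refine ⟨?_, ?_, ?_⟩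
  · rw [Complex.sub_re, Complex.one_re]
    linarith
  · rw [Complex.sub_re, Complex.one_re, Complex.sub_im, Complex.one_im, sub_zero]
    linarith
  · linarith

theorem hfun_bounds (B : ℝ) (τ : ℂ) (hτ : τ ∈ Om B) :
    1 ≤ (hfun τ).re ∧ |(hfun τ).im| ≤ 1 / 4 ∧ ‖hfun τ‖ ≤ B + 2 ∧
    4 / 5 ≤ (Complex.exp τ - 1).re ∧
    |(Complex.exp τ - 1).im| ≤ 1 / 4 * (Complex.exp τ - 1).re ∧
    |(Complex.exp τ).im| ≤ 1 / 8 * (Complex.exp τ).re := by
  obtain ⟨g1, g2, g3⟩ := hf_t B τ hτ
  have hτ' := hτ
  obtain ⟨h1, h2, h3⟩ := hτ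
  set z := Complex.exp τ - 1 with hz
  have hz0 : 0 < z.re := by linarith
  have hcont : ContinuousOn (fun s : ℝ => Complex.log (z + s)) (Set.uIcc 0 1) := by
    intro s hs
    rw [Set.uIcc_of_le zero_le_one] at hs
    have hsl := hf_slit z hz0 s hs.1
    have : ContinuousAt (fun s : ℝ => z + (s : ℂ)) s := by fun_prop
    exact (this.clog hsl).continuousWithinAt
  have hint := hcont.intervalIntegrable (μ := MeasureTheory.volume)
  have heq := hf_eq τ h3 hz0
  rw [← hz] at heq
  set I := ∫ s in (0 : ℝ)..1, Complex.log (z + s) with hI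
  have hre : I.re = ∫ s in (0 : ℝ)..1, Real.log ‖z + s‖ := by
    have := Complex.reCLM.intervalIntegral_comp_comm hint
    simp only [Complex.reCLM_apply, Complex.log_re] at this
    rw [← this]
  have him : I.im = ∫ s in (0 : ℝ)..1, Complex.arg (z + s) := by
    have := Complex.imCLM.intervalIntegral_comp_comm hint
    simp only [Complex.imCLM_apply, Complex.log_im] at this
    rw [← this]
  have hcre : ContinuousOn (fun s : ℝ => Real.log ‖z + s‖) (Set.uIcc 0 1) := by
    have := Complex.continuous_re.comp_continuousOn hcont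
    simpa [Function.comp_def, Complex.log_re] using this
  have hcim : ContinuousOn (fun s : ℝ => Complex.arg (z + s)) (Set.uIcc 0 1) := by
    have := Complex.continuous_im.comp_continuousOn hcont
    simpa [Function.comp_def, Complex.log_im] using this
  -- lower bound
  have hlow : 0 ≤ I.re := by
    rw [hre]
    have hchord : ∀ s ∈ Set.Icc (0 : ℝ) 1,
        Real.log (4 / 5) + s * (Real.log (9 / 5) - Real.log (4 / 5)) ≤ Real.log ‖z + s‖ := by
      intro s hs
      have c1 : Real.log (4 / 5) + s * (Real.log (9 / 5) - Real.log (4 / 5)) ≤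
          Real.log (4 / 5 + s) := by
        have := strictConcaveOn_log_Ioi.concaveOn.2 (x := 4 / 5) (by simp) (y := 9 / 5) (by simp)
          (sub_nonneg.2 hs.2) hs.1 (by ring)
        simp only [smul_eq_mul] at this
        have e : (1 - s) * (4 / 5 : ℝ) + s * (9 / 5) = 4 / 5 + s := by ring
        rw [e] at this
        linarith
      refine c1.trans (Real.log_le_log (by linarith [hs.1]) ?_)
      calc 4 / 5 + s ≤ (z + s).re := by simp; linarith
        _ ≤ ‖z + s‖ := Complex.re_le_norm _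
    have hmono := intervalIntegral.integral_mono_on (μ := MeasureTheory.volume) zero_le_one
      (f := fun s : ℝ => Real.log (4 / 5) + s * (Real.log (9 / 5) - Real.log (4 / 5)))
      (Continuous.intervalIntegrable (by fun_prop) _ _) (hcre.intervalIntegrable) hchord
    refine le_trans ?_ hmono
    rw [intervalIntegral.integral_add (by simp) (Continuous.intervalIntegrable (by fun_prop) _ _)]
    rw [intervalIntegral.integral_mul_const, integral_id]
    simp only [intervalIntegral.integral_const, smul_eq_mul]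
    have l1 : 0 ≤ Real.log (4 / 5) + Real.log (9 / 5) := by
      rw [← Real.log_mul (by norm_num) (by norm_num)]
      exact Real.log_nonneg (by norm_num)
    norm_num
    linarith
  have hexp : ‖Complex.exp τ‖ = Real.exp τ.re := Complex.norm_exp τ
  have hnz : ‖z‖ ≤ ‖Complex.exp τ‖ := by
    rw [hz]
    have a1 : ‖Complex.exp τ - 1‖ ^ 2 ≤ ‖Complex.exp τ‖ ^ 2 := by
      rw [← Complex.normSq_eq_norm_sq, ← Complex.normSq_eq_norm_sq, Complex.normSq_apply,
        Complex.normSq_apply]
      simp only [Complex.sub_re, Complex.one_re, Complex.sub_im, Complex.one_im, sub_zero]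
      have : 4 / 5 ≤ (Complex.exp τ).re - 1 := by
        have := g1
        rw [hz, Complex.sub_re, Complex.one_re] at this
        exact this
      nlinarith
    exact le_of_sq_le_sq a1 (norm_nonneg _)
  have hup : I.re ≤ τ.re := by
    rw [hre]
    have hb : ∀ s ∈ Set.Icc (0 : ℝ) 1, Real.log ‖z + s‖ ≤ τ.re := by
      intro s hs
      have e : z + s = ((1 - s : ℝ) : ℂ) * z + (s : ℂ) * Complex.exp τ := by
        rw [hz]; push_cast; ring
      have b1 : ‖z + s‖ ≤ ‖Complex.exp τ‖ := by
        rw [e]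
        refine (norm_add_le _ _).trans ?_
        rw [norm_mul, norm_mul, Complex.norm_real, Complex.norm_real,
          Real.norm_of_nonneg (sub_nonneg.2 hs.2), Real.norm_of_nonneg hs.1]
        have := mul_le_mul_of_nonneg_left hnz (sub_nonneg.2 hs.2)
        linarith
      have b2 : 0 < ‖z + s‖ := norm_pos_iff.2 (Complex.slitPlane_ne_zero (hf_slit z hz0 s hs.1))
      calc Real.log ‖z + s‖ ≤ Real.log ‖Complex.exp τ‖ := Real.log_le_log b2 b1
        _ = τ.re := by rw [hexp, Real.log_exp]
    have hmono := intervalIntegral.integral_mono_on (μ := MeasureTheory.volume) zero_le_one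
      (g := fun _ : ℝ => τ.re) (hcre.intervalIntegrable) (by simp) hb
    simpa using hmono
  have hIim : |I.im| ≤ 1 / 4 := by
    rw [him]
    have hb : ∀ s ∈ Set.uIoc (0 : ℝ) 1, ‖Complex.arg (z + s)‖ ≤ 1 / 4 := by
      intro s hs
      rw [Set.uIoc_of_le zero_le_one] at hs
      have p : 0 < (z + s).re := by simp; linarith [hs.1]
      rw [Real.norm_eq_abs]
      refine (hf_arg _ p).trans ?_
      rw [div_le_iff₀ p]
      simp only [Complex.add_re, Complex.add_im, Complex.ofReal_re, Complex.ofReal_im, add_zero]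
      have := hs.1
      linarith
    have := intervalIntegral.norm_integral_le_of_norm_le_const hb
    simpa using this
  have hhre : (hfun τ).re = 1 + I.re := by rw [heq]; simp
  have hhim : (hfun τ).im = I.im := by rw [heq]; simp
  refine ⟨by rw [hhre]; linarith, by rw [hhim]; exact hIim, ?_, g1, g2, g3⟩
  have n1 := Complex.norm_le_abs_re_add_abs_im (hfun τ)
  rw [hhre, hhim, abs_of_nonneg (by linarith : (0:ℝ) ≤ 1 + I.re)] at n1
  linarith

theorem hfun_real (τ : ℝ) (hτ : 3 / 5 < τ) :
    ∃ h : ℝ, hfun τ = (h : ℂ) ∧ τ + 1 - 2 * Real.exp (-τ) ≤ h ∧ h ≤ τ + 1 ∧ 1 ≤ h := by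
  have he : 182 / 100 ≤ Real.exp τ := by
    have e1 : Real.exp (3 / 5) ≤ Real.exp τ := Real.exp_le_exp.2 hτ.le
    have e2 := Real.sum_le_exp_of_nonneg (x := 3 / 5) (by norm_num) 5
    norm_num [Finset.sum_range_succ, Nat.factorial] at e2
    linarith
  have hE := Real.exp_pos τ
  refine ⟨Real.exp τ * τ - (Real.exp τ - 1) * Real.log (Real.exp τ - 1), ?_, ?_⟩
  · rw [hfun]
    push_cast
    rw [Complex.ofReal_log (by linarith)]
    push_cast
    ring
  · set w := Real.exp τ - 1 with hw
    have hw0 : 0 < w := by linarith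
    have hlog : τ - Real.log w = Real.log (Real.exp τ / w) := by
      rw [Real.log_div hE.ne' hw0.ne', Real.log_exp]
    have hrat : Real.exp τ / w = 1 + 1 / w := by
      rw [div_eq_iff hw0.ne', add_mul, one_div_mul_cancel hw0.ne']
      linarith
    have hh : Real.exp τ * τ - w * Real.log w = τ + w * Real.log (1 + 1 / w) := by
      rw [← hrat, ← hlog, hw]; ring
    have hup : Real.log (1 + 1 / w) ≤ 1 / w := by
      have := Real.log_le_sub_one_of_pos (x := 1 + 1 / w) (by positivity)
      linarith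
    have hlo : 1 - (1 + 1 / w)⁻¹ ≤ Real.log (1 + 1 / w) :=
      Real.one_sub_inv_le_log_of_pos (by positivity)
    have hlo2 : 1 - Real.exp (-τ) ≤ w * Real.log (1 + 1 / w) := by
      have e3 : w * (1 - (1 + 1 / w)⁻¹) = 1 - Real.exp (-τ) := by
        have e4 : w = Real.exp τ - 1 := hw
        rw [← hrat, Real.exp_neg, inv_div]
        field_simp
        rw [e4]
        ring
      rw [← e3]
      exact mul_le_mul_of_nonneg_left hlo hw0.le
    have hup2 : w * Real.log (1 + 1 / w) ≤ 1 := by
      have := mul_le_mul_of_nonneg_left hup hw0.le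
      rwa [mul_one_div_cancel hw0.ne'] at this
    have hneg : 0 < Real.exp (-τ) := Real.exp_pos _
    have hneg2 : Real.exp (-τ) ≤ 3 / 5 := by
      rw [Real.exp_neg, inv_le_comm₀ hE (by norm_num)]
      linarith
    rw [hh]
    refine ⟨by linarith, by linarith, by linarith⟩

end Pool.Agent.SG
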