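import Mathlib

open Finset

namespace Pool.Agent.SG

theorem ee_log_prod (m n : ℕ) (hmn : m ≤ n) :
    Real.log (n.choose m) + Real.log (m.factorial)
      = ∑ j ∈ Finset.range m, Real.log ((n : ℝ) - j) := by
  have h1 : ((n.choose m : ℕ) : ℝ) * (m.factorial : ℝ) = ∏ j ∈ Finset.range m, ((n : ℝ) - j) := by
    have h2 := Nat.descFactorial_eq_factorial_mul_choose n m
    rw [Nat.descFactorial_eq_prod_range] at h2
    have h3 : ((∏ j ∈ Finset.range m, (n - j) : ℕ) : ℝ) = ((m.factorial * n.choose m : ℕ) : ℝ) := by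
      rw [h2]
    push_cast at h3
    rw [mul_comm, ← h3]
    refine Finset.prod_congr rfl (fun j hj => ?_)
    rw [Finset.mem_range] at hj
    rw [Nat.cast_sub (by omega)]
  have hc : (0 : ℝ) < (n.choose m : ℝ) := by exact_mod_cast Nat.choose_pos hmn
  have hf : (0 : ℝ) < (m.factorial : ℝ) := by exact_mod_cast m.factorial_pos
  rw [← Real.log_mul hc.ne' hf.ne', h1, Real.log_prod]
  intro j hj
  rw [Finset.mem_range] at hj
  have : (j : ℝ) < n := by exact_mod_cast (by omega : j < n)
  linarith

theorem exact_expansion (m n Q : ℕ) (hm : 1 ≤ m) (hmn : 2 * m ≤ n) (v : ℝ)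
    (hv : v = n - ((m : ℝ) - 1) / 2) :
    |(m : ℝ) * Real.log v
        - ∑ q ∈ Finset.Icc 1 Q, (∑ j ∈ Finset.range m, (((m : ℝ) - 1) / 2 - j) ^ (2 * q))
            / (2 * q * v ^ (2 * q))
        - (Real.log (n.choose m) + Real.log (m.factorial))|
      ≤ m * ((m : ℝ) ^ 2 / (4 * v ^ 2)) ^ (Q + 1) := by
  have hm' : (1 : ℝ) ≤ m := by exact_mod_cast hm
  have hmn' : 2 * (m : ℝ) ≤ n := by exact_mod_cast hmn
  have hv32 : 3 / 2 * (m : ℝ) ≤ v := by
    rw [hv]
    linarith
  have hv0 : 0 < v := by linarith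
  set s : ℕ → ℝ := fun j => ((m : ℝ) - 1) / 2 - j with hs
  set x : ℕ → ℝ := fun j => (s j / v) ^ 2 with hx
  have hsabs : ∀ j ∈ Finset.range m, |s j| ≤ (m : ℝ) / 2 := by
    intro j hj
    rw [Finset.mem_range] at hj
    have hj' : (j : ℝ) + 1 ≤ m := by exact_mod_cast hj
    have hj0 : (0 : ℝ) ≤ j := Nat.cast_nonneg j
    rw [abs_le]
    simp only [hs]
    constructor <;> linarith
  set ξ : ℝ := (m : ℝ) ^ 2 / (4 * v ^ 2) with hξ
  have hxξ : ∀ j ∈ Finset.range m, x j ≤ ξ := by
    intro j hj
    have h1 := hsabs j hj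
    simp only [hx, hξ]
    rw [div_pow, div_le_div_iff₀ (by positivity) (by positivity)]
    have h2 : s j ^ 2 ≤ ((m : ℝ) / 2) ^ 2 := by
      rw [← sq_abs (s j)]
      exact pow_le_pow_left₀ (abs_nonneg _) h1 2
    nlinarith [sq_nonneg v]
  have hξ2 : ξ ≤ 1 / 2 := by
    rw [hξ, div_le_div_iff₀ (by positivity) (by norm_num)]
    nlinarith
  have hx0 : ∀ j, 0 ≤ x j := fun j => sq_nonneg _
  -- sum of logs
  have hlogs : Real.log (n.choose m) + Real.log (m.factorial)
      = m * Real.log v + 1 / 2 * ∑ j ∈ Finset.range m, Real.log (1 - x j) := by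
    rw [ee_log_prod m n (by omega)]
    have h1 : ∑ j ∈ Finset.range m, Real.log ((n : ℝ) - j)
        = ∑ j ∈ Finset.range m, Real.log (v + s j) := by
      refine Finset.sum_congr rfl (fun j _ => ?_)
      congr 1
      simp only [hs]
      rw [hv]
      ring
    have h2 : ∑ j ∈ Finset.range m, Real.log (v + s j)
        = ∑ j ∈ Finset.range m, Real.log (v - s j) := by
      rw [← Finset.sum_range_reflect]
      refine Finset.sum_congr rfl (fun j hj => ?_)
      rw [Finset.mem_range] at hj
      congr 1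
      simp only [hs]
      have : ((m - 1 - j : ℕ) : ℝ) = (m : ℝ) - 1 - j := by
        rw [Nat.cast_sub (by omega), Nat.cast_sub (by omega)]
        simp
      rw [this]
      ring
    have h3 : ∀ j ∈ Finset.range m, Real.log (v + s j) + Real.log (v - s j)
        = 2 * Real.log v + Real.log (1 - x j) := by
      intro j hj
      have hsj := abs_le.mp (hsabs j hj)
      have hp1 : 0 < v + s j := by linarith [hsj.1]
      have hp2 : 0 < v - s j := by linarith [hsj.2]
      have hp3 : 0 < 1 - x j := by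
        have := hxξ j hj
        linarith
      rw [← Real.log_mul hp1.ne' hp2.ne', show 2 * Real.log v = Real.log (v ^ 2) by
        rw [Real.log_pow]; norm_num, ← Real.log_mul (by positivity) hp3.ne']
      congr 1
      simp only [hx]
      field_simp
      ring
    have h4 : 2 * ∑ j ∈ Finset.range m, Real.log (v + s j)
        = ∑ j ∈ Finset.range m, (2 * Real.log v + Real.log (1 - x j)) := by
      rw [← Finset.sum_congr rfl h3, Finset.sum_add_distrib, ← h2]
      ring
    rw [Finset.sum_add_distrib, Finset.sum_const, Finset.card_range, nsmul_eq_mul] at h4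
    rw [h1]
    linarith
  have hser : ∑ q ∈ Finset.Icc 1 Q, (∑ j ∈ Finset.range m, (s j) ^ (2 * q))
            / (2 * q * v ^ (2 * q))
      = 1 / 2 * ∑ j ∈ Finset.range m, ∑ i ∈ Finset.range Q, (x j) ^ (i + 1) / (i + 1) := by
    rw [Finset.sum_comm, Finset.mul_sum]
    rw [show Finset.Icc 1 Q = Finset.Ico 1 (Q + 1) by
      ext a; simp [Finset.mem_Icc, Finset.mem_Ico, Nat.lt_succ_iff]]
    rw [Finset.sum_Ico_eq_sum_range]
    refine Finset.sum_congr (by simp) (fun i _ => ?_)
    rw [Finset.sum_div, Finset.mul_sum]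
    refine Finset.sum_congr rfl (fun j _ => ?_)
    simp only [hx]
    rw [← pow_mul, div_pow, show 2 * (1 + i) = 2 * (i + 1) by ring]
    push_cast
    have : (i : ℝ) + 1 ≠ 0 := by positivity
    field_simp
    ring
  rw [hser, hlogs]
  have hfin : (m : ℝ) * Real.log v
      - 1 / 2 * ∑ j ∈ Finset.range m, ∑ i ∈ Finset.range Q, (x j) ^ (i + 1) / (i + 1)
      - (m * Real.log v + 1 / 2 * ∑ j ∈ Finset.range m, Real.log (1 - x j))
      = - (1 / 2 * ∑ j ∈ Finset.range m,
        ((∑ i ∈ Finset.range Q, (x j) ^ (i + 1) / (i + 1)) + Real.log (1 - x j))) := by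
    rw [Finset.sum_add_distrib]
    ring
  rw [hfin, abs_neg, abs_mul, abs_of_pos (by norm_num : (0 : ℝ) < 1 / 2)]
  have hterm : ∀ j ∈ Finset.range m,
      |(∑ i ∈ Finset.range Q, (x j) ^ (i + 1) / (i + 1)) + Real.log (1 - x j)|
        ≤ 2 * ξ ^ (Q + 1) := by
    intro j hj
    have hxj := hxξ j hj
    have h1 : |x j| < 1 := by
      rw [abs_of_nonneg (hx0 j)]
      linarith
    refine (Real.abs_log_sub_add_sum_range_le h1 Q).trans ?_
    rw [abs_of_nonneg (hx0 j), div_le_iff₀ (by linarith)]
    have h2 : (x j) ^ (Q + 1) ≤ ξ ^ (Q + 1) := pow_le_pow_left₀ (hx0 j) hxj _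
    have h3 : 0 ≤ ξ ^ (Q + 1) := (pow_nonneg (hx0 j) _).trans h2
    nlinarith
  calc 1 / 2 * |∑ j ∈ Finset.range m,
        ((∑ i ∈ Finset.range Q, (x j) ^ (i + 1) / (i + 1)) + Real.log (1 - x j))|
      ≤ 1 / 2 * ∑ j ∈ Finset.range m,
        |(∑ i ∈ Finset.range Q, (x j) ^ (i + 1) / (i + 1)) + Real.log (1 - x j)| := by
        gcongr
        exact Finset.abs_sum_le_sum_abs _ _
    _ ≤ 1 / 2 * ∑ _j ∈ Finset.range m, 2 * ξ ^ (Q + 1) := by
        gcongr with j hj
        exact hterm j hj
    _ = m * ξ ^ (Q + 1) := by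
        rw [Finset.sum_const, Finset.card_range, nsmul_eq_mul]
        ring

theorem choose_size (m n : ℕ) (hm : 1 ≤ m) (hmn : m ≤ n) :
    (m : ℝ) * Real.log ((n : ℝ) / m) ≤ Real.log (n.choose m) ∧
    Real.log (n.choose m) ≤ (m : ℝ) * (Real.log ((n : ℝ) / m) + 1) := by
  have hm' : (1 : ℝ) ≤ m := by exact_mod_cast hm
  have hmn' : (m : ℝ) ≤ n := by exact_mod_cast hmn
  have hm0 : (0 : ℝ) < m := by linarith
  have hn0 : (0 : ℝ) < n := by linarith
  have hc : (0 : ℝ) < (n.choose m : ℝ) := by exact_mod_cast Nat.choose_pos hmn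
  have hf : (0 : ℝ) < (m.factorial : ℝ) := by exact_mod_cast m.factorial_pos
  have hprod := ee_log_prod m n hmn
  have hmf : Real.log (m.factorial) = ∑ j ∈ Finset.range m, Real.log ((m : ℝ) - j) := by
    have := ee_log_prod m m le_rfl
    simpa using this
  constructor
  · have h1 : Real.log (n.choose m)
        = ∑ j ∈ Finset.range m, (Real.log ((n : ℝ) - j) - Real.log ((m : ℝ) - j)) := by
      rw [Finset.sum_sub_distrib, ← hprod, ← hmf]
      ring
    rw [h1]
    calc (m : ℝ) * Real.log ((n : ℝ) / m) = ∑ _j ∈ Finset.range m, Real.log ((n : ℝ) / m) := by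
          rw [Finset.sum_const, Finset.card_range, nsmul_eq_mul]
      _ ≤ _ := by
          refine Finset.sum_le_sum (fun j hj => ?_)
          rw [Finset.mem_range] at hj
          have hj' : (j : ℝ) < m := by exact_mod_cast hj
          have hj0 : (0 : ℝ) ≤ j := Nat.cast_nonneg j
          have hp1 : 0 < (m : ℝ) - j := by linarith
          have hp2 : 0 < (n : ℝ) - j := by linarith
          rw [← Real.log_div hp2.ne' hp1.ne']
          apply Real.log_le_log (by positivity)
          rw [div_le_div_iff₀ hm0 hp1]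
          nlinarith
  · have h2 : Real.log (n.choose m) = ∑ j ∈ Finset.range m, Real.log ((n : ℝ) - j)
        - Real.log (m.factorial) := by linarith
    have h3 : ∑ j ∈ Finset.range m, Real.log ((n : ℝ) - j) ≤ m * Real.log n := by
      calc ∑ j ∈ Finset.range m, Real.log ((n : ℝ) - j)
          ≤ ∑ _j ∈ Finset.range m, Real.log n := by
            refine Finset.sum_le_sum (fun j hj => ?_)
            rw [Finset.mem_range] at hj
            have hj' : (j : ℝ) < m := by exact_mod_cast hj
            have hj0 : (0 : ℝ) ≤ j := Nat.cast_nonneg j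
            apply Real.log_le_log (by linarith) (by linarith)
        _ = m * Real.log n := by
            rw [Finset.sum_const, Finset.card_range, nsmul_eq_mul]
    have h4 : (m : ℝ) * Real.log m - m ≤ Real.log (m.factorial) := by
      have h5 := Real.pow_div_factorial_le_exp (m : ℝ) hm0.le m
      have h6 : Real.log ((m : ℝ) ^ m / (m.factorial : ℝ)) ≤ m := by
        rw [Real.log_le_iff_le_exp (by positivity)]
        exact h5
      rw [Real.log_div (by positivity) hf.ne', Real.log_pow] at h6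
      linarith
    rw [Real.log_div hn0.ne' hm0.ne', h2]
    linarith

end Pool.Agent.SG
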