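import Mathlib

/-! A holomorphic logarithm of the factorial function. -/

open Finset Metric Set

namespace Pool.Agent.SG

/-- The Stirling increments. -/
noncomputable def lg_mu (z : ℂ) : ℂ := (z + 1 / 2) * (Complex.log (z + 1) - Complex.log z) - 1

theorem lg_norm_le (z : ℂ) (hz : 0 < z.re) (t : ℝ) (ht : 0 ≤ t) : ‖z‖ ≤ ‖z + t‖ := by
  rw [Complex.norm_def, Complex.norm_def]
  apply Real.sqrt_le_sqrt
  rw [Complex.normSq_apply, Complex.normSq_apply]
  simp only [Complex.add_re, Complex.ofReal_re, Complex.add_im, Complex.ofReal_im, add_zero]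
  nlinarith

theorem lg_mu_bound (z : ℂ) (hz : 0 < z.re) : ‖lg_mu z‖ ≤ 1 / (8 * ‖z‖ ^ 2) := by
  have hz0 : 0 < ‖z‖ := by
    rw [norm_pos_iff]
    rintro rfl
    simp at hz
  set f : ℝ → ℂ := fun t => (z + 1 / 2) * Complex.log (z + t) - t -
    (t * (1 - t)) / (2 * (z + t)) with hf
  set f' : ℝ → ℂ := fun t => t * (1 - t) / (2 * (z + t) ^ 2) with hf'
  have hne : ∀ t : ℝ, 0 ≤ t → z + t ≠ 0 := by
    intro t ht h
    have := congrArg Complex.re h
    simp at this
    linarith
  have hsl : ∀ t : ℝ, 0 ≤ t → z + t ∈ Complex.slitPlane := by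
    intro t ht
    left
    simp
    linarith
  have hderiv : ∀ t ∈ Icc (0 : ℝ) 1, HasDerivWithinAt f (f' t) (Icc 0 1) t := by
    intro t ht
    apply HasDerivAt.hasDerivWithinAt
    have h1 : HasDerivAt (fun t : ℝ => z + (t : ℂ)) 1 t := by
      have := (Complex.ofRealCLM.hasDerivAt (x := t)).const_add z
      simpa using this
    have h0 : HasDerivAt (fun t : ℝ => (t : ℂ)) 1 t := by
      simpa using (hasDerivAt_id t).ofReal_comp
    have h2 := (h1.clog_real (hsl t ht.1)).const_mul (z + 1 / 2)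
    have h3 : HasDerivAt (fun t : ℝ => ((t : ℂ) * (1 - t))) (1 * (1 - t) + t * (0 - 1)) t :=
      h0.mul ((hasDerivAt_const t (1 : ℂ)).sub h0)
    have h4 : HasDerivAt (fun t : ℝ => 2 * (z + (t : ℂ))) (2 * 1) t := h1.const_mul 2
    have h5 := h3.div h4 (mul_ne_zero two_ne_zero (hne t ht.1))
    have h6 := (h2.sub h0).sub h5
    refine HasDerivAt.congr_deriv (f := f) h6 ?_
    have := hne t ht.1
    simp only [hf']
    field_simp
    ring
  have hbound : ∀ t ∈ Ico (0 : ℝ) 1, ‖f' t‖ ≤ 1 / (8 * ‖z‖ ^ 2) := by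
    intro t ht
    rw [hf']
    simp only
    rw [norm_div, norm_mul, norm_mul, norm_pow]
    have h1 : ‖(t : ℂ)‖ * ‖(1 - t : ℂ)‖ = t * (1 - t) := by
      rw [show (1 - (t : ℂ)) = ((1 - t : ℝ) : ℂ) by push_cast; ring, Complex.norm_real,
        Complex.norm_real, Real.norm_of_nonneg ht.1, Real.norm_of_nonneg (by linarith [ht.2])]
    have h2 : ‖(2 : ℂ)‖ = 2 := by simp
    rw [h1, h2]
    have h3 := lg_norm_le z hz t ht.1
    have h4 : t * (1 - t) ≤ 1 / 4 := by nlinarith [sq_nonneg (t - 1 / 2)]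
    have h5 : ‖z‖ ^ 2 ≤ ‖z + t‖ ^ 2 := pow_le_pow_left₀ hz0.le h3 2
    have h6 : 0 < ‖z‖ ^ 2 := by positivity
    calc t * (1 - t) / (2 * ‖z + t‖ ^ 2) ≤ (1 / 4) / (2 * ‖z‖ ^ 2) := by
          refine div_le_div₀ (by norm_num) h4 (by positivity) (by linarith)
      _ = 1 / (8 * ‖z‖ ^ 2) := by field_simp; norm_num
  have h := norm_image_sub_le_of_norm_deriv_le_segment_01' hderiv hbound
  have he : f 1 - f 0 = lg_mu z := by
    rw [hf, lg_mu]
    simp only [Complex.ofReal_one, Complex.ofReal_zero, add_zero, sub_self, mul_zero, zero_div,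
      sub_zero, zero_mul]
    ring
  rwa [he] at h

theorem lg_re_add (z : ℂ) (hz : 1 < z.re) (k : ℕ) : 1 < (z + k).re := by
  simp only [Complex.add_re, Complex.natCast_re]
  have : (0 : ℝ) ≤ k := Nat.cast_nonneg k
  linarith

theorem lg_mu_term (z : ℂ) (hz : 1 < z.re) (k : ℕ) :
    ‖lg_mu (z + k)‖ ≤ 1 / 8 * (1 / ((k + 1 : ℕ) : ℝ) ^ 2) := by
  have h1 := lg_re_add z hz k
  refine (lg_mu_bound (z + k) (by linarith)).trans ?_
  have h2 : ((k + 1 : ℕ) : ℝ) ≤ ‖z + k‖ := by
    refine le_trans ?_ (Complex.re_le_norm _)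
    simp only [Complex.add_re, Complex.natCast_re]
    push_cast
    linarith
  have h3 : (0 : ℝ) < ((k + 1 : ℕ) : ℝ) := by positivity
  have h4 : ((k + 1 : ℕ) : ℝ) ^ 2 ≤ ‖z + k‖ ^ 2 := pow_le_pow_left₀ h3.le h2 2
  calc 1 / (8 * ‖z + k‖ ^ 2) ≤ 1 / (8 * ((k + 1 : ℕ) : ℝ) ^ 2) := by
        refine one_div_le_one_div_of_le (by positivity) (by linarith)
    _ = 1 / 8 * (1 / ((k + 1 : ℕ) : ℝ) ^ 2) := by rw [one_div_mul_one_div]

theorem lg_hasSum : HasSum (fun k : ℕ => 1 / 8 * (1 / ((k + 1 : ℕ) : ℝ) ^ 2))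
    (1 / 8 * (Real.pi ^ 2 / 6)) := by
  apply HasSum.mul_left
  have h := (hasSum_nat_add_iff' (f := fun n : ℕ => 1 / (n : ℝ) ^ 2) 1).mpr hasSum_zeta_two
  simpa using h

theorem lg_sum_le : 1 / 8 * (Real.pi ^ 2 / 6) ≤ 1 / 4 := by
  have h1 := Real.pi_lt_d2
  have h2 := Real.pi_pos
  nlinarith

theorem lg_summable (z : ℂ) (hz : 1 < z.re) : Summable fun k : ℕ => lg_mu (z + k) :=
  Summable.of_norm_bounded lg_hasSum.summable (lg_mu_term z hz)

theorem lg_tsum_le (z : ℂ) (hz : 1 < z.re) : ‖∑' k : ℕ, lg_mu (z + k)‖ ≤ 1 / 4 :=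
  (tsum_of_norm_bounded lg_hasSum (lg_mu_term z hz)).trans lg_sum_le

/-- The function, up to the additive constant. -/
noncomputable def lg_g0 (z : ℂ) : ℂ :=
  (z + 1 / 2) * Complex.log z - z + ∑' k : ℕ, lg_mu (z + k)

theorem lg_g0_succ (z : ℂ) (hz : 1 < z.re) : lg_g0 (z + 1) = lg_g0 z + Complex.log (z + 1) := by
  unfold lg_g0
  rw [(lg_summable z hz).tsum_eq_zero_add]
  have h : ∀ k : ℕ, lg_mu (z + 1 + k) = lg_mu (z + ((k + 1 : ℕ) : ℂ)) := by
    intro k; congr 1; push_cast; ring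
  simp_rw [h]
  rw [Nat.cast_zero, add_zero]
  conv_rhs => rw [show lg_mu z = (z + 1 / 2) * (Complex.log (z + 1) - Complex.log z) - 1 from rfl]
  ring

theorem lg_g0_diff : DifferentiableOn ℂ lg_g0 {z | 1 < z.re} := by
  have hopen : IsOpen {z : ℂ | 1 < z.re} := isOpen_lt continuous_const Complex.continuous_re
  have hlog : ∀ w : ℂ, 0 < w.re → DifferentiableAt ℂ Complex.log w := fun w hw =>
    Complex.differentiableAt_log (Or.inl hw)
  have h1 : DifferentiableOn ℂ (fun z => ∑' k : ℕ, lg_mu (z + k)) {z | 1 < z.re} := by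
    refine Complex.differentiableOn_tsum_of_summable_norm lg_hasSum.summable ?_ hopen
      (fun k w hw => lg_mu_term w hw k)
    intro k w hw
    have hw' : 1 < (w + k).re := lg_re_add w hw k
    apply DifferentiableAt.differentiableWithinAt
    have hmu : DifferentiableAt ℂ lg_mu (w + k) := by
      unfold lg_mu
      have e1 : DifferentiableAt ℂ (fun z : ℂ => Complex.log (z + 1)) (w + k) := by
        refine DifferentiableAt.clog ((differentiableAt_id).add_const 1) (Or.inl ?_)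
        simp only [id, Complex.add_re, Complex.one_re] at *
        linarith
      exact (((differentiableAt_id.add_const _).mul (e1.sub (hlog _ (by linarith)))).sub_const 1)
    exact hmu.comp w (differentiableAt_id.add_const _)
  have h2 : DifferentiableOn ℂ (fun z : ℂ => (z + 1 / 2) * Complex.log z - z) {z | 1 < z.re} := by
    intro w hw
    have hw' : 1 < w.re := hw
    apply DifferentiableAt.differentiableWithinAt
    exact ((differentiableAt_id.add_const _).mul (hlog _ (by linarith))).sub differentiableAt_id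
  exact h2.add h1

theorem exists_logGamma : ∃ g : ℂ → ℂ, DifferentiableOn ℂ g {z | 1 < z.re} ∧
    (∀ m : ℕ, 2 ≤ m → g m = (Real.log (m.factorial : ℝ) : ℂ)) ∧
    (∀ z : ℂ, 1 < z.re → ‖g z - (z * Complex.log z - z)‖ ≤ Real.log ‖z‖ + 3) := by
  set c : ℂ := (Real.log 2 : ℂ) - lg_g0 2 with hc
  refine ⟨fun z => lg_g0 z + c, lg_g0_diff.add_const _, ?_, ?_⟩
  · intro m hm
    induction m, hm using Nat.le_induction with
    | base =>
      simp only [hc, Nat.factorial_two, Nat.cast_ofNat]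
      ring
    | succ m hm ih =>
      have hre : 1 < ((m : ℕ) : ℂ).re := by
        rw [Complex.natCast_re]
        exact_mod_cast hm
      have h1 := lg_g0_succ m hre
      simp only at ih ⊢
      have h2 : lg_g0 ((m + 1 : ℕ) : ℂ) = lg_g0 m + Complex.log (m + 1) := by
        rw [← h1]; push_cast; rfl
      have h3 : Real.log (((m + 1) * m.factorial : ℕ) : ℝ) =
          Real.log ((m + 1 : ℕ) : ℝ) + Real.log (m.factorial : ℝ) := by
        rw [Nat.cast_mul, Real.log_mul (by positivity) (by positivity)]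
      have h4 : Complex.log ((m : ℂ) + 1) = (Real.log ((m + 1 : ℕ) : ℝ) : ℂ) := by
        rw [Complex.natCast_log]; push_cast; rfl
      rw [h2, Nat.factorial_succ, h3, Complex.ofReal_add, ← ih, h4]
      ring
  · intro z hz
    simp only
    have hz1 : 1 < ‖z‖ := lt_of_lt_of_le hz (Complex.re_le_norm z)
    have hlog0 : 0 ≤ Real.log ‖z‖ := Real.log_nonneg hz1.le
    have hlog : ‖Complex.log z‖ ≤ Real.log ‖z‖ + Real.pi / 2 := by
      refine (Complex.norm_le_abs_re_add_abs_im _).trans ?_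
      rw [Complex.log_re, Complex.log_im, abs_of_nonneg hlog0]
      have : |z.arg| ≤ Real.pi / 2 := Complex.abs_arg_le_pi_div_two_iff.mpr (by linarith)
      linarith
    have hc1 : ‖c‖ ≤ 3 / 2 := by
      have h2 : (1 : ℝ) < (2 : ℂ).re := by norm_num
      have h3 := lg_tsum_le 2 h2
      have h4 : c = ((2 - 3 / 2 * Real.log 2 : ℝ) : ℂ) - ∑' k : ℕ, lg_mu (2 + k) := by
        rw [hc, lg_g0]
        have : Complex.log 2 = (Real.log 2 : ℂ) := by
          rw [Complex.ofReal_log (by norm_num)]; norm_num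
        rw [this]
        push_cast
        ring
      rw [h4]
      refine (norm_sub_le _ _).trans ?_
      rw [Complex.norm_real, Real.norm_eq_abs]
      have h5 := Real.log_two_gt_d9
      have h6 := Real.log_two_lt_d9
      have h7 : |2 - 3 / 2 * Real.log 2| ≤ 5 / 4 := by rw [abs_le]; constructor <;> linarith
      linarith
    have h1 := lg_tsum_le z hz
    have h2 : lg_g0 z + c - (z * Complex.log z - z) =
        1 / 2 * Complex.log z + c + ∑' k : ℕ, lg_mu (z + k) := by
      rw [lg_g0]; ring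
    rw [h2]
    refine (norm_add₃_le).trans ?_
    rw [norm_mul]
    have h3 : ‖(1 / 2 : ℂ)‖ = 1 / 2 := by
      rw [norm_div, norm_one, Complex.norm_ofNat]
    rw [h3]
    have h4 := Real.pi_lt_d2
    linarith

end Pool.Agent.SG
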