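import Pool.Agent.SG.Hfun
import Pool.Agent.SG.LogGamma
import Pool.Agent.SG.FixDisc
import Pool.Agent.SG.Expansion

/-! SG17: the analytic interpolation in the interior range. -/

open Finset Metric Set

namespace Pool.Agent.SG


/-! ### cones -/

theorem if_mul (z w : ℂ) (a b c : ℝ) (ha : 0 < a) (hb : 0 < b) (hz : |z.im| ≤ a * z.re)
    (hw : |w.im| ≤ b * w.re) (hc : a + b ≤ c * (1 - a * b)) (hc0 : 0 ≤ c) :
    |(z * w).im| ≤ c * (z * w).re := by
  have hz0 : 0 ≤ z.re := by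
    have := (abs_nonneg z.im).trans hz
    exact nonneg_of_mul_nonneg_right this ha
  have hw0 : 0 ≤ w.re := by
    have := (abs_nonneg w.im).trans hw
    exact nonneg_of_mul_nonneg_right this hb
  rw [Complex.mul_im, Complex.mul_re]
  have h1 : |z.re * w.im + z.im * w.re| ≤ z.re * |w.im| + |z.im| * w.re := by
    refine (abs_add_le _ _).trans ?_
    rw [abs_mul, abs_mul, abs_of_nonneg hz0, abs_of_nonneg hw0]
  have h2 : z.im * w.im ≤ |z.im| * |w.im| := by
    rw [← abs_mul]; exact le_abs_self _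
  have h3 : |z.im| * |w.im| ≤ (a * z.re) * (b * w.re) :=
    mul_le_mul hz hw (abs_nonneg _) (by positivity)
  have h4 : z.re * |w.im| ≤ z.re * (b * w.re) := mul_le_mul_of_nonneg_left hw hz0
  have h5 : |z.im| * w.re ≤ (a * z.re) * w.re := mul_le_mul_of_nonneg_right hz hw0
  have h6 : 0 ≤ z.re * w.re := mul_nonneg hz0 hw0
  have h7 : (a + b) * (z.re * w.re) ≤ c * (1 - a * b) * (z.re * w.re) :=
    mul_le_mul_of_nonneg_right hc h6
  have h8 : c * (z.im * w.im) ≤ c * ((a * z.re) * (b * w.re)) :=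
    mul_le_mul_of_nonneg_left (h2.trans h3) hc0
  nlinarith

theorem if_inv (z : ℂ) (a : ℝ) (hz : |z.im| ≤ a * z.re) : |(z⁻¹).im| ≤ a * (z⁻¹).re := by
  rw [Complex.inv_re, Complex.inv_im, neg_div, abs_neg, abs_div, abs_of_nonneg (Complex.normSq_nonneg z),
    ← mul_div_assoc]
  exact div_le_div_of_nonneg_right hz (Complex.normSq_nonneg z)

theorem if_re (z : ℂ) (hz : |z.im| ≤ 7 / 10 * z.re) : 4 / 5 * ‖z‖ ≤ z.re := by
  have h0 : 0 ≤ z.re := by
    have := (abs_nonneg z.im).trans hz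
    linarith
  have h1 : z.im ^ 2 ≤ (7 / 10 * z.re) ^ 2 := by
    rw [← sq_abs]; exact pow_le_pow_left₀ (abs_nonneg _) hz 2
  have h2 : ‖z‖ ^ 2 = z.re * z.re + z.im * z.im := by
    rw [← Complex.normSq_eq_norm_sq, Complex.normSq_apply]
  refine le_of_sq_le_sq ?_ h0
  nlinarith

/-- Geometry of the points `x`, `t x`, `(t-1) x`. -/
theorem if_geom (B L : ℝ) (hB : 1 ≤ B) (hL : 0 < L) (τ : ℂ) (hτ : τ ∈ Om B) (x : ℂ)
    (hx : ‖x - L / hfun τ‖ ≤ 1 / 10 * (L / ‖hfun τ‖)) :
    (4 / 5 * ‖x‖ ≤ x.re ∧ 7 / 10 * (L / (B + 2)) ≤ ‖x‖ ∧ 5 / 4 * ‖x‖ ≤ 3 * Real.exp B * L) ∧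
    (4 / 5 * ‖Complex.exp τ * x‖ ≤ (Complex.exp τ * x).re ∧
      7 / 10 * (L / (B + 2)) ≤ ‖Complex.exp τ * x‖ ∧
      5 / 4 * ‖Complex.exp τ * x‖ ≤ 3 * Real.exp B * L) ∧
    (4 / 5 * ‖(Complex.exp τ - 1) * x‖ ≤ ((Complex.exp τ - 1) * x).re ∧
      7 / 10 * (L / (B + 2)) ≤ ‖(Complex.exp τ - 1) * x‖ ∧
      5 / 4 * ‖(Complex.exp τ - 1) * x‖ ≤ 3 * Real.exp B * L) := by
  obtain ⟨b1, b2, b3, b4, b5, b6⟩ := hfun_bounds B τ hτ
  set h := hfun τ with hh
  set t := Complex.exp τ with ht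
  have hn1 : 1 ≤ ‖h‖ := b1.trans (Complex.re_le_norm h)
  have hne : h ≠ 0 := by
    intro h0; rw [h0, norm_zero] at hn1; linarith
  have hnpos : 0 < ‖h‖ := by linarith
  -- x = L * (1 + δ) * h⁻¹
  obtain ⟨δ, hδ, hxδ⟩ : ∃ δ : ℂ, ‖δ‖ ≤ 1 / 10 ∧ x = (1 + δ) * h⁻¹ * L := by
    have hLc : (L : ℂ) ≠ 0 := by exact_mod_cast hL.ne'
    refine ⟨x * h / L - 1, ?_, by field_simp; ring⟩
    have e : x * h / L - 1 = (x - L / h) * (h / L) := by field_simp
    rw [e, norm_mul, norm_div, Complex.norm_real, Real.norm_of_nonneg hL.le]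
    calc ‖x - L / h‖ * (‖h‖ / L) ≤ (1 / 10 * (L / ‖h‖)) * (‖h‖ / L) :=
          mul_le_mul_of_nonneg_right hx (by positivity)
      _ = 1 / 10 := by field_simp
  have hδre := abs_le.1 ((Complex.abs_re_le_norm δ).trans hδ)
  have hδim := (Complex.abs_im_le_norm δ).trans hδ
  have k1 : |(1 + δ).im| ≤ 1 / 9 * (1 + δ).re := by
    simp only [Complex.add_im, Complex.one_im, zero_add, Complex.add_re, Complex.one_re]
    linarith [hδre.1]
  have k2 : |h.im| ≤ 1 / 4 * h.re := by linarith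
  have k3 : |(h⁻¹).im| ≤ 1 / 4 * (h⁻¹).re := if_inv h _ k2
  have k4 : |((1 + δ) * h⁻¹).im| ≤ 13 / 35 * ((1 + δ) * h⁻¹).re :=
    if_mul _ _ (1 / 9) (1 / 4) (13 / 35) (by norm_num) (by norm_num) k1 k3 (by norm_num)
      (by norm_num)
  have k5 : |x.im| ≤ 13 / 35 * x.re := by
    have e1 : x.im = ((1 + δ) * h⁻¹).im * L := by rw [hxδ, Complex.im_mul_ofReal]
    have e2 : x.re = ((1 + δ) * h⁻¹).re * L := by rw [hxδ, Complex.re_mul_ofReal]
    rw [e1, e2, abs_mul, abs_of_pos hL, ← mul_assoc]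
    exact mul_le_mul_of_nonneg_right k4 hL.le
  have k6 : |(t * x).im| ≤ 7 / 10 * (t * x).re :=
    if_mul _ _ (1 / 8) (13 / 35) (7 / 10) (by norm_num) (by norm_num) b6 k5 (by norm_num)
      (by norm_num)
  have k7 : |((t - 1) * x).im| ≤ 7 / 10 * ((t - 1) * x).re :=
    if_mul _ _ (1 / 4) (13 / 35) (7 / 10) (by norm_num) (by norm_num) b5 k5 (by norm_num)
      (by norm_num)
  have hx0 : 0 ≤ x.re := by
    have := (abs_nonneg x.im).trans k5
    linarith
  have k8 : |x.im| ≤ 7 / 10 * x.re := by linarith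
  -- norms
  have hnx : ‖x‖ = ‖1 + δ‖ * (L / ‖h‖) := by
    rw [hxδ, norm_mul, norm_mul, norm_inv, Complex.norm_real, Real.norm_of_nonneg hL.le]
    ring
  have hd1 : 9 / 10 ≤ ‖1 + δ‖ := by
    have := norm_sub_norm_le (1 : ℂ) (-δ)
    rw [norm_neg, norm_one, sub_neg_eq_add] at this
    linarith
  have hd2 : ‖1 + δ‖ ≤ 11 / 10 := by
    have := norm_add_le (1 : ℂ) δ
    rw [norm_one] at this
    linarith
  have hLh1 : L / (B + 2) ≤ L / ‖h‖ := div_le_div_of_nonneg_left hL.le hnpos b3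
  have hLh2 : L / ‖h‖ ≤ L := div_le_self hL.le hn1
  have hLB : 0 < L / (B + 2) := by positivity
  have hxl : 9 / 10 * (L / (B + 2)) ≤ ‖x‖ := by
    rw [hnx]
    exact mul_le_mul hd1 hLh1 hLB.le (by linarith)
  have hxu : ‖x‖ ≤ 11 / 10 * L := by
    rw [hnx]
    exact mul_le_mul hd2 hLh2 (by positivity) (by norm_num)
  have hexpB : 1 ≤ Real.exp B := Real.one_le_exp (by linarith)
  have htn : ‖t‖ ≤ Real.exp B := by
    rw [ht, Complex.norm_exp]
    exact Real.exp_le_exp.2 hτ.2.1.le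
  have htl : 1 ≤ ‖t‖ := by
    have h1 : (t - 1).re ≤ ‖t‖ - 1 := by
      rw [Complex.sub_re, Complex.one_re]
      linarith [Complex.re_le_norm t]
    linarith
  have ht1l : 4 / 5 ≤ ‖t - 1‖ := b4.trans (Complex.re_le_norm _)
  have ht1u : ‖t - 1‖ ≤ 2 * Real.exp B := by
    have := norm_sub_le t 1
    rw [norm_one] at this
    linarith
  have hxn := norm_nonneg x
  refine ⟨⟨if_re x k8, by linarith, ?_⟩, ⟨if_re _ k6, ?_, ?_⟩, ⟨if_re _ k7, ?_, ?_⟩⟩
  · nlinarith
  · rw [norm_mul]; nlinarith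
  · rw [norm_mul]
    have : ‖t‖ * ‖x‖ ≤ Real.exp B * (11 / 10 * L) := mul_le_mul htn hxu hxn (by positivity)
    nlinarith [mul_pos (Real.exp_pos B) hL]
  · rw [norm_mul]
    have : 4 / 5 * (9 / 10 * (L / (B + 2))) ≤ ‖t - 1‖ * ‖x‖ :=
      mul_le_mul ht1l hxl (by positivity) (norm_nonneg _)
    linarith
  · rw [norm_mul]
    have : ‖t - 1‖ * ‖x‖ ≤ 2 * Real.exp B * (11 / 10 * L) :=
      mul_le_mul ht1u hxu hxn (by positivity)
    nlinarith [mul_pos (Real.exp_pos B) hL]

/-- Cauchy estimate for the error term. -/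
theorem if_deriv (e : ℂ → ℂ) (hd : DifferentiableOn ℂ e {z | 1 < z.re})
    (hb : ∀ z : ℂ, 1 < z.re → ‖e z‖ ≤ Real.log ‖z‖ + 3) (P : ℝ) (z : ℂ)
    (h1 : 4 / 5 * ‖z‖ ≤ z.re) (h2 : 8 ≤ ‖z‖) (h3 : 5 / 4 * ‖z‖ ≤ P) :
    ‖deriv e z‖ ≤ 4 * (Real.log P + 3) / ‖z‖ := by
  have hsub : ∀ w ∈ Metric.closedBall z (‖z‖ / 4), 1 < w.re := by
    intro w hw
    rw [Metric.mem_closedBall, dist_eq_norm] at hw
    have := (Complex.abs_re_le_norm (w - z)).trans hw
    rw [Complex.sub_re] at this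
    have := (abs_le.1 this).1
    linarith
  have hopen : IsOpen {z : ℂ | 1 < z.re} := isOpen_lt continuous_const Complex.continuous_re
  have hdc : DiffContOnCl ℂ e (Metric.ball z (‖z‖ / 4)) := by
    apply DifferentiableOn.diffContOnCl
    rw [closure_ball z (by positivity)]
    exact hd.mono fun w hw => hsub w hw
  have hbound : ∀ w ∈ Metric.sphere z (‖z‖ / 4), ‖e w‖ ≤ Real.log P + 3 := by
    intro w hw
    have hw' : w ∈ Metric.closedBall z (‖z‖ / 4) := Metric.sphere_subset_closedBall hw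
    have hre := hsub w hw'
    refine (hb w hre).trans ?_
    have hw0 : 0 < ‖w‖ := lt_of_lt_of_le (by linarith) (Complex.re_le_norm w)
    rw [Metric.mem_closedBall, dist_eq_norm] at hw'
    have : ‖w‖ ≤ P := by
      have := norm_le_norm_add_norm_sub' w z
      linarith
    linarith [Real.log_le_log hw0 this]
  have := Complex.norm_deriv_le_of_forall_mem_sphere_norm_le (by positivity) hdc hbound
  rw [div_div_eq_mul_div] at this
  calc _ ≤ _ := this
    _ = _ := by ring

theorem if_open (B : ℝ) : IsOpen (Om B) := by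
  have h1 : IsOpen {τ : ℂ | 3 / 5 < τ.re} := isOpen_lt continuous_const Complex.continuous_re
  have h2 : IsOpen {τ : ℂ | τ.re < B} := isOpen_lt Complex.continuous_re continuous_const
  have h3 : IsOpen {τ : ℂ | |τ.im| < 1 / 10} :=
    isOpen_lt (Complex.continuous_im.abs) continuous_const
  exact h1.inter (h2.inter h3)

theorem if_hfun_diff (B : ℝ) : DifferentiableOn ℂ hfun (Om B) := by
  intro τ hτ
  obtain ⟨b1, b2, b3, b4, b5, b6⟩ := hfun_bounds B τ hτ
  apply DifferentiableAt.differentiableWithinAt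
  have hsl : Complex.exp τ - 1 ∈ Complex.slitPlane := Or.inl (by linarith)
  have h1 : DifferentiableAt ℂ (fun τ => Complex.exp τ - 1) τ := by fun_prop
  have h2 : DifferentiableAt ℂ (fun τ => Complex.log (Complex.exp τ - 1)) τ := h1.clog hsl
  exact (Complex.differentiableAt_exp.mul differentiableAt_id).sub (h1.mul h2)

theorem if_ev (B κ : ℝ) (hκ : 0 < κ) :
    ∀ᶠ L : ℝ in Filter.atTop, Real.log (3 * Real.exp B * L) + 3 ≤ κ * L := by
  have h1 := Real.isLittleO_log_id_atTop.def (half_pos hκ)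
  have h2 : ∀ᶠ L : ℝ in Filter.atTop, Real.log (3 * Real.exp B) + 3 ≤ κ / 2 * L :=
    (Filter.tendsto_id.const_mul_atTop (half_pos hκ)).eventually_ge_atTop _
  filter_upwards [h1, h2, Filter.eventually_gt_atTop 0] with L h1 h2 h3
  rw [Real.log_mul (by positivity) h3.ne']
  simp only [id] at h1
  rw [Real.norm_eq_abs, Real.norm_eq_abs, abs_of_pos h3] at h1
  have := (le_abs_self _).trans h1
  linarith

theorem int_function (B ε : ℝ) (hB : 1 ≤ B) (hε : 0 < ε) : ∃ L₀ : ℝ, ∀ L ≥ L₀,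
    ∃ x : ℂ → ℂ, DifferentiableOn ℂ x (Om B) ∧
      (∀ τ ∈ Om B, ‖x τ * hfun τ / L - 1‖ ≤ ε) ∧
      (∀ n m : ℕ, 1 ≤ m → 2 * m ≤ n → Real.log (n.choose m) = L →
        Real.log ((n : ℝ) / m) < B → x (Real.log ((n : ℝ) / m)) = m) := by
  obtain ⟨g, hgd, hgm, hgb⟩ := exists_logGamma
  set e : ℂ → ℂ := fun z => g z - (z * Complex.log z - z) with he
  have hopen : IsOpen {z : ℂ | 1 < z.re} := isOpen_lt continuous_const Complex.continuous_re
  have hed : DifferentiableOn ℂ e {z | 1 < z.re} := by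
    refine hgd.sub ?_
    intro z hz
    have hz' : 1 < z.re := hz
    have hsl : z ∈ Complex.slitPlane := Or.inl (by linarith)
    have h1 : DifferentiableAt ℂ (fun z => Complex.log z) z := differentiableAt_id.clog hsl
    exact ((differentiableAt_id.mul h1).sub differentiableAt_id).differentiableWithinAt
  set μ := min ε (1 / 10) with hμ
  have hμ0 : 0 < μ := lt_min hε (by norm_num)
  have hμε : μ ≤ ε := min_le_left _ _
  have hμ1 : μ ≤ 1 / 10 := min_le_right _ _
  set κ := min (μ / 3) (1 / (40 * (B + 2))) with hκ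
  have hκ0 : 0 < κ := lt_min (by positivity) (by positivity)
  have hκ1 : κ ≤ μ / 3 := min_le_left _ _
  have hκ2 : κ ≤ 1 / (40 * (B + 2)) := min_le_right _ _
  obtain ⟨L₁, hL₁⟩ := Filter.eventually_atTop.1 (if_ev B κ hκ0)
  refine ⟨max L₁ (12 * (B + 2)), fun L hL => ?_⟩
  have hLK := hL₁ L ((le_max_left _ _).trans hL)
  have hL12 : 12 * (B + 2) ≤ L := (le_max_right _ _).trans hL
  have hL0 : 0 < L := by linarith
  set P := 3 * Real.exp B * L with hP
  have hP0 : 0 < P := by positivity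
  set K := Real.log P + 3 with hK
  have hexpB : 1 ≤ Real.exp B := Real.one_le_exp (by linarith)
  have hPL : 3 * L ≤ P := by
    rw [hP]; nlinarith
  have hK0 : 0 ≤ K := by
    have : 0 ≤ Real.log P := Real.log_nonneg (by linarith)
    linarith
  have h3K : 3 * K ≤ μ * L := by
    have : κ * L ≤ μ / 3 * L := mul_le_mul_of_nonneg_right hκ1 hL0.le
    linarith
  have h8 : 8 ≤ 7 / 10 * (L / (B + 2)) := by
    have : 12 ≤ L / (B + 2) := by
      rw [le_div_iff₀ (by linarith)]; linarith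
    linarith
  -- values of `e`
  have heb : ∀ z : ℂ, 1 < z.re → ‖z‖ ≤ P → ‖e z‖ ≤ K := by
    intro z hz hzP
    have h0 : 0 < ‖z‖ := lt_of_lt_of_le (by linarith) (Complex.re_le_norm z)
    have := hgb z hz
    have := Real.log_le_log h0 hzP
    simp only [he, hK]
    linarith
  set Φ : ℂ → ℂ → ℂ := fun τ x =>
    (L - (e (Complex.exp τ * x) - e x - e ((Complex.exp τ - 1) * x))) / hfun τ with hΦ
  set c : ℂ → ℂ := fun τ => L / hfun τ with hc
  set R : ℂ → ℝ := fun τ => μ * (L / ‖hfun τ‖) with hR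
  have hh1 : ∀ τ ∈ Om B, 1 ≤ ‖hfun τ‖ := fun τ hτ =>
    (hfun_bounds B τ hτ).1.trans (Complex.re_le_norm _)
  have hhne : ∀ τ ∈ Om B, hfun τ ≠ 0 := fun τ hτ h0 => by
    have := hh1 τ hτ
    rw [h0, norm_zero] at this
    linarith
  have hgeo : ∀ τ ∈ Om B, ∀ x ∈ Metric.closedBall (c τ) (R τ), _ := fun τ hτ x hx =>
    if_geom B L hB hL0 τ hτ x (by
      rw [Metric.mem_closedBall, dist_eq_norm] at hx
      refine hx.trans ?_
      have : 0 < ‖hfun τ‖ := by linarith [hh1 τ hτ]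
      exact mul_le_mul_of_nonneg_right hμ1 (by positivity))
  have hpt : ∀ z : ℂ, 4 / 5 * ‖z‖ ≤ z.re → 7 / 10 * (L / (B + 2)) ≤ ‖z‖ →
      5 / 4 * ‖z‖ ≤ P → 1 < z.re ∧ ‖z‖ ≤ P ∧ 8 ≤ ‖z‖ := by
    intro z h1 h2 h3
    refine ⟨by linarith, by linarith [norm_nonneg z], by linarith⟩
  have hEb : ∀ τ ∈ Om B, ∀ x ∈ Metric.closedBall (c τ) (R τ),
      ‖e (Complex.exp τ * x) - e x - e ((Complex.exp τ - 1) * x)‖ ≤ 3 * K := by
    intro τ hτ x hx
    obtain ⟨⟨a1, a2, a3⟩, ⟨b1, b2, b3⟩, ⟨c1, c2, c3⟩⟩ := hgeo τ hτ x hx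
    have p1 := hpt _ a1 a2 a3
    have p2 := hpt _ b1 b2 b3
    have p3 := hpt _ c1 c2 c3
    have q1 := heb _ p1.1 p1.2.1
    have q2 := heb _ p2.1 p2.2.1
    have q3 := heb _ p3.1 p3.2.1
    refine (norm_sub_le _ _).trans ?_
    have := norm_sub_le (e (Complex.exp τ * x)) (e x)
    linarith
  have hdist : ∀ τ ∈ Om B, ∀ E : ℂ, ‖E‖ ≤ 3 * K → ‖(L - E) / hfun τ - c τ‖ ≤ R τ := by
    intro τ hτ E hE
    have hn : 0 < ‖hfun τ‖ := by linarith [hh1 τ hτ]
    have : (L - E) / hfun τ - c τ = -(E / hfun τ) := by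
      simp only [hc]; ring
    rw [this, norm_neg, norm_div]
    simp only [hR]
    rw [← mul_div_assoc]
    exact div_le_div_of_nonneg_right (hE.trans h3K) hn.le
  obtain ⟨f, hfd, hf⟩ := fixedpoint_family (Om B) (if_open B) c
    (by
      intro τ hτ
      exact ((differentiableWithinAt_const _).div (if_hfun_diff B τ hτ) (hhne τ hτ)))
    R (by
      intro τ hτ
      have : 0 < ‖hfun τ‖ := by linarith [hh1 τ hτ]
      simp only [hR]; positivity)
    ⟨μ * L, fun τ hτ => by
      simp only [hR]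
      exact mul_le_mul_of_nonneg_left (div_le_self hL0.le (hh1 τ hτ)) hμ0.le⟩
    Φ
    (by
      intro τ hτ x hx
      rw [Metric.mem_closedBall, dist_eq_norm]
      exact hdist τ hτ _ (hEb τ hτ x hx))
    (by
      intro τ hτ x hx y hy
      set t := Complex.exp τ with ht
      have hn := hh1 τ hτ
      have hn0 : 0 < ‖hfun τ‖ := by linarith
      have hder : ∀ z ∈ Metric.closedBall (c τ) (R τ),
          HasDerivWithinAt (fun x => e (t * x) - e x - e ((t - 1) * x))
            (deriv e (t * z) * t - deriv e z - deriv e ((t - 1) * z) * (t - 1))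
            (Metric.closedBall (c τ) (R τ)) z := by
        intro z hz
        obtain ⟨⟨a1, a2, a3⟩, ⟨b1, b2, b3⟩, ⟨c1, c2, c3⟩⟩ := hgeo τ hτ z hz
        have p1 := (hpt _ a1 a2 a3).1
        have p2 := (hpt _ b1 b2 b3).1
        have p3 := (hpt _ c1 c2 c3).1
        have d1 := (hed.differentiableAt (hopen.mem_nhds p1)).hasDerivAt
        have d2 := (hed.differentiableAt (hopen.mem_nhds p2)).hasDerivAt
        have d3 := (hed.differentiableAt (hopen.mem_nhds p3)).hasDerivAt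
        have l2 : HasDerivAt (fun x => t * x) t z := by
          simpa using (hasDerivAt_id z).const_mul t
        have l3 : HasDerivAt (fun x => (t - 1) * x) (t - 1) z := by
          simpa using (hasDerivAt_id z).const_mul (t - 1)
        exact (((d2.comp z l2).sub d1).sub (d3.comp z l3)).hasDerivWithinAt
      have hbd : ∀ z ∈ Metric.closedBall (c τ) (R τ),
          ‖deriv e (t * z) * t - deriv e z - deriv e ((t - 1) * z) * (t - 1)‖ ≤ 1 / 2 := by
        intro z hz
        obtain ⟨⟨a1, a2, a3⟩, ⟨b1, b2, b3⟩, ⟨c1, c2, c3⟩⟩ := hgeo τ hτ z hz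
        have p1 := (hpt _ a1 a2 a3).2.2
        have p2 := (hpt _ b1 b2 b3).2.2
        have p3 := (hpt _ c1 c2 c3).2.2
        have d1 := if_deriv e hed hgb P z a1 p1 a3
        have d2 := if_deriv e hed hgb P _ b1 p2 b3
        have d3 := if_deriv e hed hgb P _ c1 p3 c3
        have hz0 : 0 < ‖z‖ := by linarith
        have e2 : ‖deriv e (t * z) * t‖ ≤ 4 * K / ‖z‖ := by
          rw [norm_mul] at d2 p2
          have ht0 : 0 < ‖t‖ := by
            rcases (norm_nonneg t).eq_or_lt with h | h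
            · rw [← h, zero_mul] at p2; linarith
            · exact h
          rw [norm_mul]
          calc _ ≤ 4 * (Real.log P + 3) / (‖t‖ * ‖z‖) * ‖t‖ :=
                mul_le_mul_of_nonneg_right d2 ht0.le
            _ = 4 * K / ‖z‖ := by rw [hK]; field_simp
        have e3 : ‖deriv e ((t - 1) * z) * (t - 1)‖ ≤ 4 * K / ‖z‖ := by
          rw [norm_mul] at d3 p3
          have ht0 : 0 < ‖t - 1‖ := by
            rcases (norm_nonneg (t - 1)).eq_or_lt with h | h
            · rw [← h, zero_mul] at p3; linarith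
            · exact h
          rw [norm_mul]
          calc _ ≤ 4 * (Real.log P + 3) / (‖t - 1‖ * ‖z‖) * ‖t - 1‖ :=
                mul_le_mul_of_nonneg_right d3 ht0.le
            _ = 4 * K / ‖z‖ := by rw [hK]; field_simp
        have e1 : ‖deriv e z‖ ≤ 4 * K / ‖z‖ := d1
        have e4 : ‖deriv e (t * z) * t - deriv e z - deriv e ((t - 1) * z) * (t - 1)‖ ≤
            3 * (4 * K / ‖z‖) := by
          refine (norm_sub_le _ _).trans ?_
          have := norm_sub_le (deriv e (t * z) * t) (deriv e z)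
          linarith
        refine e4.trans ?_
        have hKL : K ≤ 1 / (40 * (B + 2)) * L :=
          hLK.trans (mul_le_mul_of_nonneg_right hκ2 hL0.le)
        have hB2 : 0 < B + 2 := by linarith
        have hKL2 : 40 * K ≤ L / (B + 2) := by
          have e5 : 1 / (40 * (B + 2)) * L = L / (B + 2) / 40 := by field_simp
          rw [e5] at hKL
          linarith
        have e6 : 4 * K / ‖z‖ ≤ 1 / 6 := by
          rw [div_le_iff₀ hz0]
          linarith
        linarith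
      have hmv := Convex.norm_image_sub_le_of_norm_hasDerivWithin_le hder hbd
        (convex_closedBall _ _) hx hy
      have e7 : Φ τ x - Φ τ y = ((e (t * y) - e y - e ((t - 1) * y)) -
          (e (t * x) - e x - e ((t - 1) * x))) / hfun τ := by
        simp only [hΦ]; ring
      rw [e7, norm_div, norm_sub_rev x y]
      exact (div_le_self (norm_nonneg _) hn).trans hmv)
    (by
      intro f hfd hfm
      have hE : DifferentiableOn ℂ (fun τ => Complex.exp τ) (Om B) :=
        Complex.differentiable_exp.differentiableOn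
      have m1 : MapsTo f (Om B) {z | 1 < z.re} := fun τ hτ => by
        obtain ⟨⟨a1, a2, a3⟩, ⟨b1, b2, b3⟩, ⟨c1, c2, c3⟩⟩ := hgeo τ hτ _ (hfm τ hτ)
        exact (hpt _ a1 a2 a3).1
      have m2 : MapsTo (fun τ => Complex.exp τ * f τ) (Om B) {z | 1 < z.re} := fun τ hτ => by
        obtain ⟨⟨a1, a2, a3⟩, ⟨b1, b2, b3⟩, ⟨c1, c2, c3⟩⟩ := hgeo τ hτ _ (hfm τ hτ)
        exact (hpt _ b1 b2 b3).1
      have m3 : MapsTo (fun τ => (Complex.exp τ - 1) * f τ) (Om B) {z | 1 < z.re} :=
        fun τ hτ => by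
          obtain ⟨⟨a1, a2, a3⟩, ⟨b1, b2, b3⟩, ⟨c1, c2, c3⟩⟩ := hgeo τ hτ _ (hfm τ hτ)
          exact (hpt _ c1 c2 c3).1
      have D1 : DifferentiableOn ℂ (fun τ => e (f τ)) (Om B) := hed.comp hfd m1
      have D2 : DifferentiableOn ℂ (fun τ => e (Complex.exp τ * f τ)) (Om B) :=
        hed.comp (hE.mul hfd) m2
      have D3 : DifferentiableOn ℂ (fun τ => e ((Complex.exp τ - 1) * f τ)) (Om B) :=
        hed.comp ((hE.sub (differentiableOn_const _)).mul hfd) m3
      exact ((differentiableOn_const _).sub ((D2.sub D1).sub D3)).div (if_hfun_diff B) hhne)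
  refine ⟨f, hfd, ?_, ?_⟩
  · intro τ hτ
    have h1 := (hf τ hτ).1
    rw [Metric.mem_closedBall, dist_eq_norm] at h1
    have hn : 0 < ‖hfun τ‖ := by linarith [hh1 τ hτ]
    have hne := hhne τ hτ
    have hLc : (L : ℂ) ≠ 0 := by exact_mod_cast hL0.ne'
    have e1 : f τ * hfun τ / L - 1 = (f τ - c τ) * (hfun τ / L) := by
      simp only [hc]; field_simp
    rw [e1, norm_mul, norm_div, Complex.norm_real, Real.norm_of_nonneg hL0.le]
    calc ‖f τ - c τ‖ * (‖hfun τ‖ / L) ≤ (μ * (L / ‖hfun τ‖)) * (‖hfun τ‖ / L) :=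
          mul_le_mul_of_nonneg_right h1 (by positivity)
      _ = μ := by field_simp
      _ ≤ ε := hμε
  · intro n m hm hmn hlog hlB
    have hmn' : m ≤ n := by omega
    obtain ⟨s1, s2⟩ := choose_size m n hm hmn'
    rw [hlog] at s1 s2
    have hm0 : (0 : ℝ) < m := by exact_mod_cast hm
    have hn0 : (0 : ℝ) < n := by exact_mod_cast (by omega : 0 < n)
    have hmn2 : 2 * (m : ℝ) ≤ n := by exact_mod_cast hmn
    set l := Real.log ((n : ℝ) / m) with hl
    have hl2 : Real.log 2 ≤ l := Real.log_le_log (by norm_num) (by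
      rw [le_div_iff₀ hm0]; exact hmn2)
    have hlog2 := Real.log_two_gt_d9
    have hτ : (l : ℂ) ∈ Om B := by
      refine ⟨?_, ?_, ?_⟩
      · rw [Complex.ofReal_re]; linarith
      · rw [Complex.ofReal_re]; exact hlB
      · rw [Complex.ofReal_im]; norm_num
    -- sizes
    have hm12 : 12 ≤ (m : ℝ) := by
      by_contra hcon
      push Not at hcon
      have : (m : ℝ) * (l + 1) ≤ 12 * (B + 1) := by
        apply mul_le_mul hcon.le (by linarith) (by linarith) (by norm_num)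
      linarith
    have hmL : (m : ℝ) ≤ 2 * L := by nlinarith
    have hexpl : Real.exp l = (n : ℝ) / m := Real.exp_log (by positivity)
    have hnB : (n : ℝ) ≤ Real.exp B * m := by
      have : (n : ℝ) / m ≤ Real.exp B := by
        rw [← hexpl]; exact Real.exp_le_exp.2 hlB.le
      rwa [div_le_iff₀ hm0] at this
    have hnP : (n : ℝ) ≤ P := by
      rw [hP]
      nlinarith [Real.exp_pos B, mul_pos (Real.exp_pos B) hL0,
        mul_le_mul_of_nonneg_left hmL (Real.exp_pos B).le]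
    -- the equation
    have hnm : 0 < (n : ℝ) - m := by linarith
    have hexpc : Complex.exp (l : ℂ) = (((n : ℝ) / m : ℝ) : ℂ) := by
      rw [← Complex.ofReal_exp, hexpl]
    have hmc : (m : ℂ) ≠ 0 := by exact_mod_cast hm0.ne'
    have ex1 : Complex.exp (l : ℂ) * (m : ℂ) = (n : ℂ) := by
      rw [hexpc]; push_cast; field_simp
    have ex2 : (Complex.exp (l : ℂ) - 1) * (m : ℂ) = ((n - m : ℕ) : ℂ) := by
      rw [sub_mul, ex1, one_mul, Nat.cast_sub hmn']
    have hnat : ∀ k : ℕ, 2 ≤ k → e k = ((Real.log k.factorial - (k * Real.log k - k) : ℝ) : ℂ) := by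
      intro k hk
      simp only [he]
      rw [hgm k hk]
      push_cast
      rfl
    have hm2 : 2 ≤ m := by
      have : (2 : ℝ) ≤ m := by linarith
      exact_mod_cast this
    have hE1 : e (Complex.exp (l : ℂ) * (m : ℂ)) - e (m : ℂ) -
        e ((Complex.exp (l : ℂ) - 1) * (m : ℂ)) =
        ((L - (n * Real.log n - m * Real.log m - (n - m) * Real.log (n - m)) : ℝ) : ℂ) := by
      rw [ex1, ex2, hnat n (by omega), hnat m hm2, hnat (n - m) (by omega)]
      rw [← Complex.ofReal_sub, ← Complex.ofReal_sub]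
      congr 1
      have hf1 : Real.log (n.factorial : ℝ) =
          L + Real.log (m.factorial : ℝ) + Real.log ((n - m).factorial : ℝ) := by
        rw [← hlog, ← Nat.choose_mul_factorial_mul_factorial hmn']
        push_cast
        have c1 : (n.choose m : ℝ) ≠ 0 := by exact_mod_cast (Nat.choose_pos hmn').ne'
        have c2 : (m.factorial : ℝ) ≠ 0 := by exact_mod_cast (Nat.factorial_pos _).ne'
        have c3 : ((n - m).factorial : ℝ) ≠ 0 := by exact_mod_cast (Nat.factorial_pos _).ne'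
        rw [Real.log_mul (mul_ne_zero c1 c2) c3, Real.log_mul c1 c2]
      rw [hf1, Nat.cast_sub hmn']
      ring
    have hE2 : ‖e (Complex.exp (l : ℂ) * (m : ℂ)) - e (m : ℂ) -
        e ((Complex.exp (l : ℂ) - 1) * (m : ℂ))‖ ≤ 3 * K := by
      have q : ∀ k : ℕ, 2 ≤ k → k ≤ n → ‖e (k : ℂ)‖ ≤ K := by
        intro k hk hkn
        apply heb
        · rw [Complex.natCast_re]
          exact_mod_cast (by omega : 1 < k)
        · rw [Complex.norm_natCast]
          exact le_trans (by exact_mod_cast hkn) hnP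
      rw [ex1, ex2]
      have q1 := q n (by omega) le_rfl
      have q2 := q m hm2 hmn'
      have q3 := q (n - m) (by omega) (by omega)
      refine (norm_sub_le _ _).trans ?_
      have := norm_sub_le (e (n : ℂ)) (e (m : ℂ))
      linarith
    have hh : hfun (l : ℂ) = (((n * Real.log n - m * Real.log m - (n - m) * Real.log (n - m)) / m
        : ℝ) : ℂ) := by
      have hw : Complex.exp (l : ℂ) - 1 = ((((n : ℝ) - m) / m : ℝ) : ℂ) := by
        rw [hexpc, sub_div, div_self hm0.ne']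
        push_cast
        ring
      rw [hfun, hw, hexpc, ← Complex.ofReal_log (by positivity)]
      rw [← Complex.ofReal_mul, ← Complex.ofReal_mul, ← Complex.ofReal_sub]
      congr 1
      rw [hl, Real.log_div hn0.ne' hm0.ne', Real.log_div hnm.ne' hm0.ne']
      field_simp
      ring
    have hfix : Φ (l : ℂ) (m : ℂ) = m := by
      simp only [hΦ]
      rw [hE1, div_eq_iff (hhne _ hτ), hh]
      push_cast
      field_simp
      ring
    have hball : (m : ℂ) ∈ Metric.closedBall (c (l : ℂ)) (R (l : ℂ)) := by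
      rw [Metric.mem_closedBall, dist_eq_norm]
      have := hdist (l : ℂ) hτ _ hE2
      have e9 : (L - (e (Complex.exp (l : ℂ) * (m : ℂ)) - e (m : ℂ) -
        e ((Complex.exp (l : ℂ) - 1) * (m : ℂ)))) / hfun (l : ℂ) = (m : ℂ) := hfix
      rw [e9] at this
      exact this
    exact ((hf _ hτ).2.2 _ hball hfix).symm

end Pool.Agent.SG
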