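import Mathlib

/-! Interpolation determinants of analytic functions. -/

open Finset Metric Set

namespace Pool.Agent.SG

/-- Maximum principle for the divided difference. -/
theorem db_dslope (f : ℂ → ℂ) (c : ℂ) (σ ρ M : ℝ) (hσ : 0 < σ) (hρ : σ < ρ)
    (hf : DifferentiableOn ℂ f (Metric.closedBall 0 ρ))
    (hM : ∀ w ∈ Metric.closedBall (0 : ℂ) ρ, ‖f w‖ ≤ M) (hc : ‖c‖ ≤ σ) :
    DifferentiableOn ℂ (dslope f c) (Metric.closedBall 0 ρ) ∧
      ∀ w ∈ Metric.closedBall (0 : ℂ) ρ, ‖dslope f c w‖ ≤ 2 * M / (ρ - σ) := by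
  have hρ0 : 0 < ρ := hσ.trans hρ
  have hmem : Metric.closedBall (0 : ℂ) ρ ∈ nhds c := by
    refine Filter.mem_of_superset (Metric.isOpen_ball.mem_nhds ?_) Metric.ball_subset_closedBall
    rw [Metric.mem_ball, dist_zero_right]
    exact lt_of_le_of_lt hc hρ
  have hd : DifferentiableOn ℂ (dslope f c) (Metric.closedBall 0 ρ) :=
    (Complex.differentiableOn_dslope hmem).mpr hf
  refine ⟨hd, fun w hw => ?_⟩
  have hcl : closure (Metric.ball (0 : ℂ) ρ) = Metric.closedBall 0 ρ := closure_ball _ hρ0.ne'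
  have hdc : DiffContOnCl ℂ (dslope f c) (Metric.ball 0 ρ) := by
    apply DifferentiableOn.diffContOnCl
    rw [hcl]; exact hd
  refine Complex.norm_le_of_forall_mem_frontier_norm_le Metric.isBounded_ball hdc ?_
    (by rw [hcl]; exact hw)
  intro z hz
  rw [frontier_ball _ hρ0.ne', mem_sphere_zero_iff_norm] at hz
  have hzc : ρ - σ ≤ ‖z - c‖ := by
    have := norm_sub_norm_le z c
    linarith
  have hpos : 0 < ρ - σ := by linarith
  have hne : z ≠ c := by
    intro h
    rw [h, sub_self, norm_zero] at hzc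
    linarith
  rw [dslope_of_ne _ hne, slope_def_module, norm_smul, norm_inv]
  have h1 : ‖f z - f c‖ ≤ 2 * M := by
    have h2 := hM z (by rw [mem_closedBall_zero_iff]; exact hz.le)
    have h3 := hM c (by rw [mem_closedBall_zero_iff]; linarith)
    have := norm_sub_le (f z) (f c)
    linarith
  rw [div_eq_inv_mul]
  refine mul_le_mul ?_ h1 (norm_nonneg _) (by positivity)
  exact inv_anti₀ hpos hzc

theorem det_bound {N : ℕ} (φ : Fin N → ℂ → ℂ) (ζ : Fin N → ℂ) (σ ρ : ℝ) (hσ : 0 < σ)
    (hρ : σ < ρ) (M : Fin N → ℝ)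
    (hφ : ∀ j, DifferentiableOn ℂ (φ j) (Metric.closedBall 0 ρ))
    (hM : ∀ j, ∀ w ∈ Metric.closedBall (0 : ℂ) ρ, ‖φ j w‖ ≤ M j)
    (hζ : ∀ i, ‖ζ i‖ ≤ σ) :
    ‖(Matrix.of fun i j => φ j (ζ i)).det‖
      ≤ N.factorial * (4 * σ / (ρ - σ)) ^ (N * (N - 1) / 2) * ∏ j, M j := by
  induction N with
  | zero => simp
  | succ N ih =>
    have hpos : 0 < ρ - σ := by linarith
    have hM0 : ∀ j, 0 ≤ M j := fun j =>
      (norm_nonneg _).trans (hM j 0 (by rw [mem_closedBall_zero_iff, norm_zero]; linarith))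
    set B : Matrix (Fin (N + 1)) (Fin (N + 1)) ℂ :=
      Matrix.of fun i j => if i = 0 then φ j (ζ 0) else φ j (ζ i) - φ j (ζ 0) with hB
    have hdet : (Matrix.of fun i j => φ j (ζ i)).det = B.det := by
      refine Matrix.det_eq_of_forall_row_eq_smul_add_const (fun i => if i = 0 then 0 else 1) 0
        (by simp) ?_
      intro i j
      rw [hB]
      by_cases hi : i = 0
      · simp [hi]
      · simp [hi]
    rw [hdet, Matrix.det_succ_row_zero]
    have hsub : ∀ j : Fin (N + 1), (B.submatrix Fin.succ j.succAbove).det =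
        (∏ i : Fin N, (ζ i.succ - ζ 0)) *
          (Matrix.of fun (i : Fin N) (k : Fin N) =>
            dslope (φ (j.succAbove k)) (ζ 0) (ζ i.succ)).det := by
      intro j
      rw [← Matrix.det_mul_column]
      congr 1
      ext i k
      rw [hB, Matrix.submatrix_apply, Matrix.of_apply, Matrix.of_apply, Matrix.of_apply,
        if_neg (Fin.succ_ne_zero i)]
      by_cases h : ζ i.succ = ζ 0
      · rw [h, sub_self, sub_self, zero_mul]
      · rw [dslope_of_ne _ h, slope_def_module, smul_eq_mul, ← mul_assoc,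
          mul_inv_cancel₀ (sub_ne_zero.mpr h), one_mul]
    have hbound : ∀ j : Fin (N + 1), ‖(-1) ^ (j : ℕ) * B 0 j *
        (B.submatrix Fin.succ j.succAbove).det‖ ≤
        N.factorial * (4 * σ / (ρ - σ)) ^ (N + N * (N - 1) / 2) * ∏ j, M j := by
      intro j
      rw [hsub j, norm_mul, norm_mul, norm_mul, norm_pow, norm_neg, norm_one, one_pow, one_mul]
      have h1 : ‖B 0 j‖ ≤ M j := by
        rw [hB, Matrix.of_apply, if_pos rfl]
        exact hM j _ (by rw [mem_closedBall_zero_iff]; linarith [hζ 0])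
      have h2 : ‖∏ i : Fin N, (ζ i.succ - ζ 0)‖ ≤ (2 * σ) ^ N := by
        rw [norm_prod]
        calc ∏ i : Fin N, ‖ζ i.succ - ζ 0‖ ≤ ∏ _i : Fin N, (2 * σ) := by
              refine Finset.prod_le_prod (fun _ _ => norm_nonneg _) fun i _ => ?_
              have := norm_sub_le (ζ i.succ) (ζ 0)
              linarith [hζ i.succ, hζ 0]
          _ = (2 * σ) ^ N := by rw [Finset.prod_const, Finset.card_univ, Fintype.card_fin]
      have h3 := ih (fun k => dslope (φ (j.succAbove k)) (ζ 0)) (fun i => ζ i.succ)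
        (fun k => 2 * M (j.succAbove k) / (ρ - σ))
        (fun k => (db_dslope _ _ σ ρ _ hσ hρ (hφ _) (hM _) (hζ 0)).1)
        (fun k => (db_dslope _ _ σ ρ _ hσ hρ (hφ _) (hM _) (hζ 0)).2)
        (fun i => hζ i.succ)
      have h4 : ∏ k : Fin N, (2 * M (j.succAbove k) / (ρ - σ)) =
          (2 / (ρ - σ)) ^ N * ∏ k : Fin N, M (j.succAbove k) := by
        have : ∀ k : Fin N, 2 * M (j.succAbove k) / (ρ - σ) =
            2 / (ρ - σ) * M (j.succAbove k) := fun k => by ring
        simp_rw [this]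
        rw [Finset.prod_mul_distrib, Finset.prod_const, Finset.card_univ, Fintype.card_fin]
      rw [h4] at h3
      have h5 : 0 ≤ ∏ k : Fin N, M (j.succAbove k) := Finset.prod_nonneg fun k _ => hM0 _
      have hq : 0 ≤ 4 * σ / (ρ - σ) := by positivity
      calc ‖B 0 j‖ * (‖∏ i : Fin N, (ζ i.succ - ζ 0)‖ *
            ‖(Matrix.of fun (i : Fin N) (k : Fin N) =>
              dslope (φ (j.succAbove k)) (ζ 0) (ζ i.succ)).det‖)
          ≤ M j * ((2 * σ) ^ N * (N.factorial * (4 * σ / (ρ - σ)) ^ (N * (N - 1) / 2) *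
              ((2 / (ρ - σ)) ^ N * ∏ k : Fin N, M (j.succAbove k)))) := by
            refine mul_le_mul h1 (mul_le_mul h2 h3 (norm_nonneg _) (by positivity))
              (by positivity) (hM0 j)
        _ = N.factorial * ((2 * σ) ^ N * (2 / (ρ - σ)) ^ N *
              (4 * σ / (ρ - σ)) ^ (N * (N - 1) / 2)) * (M j * ∏ k : Fin N, M (j.succAbove k)) := by
            ring
        _ = N.factorial * (4 * σ / (ρ - σ)) ^ (N + N * (N - 1) / 2) * ∏ j, M j := by
            rw [← Fin.prod_univ_succAbove M j, ← mul_pow, pow_add]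
            congr 3
            ring
    refine (norm_sum_le _ _).trans ((Finset.sum_le_sum fun j _ => hbound j).trans ?_)
    rw [Finset.sum_const, Finset.card_univ, Fintype.card_fin, nsmul_eq_mul,
      Nat.factorial_succ]
    have hexp : (N + 1) * (N + 1 - 1) / 2 = N + N * (N - 1) / 2 := by
      rw [Nat.add_sub_cancel]
      rcases N with _ | N
      · rfl
      · rw [Nat.add_sub_cancel, show (N + 1 + 1) * (N + 1) = (N + 1) * N + (N + 1) * 2 by ring,
          Nat.add_mul_div_right _ _ (by norm_num)]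
        ring
    rw [hexp]
    push_cast
    apply le_of_eq
    ring

end Pool.Agent.SG
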