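import Mathlib

open Finset Metric Set

namespace Pool.Agent.SG

theorem do_inf (x₀ : ℂ) (D : ℝ) (hD : 0 < D) : {z : ℂ | ‖z - x₀‖ ≤ D}.Infinite := by
  have h : Set.InjOn (fun t : ℝ => x₀ + (t : ℂ)) (Set.Icc 0 D) := by
    intro s _ t _ hst
    have h1 : (s : ℂ) = (t : ℂ) := add_left_cancel hst
    exact_mod_cast h1
  refine ((Set.Icc_infinite hD).image h).mono ?_
  rintro _ ⟨t, ht, rfl⟩
  show ‖x₀ + (t : ℂ) - x₀‖ ≤ D
  rw [add_sub_cancel_left, Complex.norm_real, Real.norm_eq_abs, abs_of_nonneg ht.1]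
  exact ht.2

theorem do_exists_sup (x₀ : ℂ) (D : ℝ) (hD : 0 < D) (P : Polynomial ℂ) :
    ∃ a : ℝ, 0 ≤ a ∧ (∀ z : ℂ, ‖z - x₀‖ ≤ D → ‖P.eval z‖ ≤ a) ∧
      (∃ z : ℂ, ‖z - x₀‖ ≤ D ∧ ‖P.eval z‖ = a) ∧ (a = 0 → P = 0) := by
  have hc : IsCompact (Metric.closedBall x₀ D) := isCompact_closedBall x₀ D
  have hne : (Metric.closedBall x₀ D).Nonempty := ⟨x₀, Metric.mem_closedBall_self hD.le⟩
  obtain ⟨z, hz, hmax⟩ := hc.exists_isMaxOn hne (f := fun z => ‖P.eval z‖)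
    (P.continuous.norm.continuousOn)
  have hmax' : ∀ w : ℂ, ‖w - x₀‖ ≤ D → ‖P.eval w‖ ≤ ‖P.eval z‖ := by
    intro w hw
    exact hmax (by rw [Metric.mem_closedBall, dist_eq_norm]; exact hw)
  refine ⟨‖P.eval z‖, norm_nonneg _, hmax', ⟨z, by
    rw [Metric.mem_closedBall, dist_eq_norm] at hz; exact hz, rfl⟩, ?_⟩
  intro h0
  apply Polynomial.eq_zero_of_infinite_isRoot
  refine (do_inf x₀ D hD).mono ?_
  intro w hw
  have h1 := hmax' w hw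
  rw [h0] at h1
  exact norm_le_zero_iff.1 h1

theorem do_lower (x y z : ℂ) : ‖x‖ - ‖y‖ - ‖z‖ ≤ ‖x + y + z‖ := by
  have h1 : ‖x‖ ≤ ‖x + y + z‖ + ‖y‖ + ‖z‖ := by
    calc ‖x‖ = ‖(x + y + z) - y - z‖ := by congr 1; ring
      _ ≤ ‖(x + y + z) - y‖ + ‖z‖ := norm_sub_le _ _
      _ ≤ ‖x + y + z‖ + ‖y‖ + ‖z‖ := by linarith [norm_sub_le (x + y + z) y]
  linarith

theorem do_upper (x y z : ℂ) : ‖x + y + z‖ ≤ ‖x‖ + ‖y‖ + ‖z‖ := norm_add₃_le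

/-- the three cases -/
theorem do_cases (a0 a1 a2 u α1 α2 β0 β1 : ℝ) (h1 : 0 ≤ a1) (h2 : 0 ≤ a2)
    (hu : 0 < u) (hu1 : u ≤ 1) (hβ0 : 0 < β0) (hα1 : 0 < α1) (hα2 : 0 < α2) (hα1β1 : α1 ≤ β1)
    (h01 : 16 * β0 ≤ u ^ 2 * α1) (h12 : 16 * β1 ≤ u ^ 2 * α2) :
    (4 * a1 ≤ u * a2 * α2 ∧ 4 * a0 ≤ u * a2 * α2 ^ 2) ∨
    (4 * a1 * β0 ≤ u * a0 ∧ 4 * a2 * β0 ^ 2 ≤ u * a0) ∨
    (4 * a0 ≤ u * a1 * α1 ∧ 4 * a2 * β1 ≤ u * a1) := by
  have hβ1 : 0 < β1 := lt_of_lt_of_le hα1 hα1β1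
  have hu2 : u ^ 2 ≤ 1 := by nlinarith
  have hkey : 4 * β0 ≤ u * α2 := by
    have e1 : 16 * β0 ≤ β1 := by nlinarith
    have e2 : 16 * β1 ≤ u * α2 := by
      have : u ^ 2 * α2 ≤ u * α2 := by nlinarith
      linarith
    linarith
  by_cases hA : 4 * a1 ≤ u * a2 * α2 ∧ 4 * a0 ≤ u * a2 * α2 ^ 2
  · exact Or.inl hA
  by_cases hB : 4 * a1 * β0 ≤ u * a0 ∧ 4 * a2 * β0 ^ 2 ≤ u * a0
  · exact Or.inr (Or.inl hB)
  right; right
  have hA' : u * a2 * α2 < 4 * a1 ∨ u * a2 * α2 ^ 2 < 4 * a0 := by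
    by_contra hno
    push Not at hno
    exact hA hno
  have hB' : u * a0 < 4 * a1 * β0 ∨ u * a0 < 4 * a2 * β0 ^ 2 := by
    by_contra hno
    push Not at hno
    exact hB hno
  -- consequences
  have hP : u * a2 * α2 < 4 * a1 → 4 * a2 * β1 ≤ u * a1 := by
    intro hP
    have e1 : 16 * β1 * (u * a2) ≤ u ^ 2 * α2 * (u * a2) :=
      mul_le_mul_of_nonneg_right h12 (mul_nonneg hu.le h2)
    have e2 : u ^ 2 * (u * a2 * α2) ≤ u ^ 2 * (4 * a1) :=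
      mul_le_mul_of_nonneg_left hP.le (by positivity)
    have e3 : u * (4 * (4 * a2 * β1)) ≤ u * (4 * (u * a1)) := by nlinarith
    have e4 := le_of_mul_le_mul_left e3 hu
    linarith
  have hQ : u * a0 < 4 * a1 * β0 → 4 * a0 ≤ u * a1 * α1 := by
    intro hQ
    have e1 : a1 * (16 * β0) ≤ a1 * (u ^ 2 * α1) := mul_le_mul_of_nonneg_left h01 h1
    have e3 : u * (4 * a0) ≤ u * (u * a1 * α1) := by nlinarith
    exact le_of_mul_le_mul_left e3 hu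
  have huα : 0 < u * α2 := mul_pos hu hα2
  rcases hA' with hPc | hPc <;> rcases hB' with hQc | hQc
  · exact ⟨hQ hQc, hP hPc⟩
  · refine ⟨?_, hP hPc⟩
    -- 4 a0 ≤ 16 a2 β0^2 / u, a2 ≤ 4 a1 / (u α2)
    have e1 : u * (4 * a0) ≤ 16 * a2 * β0 ^ 2 := by nlinarith
    have e2 : 16 * a2 * β0 ^ 2 ≤ 4 * a2 * β0 * (u * α2) := by
      have := mul_le_mul_of_nonneg_left hkey (show 0 ≤ 4 * a2 * β0 by positivity)
      nlinarith
    have e3 : 4 * a2 * β0 * (u * α2) ≤ 4 * β0 * (4 * a1) := by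
      have := mul_le_mul_of_nonneg_left hPc.le (show 0 ≤ 4 * β0 by positivity)
      nlinarith
    have e4 : 4 * β0 * (4 * a1) ≤ u * (u * a1 * α1) := by
      have := mul_le_mul_of_nonneg_left h01 h1
      nlinarith
    have e5 : u * (4 * a0) ≤ u * (u * a1 * α1) := by linarith
    exact le_of_mul_le_mul_left e5 hu
  · refine ⟨hQ hQc, ?_⟩
    -- a2 u α2^2 ≤ 4 a0, u a0 ≤ 4 a1 β0
    have e1 : u * (u * a2 * α2 ^ 2) ≤ 4 * (4 * a1 * β0) := by nlinarith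
    have e2 : 4 * (4 * a1 * β0) ≤ 4 * a1 * (u * α2) := by
      have := mul_le_mul_of_nonneg_left hkey (show 0 ≤ 4 * a1 by positivity)
      nlinarith
    have e3 : (u * α2) * (u * a2 * α2) ≤ (u * α2) * (4 * a1) := by nlinarith
    have e4 := le_of_mul_le_mul_left e3 huα
    have e5 : 16 * β1 * (u * a2) ≤ u ^ 2 * α2 * (u * a2) :=
      mul_le_mul_of_nonneg_right h12 (mul_nonneg hu.le h2)
    have e6 : u ^ 2 * (u * a2 * α2) ≤ u ^ 2 * (4 * a1) :=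
      mul_le_mul_of_nonneg_left e4 (by positivity)
    have e7 : u * (4 * (4 * a2 * β1)) ≤ u * (4 * (u * a1)) := by nlinarith
    have e8 := le_of_mul_le_mul_left e7 hu
    linarith
  · exfalso
    -- u a2 α2^2 < 4 a0, u a0 < 4 a2 β0^2
    have e1 : 16 * β0 ^ 2 ≤ (u * α2) ^ 2 := by nlinarith
    have e2 : u * (u * a0) < u * (4 * a2 * β0 ^ 2) := mul_lt_mul_of_pos_left hQc hu
    have e3 : u * (4 * a2 * β0 ^ 2) * 4 ≤ u * a2 * (u * α2) ^ 2 := by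
      have := mul_le_mul_of_nonneg_left e1 (show 0 ≤ u * a2 by positivity)
      nlinarith
    have e4 : u * a2 * (u * α2) ^ 2 ≤ u ^ 2 * (4 * a0) := by
      have := mul_le_mul_of_nonneg_left hPc.le (show 0 ≤ u ^ 2 by positivity)
      nlinarith
    nlinarith

theorem do_weak {u s t : ℝ} (hu1 : u ≤ 1) (ht : 0 ≤ t) (h : 4 * s ≤ u * t) :
    s ≤ t := by
  have h1 : u * t ≤ 1 * t := mul_le_mul_of_nonneg_right hu1 ht
  rcases le_total s 0 with h2 | h2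
  · exact h2.trans ht
  · linarith

theorem do_up2 {a0 a1 a2 α x F : ℝ} (p2 : 0 ≤ a2) (hα : 0 < α) (hF : 0 < F)
    (hx : 1 ≤ x) (eF : F ≤ x * α) (e1 : a1 ≤ a2 * α) (e0 : a0 ≤ a2 * α ^ 2) :
    a0 + a1 * F + a2 * F ^ 2 ≤ 3 * (a2 * α ^ 2) * x ^ 2 := by
  have hx0 : 0 ≤ x := by linarith
  have hx2 : x ≤ x ^ 2 := by
    have := mul_le_mul_of_nonneg_left hx hx0
    rw [mul_one] at this
    rwa [sq]
  have hx1 : 1 ≤ x ^ 2 := hx.trans hx2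
  have hT : 0 ≤ a2 * α ^ 2 := mul_nonneg p2 (sq_nonneg α)
  have f2 : a2 * F ^ 2 ≤ a2 * α ^ 2 * x ^ 2 := by
    have g1 : F ^ 2 ≤ (x * α) ^ 2 := pow_le_pow_left₀ hF.le eF 2
    have g2 := mul_le_mul_of_nonneg_left g1 p2
    have g3 : a2 * (x * α) ^ 2 = a2 * α ^ 2 * x ^ 2 := by ring
    linarith
  have f1 : a1 * F ≤ a2 * α ^ 2 * x ^ 2 := by
    have g2 : a1 * F ≤ (a2 * α) * (x * α) := mul_le_mul e1 eF hF.le (mul_nonneg p2 hα.le)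
    have g3 : (a2 * α) * (x * α) = a2 * α ^ 2 * x := by ring
    have g4 : a2 * α ^ 2 * x ≤ a2 * α ^ 2 * x ^ 2 := mul_le_mul_of_nonneg_left hx2 hT
    linarith
  have f0 : a0 ≤ a2 * α ^ 2 * x ^ 2 := by
    have g4 : a2 * α ^ 2 * 1 ≤ a2 * α ^ 2 * x ^ 2 := mul_le_mul_of_nonneg_left hx1 hT
    linarith
  linarith

theorem do_up0 {a0 a1 a2 β x F : ℝ} (p0 : 0 ≤ a0) (p1 : 0 ≤ a1) (p2 : 0 ≤ a2)
    (hF : 0 < F) (hx : 1 ≤ x) (eF : F ≤ x * β) (e1 : a1 * β ≤ a0) (e2 : a2 * β ^ 2 ≤ a0) :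
    a0 + a1 * F + a2 * F ^ 2 ≤ 3 * a0 * x ^ 2 := by
  have hx0 : 0 ≤ x := by linarith
  have hx2 : x ≤ x ^ 2 := by
    have := mul_le_mul_of_nonneg_left hx hx0
    rw [mul_one] at this
    rwa [sq]
  have hx1 : 1 ≤ x ^ 2 := hx.trans hx2
  have f0 : a0 ≤ a0 * x ^ 2 := by
    have := mul_le_mul_of_nonneg_left hx1 p0
    linarith
  have f1 : a1 * F ≤ a0 * x ^ 2 := by
    have g1 : a1 * F ≤ a1 * (x * β) := mul_le_mul_of_nonneg_left eF p1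
    have g3 : a1 * (x * β) = (a1 * β) * x := by ring
    have g4 : (a1 * β) * x ≤ a0 * x := mul_le_mul_of_nonneg_right e1 hx0
    have g5 : a0 * x ≤ a0 * x ^ 2 := mul_le_mul_of_nonneg_left hx2 p0
    linarith
  have f2 : a2 * F ^ 2 ≤ a0 * x ^ 2 := by
    have g1 : F ^ 2 ≤ (x * β) ^ 2 := pow_le_pow_left₀ hF.le eF 2
    have g2 : a2 * F ^ 2 ≤ a2 * (x * β) ^ 2 := mul_le_mul_of_nonneg_left g1 p2
    have g3 : a2 * (x * β) ^ 2 = (a2 * β ^ 2) * x ^ 2 := by ring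
    have g5 : (a2 * β ^ 2) * x ^ 2 ≤ a0 * x ^ 2 := mul_le_mul_of_nonneg_right e2 (sq_nonneg x)
    linarith
  linarith

theorem do_up1 {a0 a1 a2 α β x F : ℝ} (p1 : 0 ≤ a1) (p2 : 0 ≤ a2) (hα : 0 < α) (hβ : 0 < β)
    (hF : 0 < F) (hx : 1 ≤ x) (eF : F ≤ x * α) (eF' : F ≤ x * β) (e0 : a0 ≤ a1 * α)
    (e2 : a2 * β ≤ a1) : a0 + a1 * F + a2 * F ^ 2 ≤ 3 * (a1 * α) * x ^ 2 := by
  have hx0 : 0 ≤ x := by linarith
  have hx2 : x ≤ x ^ 2 := by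
    have := mul_le_mul_of_nonneg_left hx hx0
    rw [mul_one] at this
    rwa [sq]
  have hx1 : 1 ≤ x ^ 2 := hx.trans hx2
  have hT : 0 ≤ a1 * α := mul_nonneg p1 hα.le
  have f0 : a0 ≤ a1 * α * x ^ 2 := by
    have := mul_le_mul_of_nonneg_left hx1 hT
    linarith
  have f1 : a1 * F ≤ a1 * α * x ^ 2 := by
    have g1 : a1 * F ≤ a1 * (x * α) := mul_le_mul_of_nonneg_left eF p1
    have g3 : a1 * (x * α) = a1 * α * x := by ring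
    have g4 : a1 * α * x ≤ a1 * α * x ^ 2 := mul_le_mul_of_nonneg_left hx2 hT
    linarith
  have f2 : a2 * F ^ 2 ≤ a1 * α * x ^ 2 := by
    have g1 : F * F ≤ (x * β) * (x * α) := mul_le_mul eF' eF hF.le (mul_nonneg hx0 hβ.le)
    have g2 : a2 * (F * F) ≤ a2 * ((x * β) * (x * α)) := mul_le_mul_of_nonneg_left g1 p2
    have g3 : a2 * ((x * β) * (x * α)) = (a2 * β) * (α * x ^ 2) := by ring
    have g4 : (a2 * β) * (α * x ^ 2) ≤ a1 * (α * x ^ 2) :=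
      mul_le_mul_of_nonneg_right e2 (mul_nonneg hα.le (sq_nonneg x))
    have g5 : a2 * F ^ 2 = a2 * (F * F) := by ring
    have g6 : a1 * (α * x ^ 2) = a1 * α * x ^ 2 := by ring
    linarith
  linarith

/-- the last step -/
theorem do_fin {a0 a1 a2 u x F T S : ℝ} (hu : 0 < u) (hT : 0 < T)
    (e1 : a0 + a1 * F + a2 * F ^ 2 ≤ 3 * T * x ^ 2) (e2 : u / 2 * T ≤ S) :
    0 < S ∧ a0 + a1 * F + a2 * F ^ 2 ≤ 6 / u * x ^ 2 * S := by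
  have hS : 0 < S := lt_of_lt_of_le (by positivity) e2
  refine ⟨hS, e1.trans ?_⟩
  have : 3 * T * x ^ 2 = 6 / u * x ^ 2 * (u / 2 * T) := by field_simp; ring
  rw [this]
  exact mul_le_mul_of_nonneg_left e2 (by positivity)

/-- case (2, 2) -/
theorem do_low2 {a1 a2 u α : ℝ} (X Y W y : ℂ) (hu : 0 < u) (p2 : 0 ≤ a2)
    (hα : 0 < α) (q2 : α ≤ ‖y‖) (hW : u * a2 ≤ ‖W‖) {a0 : ℝ} (hX : ‖X‖ ≤ a0) (hY : ‖Y‖ ≤ a1)
    (g1 : 4 * a1 ≤ u * a2 * α) (g0 : 4 * a0 ≤ u * a2 * α ^ 2) :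
    u / 2 * (a2 * α ^ 2) ≤ ‖X + Y * y + W * y ^ 2‖ := by
  have e1 := do_lower (W * y ^ 2) (Y * y) X
  have e2 : W * y ^ 2 + Y * y + X = X + Y * y + W * y ^ 2 := by ring
  rw [e2, norm_mul, norm_mul, norm_pow] at e1
  set t := ‖y‖ with ht
  have ht0 : 0 < t := lt_of_lt_of_le hα q2
  have hua : 0 ≤ u * a2 := mul_nonneg hu.le p2
  have e3 : u * a2 * t ^ 2 ≤ ‖W‖ * t ^ 2 := mul_le_mul_of_nonneg_right hW (sq_nonneg t)
  have e4 : α ^ 2 ≤ t ^ 2 := pow_le_pow_left₀ hα.le q2 2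
  have e5 : u * a2 * α ^ 2 ≤ u * a2 * t ^ 2 := mul_le_mul_of_nonneg_left e4 hua
  have e6 : ‖Y‖ * t ≤ a1 * t := mul_le_mul_of_nonneg_right hY ht0.le
  have e7 : u * a2 * α ≤ u * a2 * t := mul_le_mul_of_nonneg_left q2 hua
  have e8 : a1 * t ≤ u * a2 * t / 4 * t := mul_le_mul_of_nonneg_right (by linarith) ht0.le
  have e9 : u * a2 * t / 4 * t = u * a2 * t ^ 2 / 4 := by ring
  linarith

/-- case (0, 0) -/
theorem do_low0 {a0 a1 a2 u β : ℝ} (X Y W y : ℂ) (p1 : 0 ≤ a1)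
    (p2 : 0 ≤ a2) (q3 : ‖y‖ ≤ β) (hX : u * a0 ≤ ‖X‖) (hY : ‖Y‖ ≤ a1) (hW : ‖W‖ ≤ a2)
    (g1 : 4 * a1 * β ≤ u * a0) (g2 : 4 * a2 * β ^ 2 ≤ u * a0) :
    u / 2 * a0 ≤ ‖X + Y * y + W * y ^ 2‖ := by
  have e1 := do_lower X (Y * y) (W * y ^ 2)
  rw [norm_mul, norm_mul, norm_pow] at e1
  have hy0 := norm_nonneg y
  have m1 : ‖Y‖ * ‖y‖ ≤ a1 * β := mul_le_mul hY q3 hy0 p1
  have m2 : ‖W‖ * ‖y‖ ^ 2 ≤ a2 * β ^ 2 :=
    mul_le_mul hW (pow_le_pow_left₀ hy0 q3 2) (by positivity) p2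
  linarith

/-- case (1, 1) -/
theorem do_low1 {a0 a1 a2 u α β : ℝ} (X Y W y : ℂ) (hu : 0 < u) (p1 : 0 ≤ a1)
    (p2 : 0 ≤ a2) (hα : 0 < α) (q2 : α ≤ ‖y‖) (q3 : ‖y‖ ≤ β) (hX : ‖X‖ ≤ a0)
    (hY : u * a1 ≤ ‖Y‖) (hW : ‖W‖ ≤ a2) (g0 : 4 * a0 ≤ u * a1 * α) (g2 : 4 * a2 * β ≤ u * a1) :
    u / 2 * (a1 * α) ≤ ‖X + Y * y + W * y ^ 2‖ := by
  have e1 := do_lower (Y * y) X (W * y ^ 2)
  have e2 : Y * y + X + W * y ^ 2 = X + Y * y + W * y ^ 2 := by ring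
  rw [e2, norm_mul, norm_mul, norm_pow] at e1
  set t := ‖y‖ with ht
  have ht0 : 0 < t := lt_of_lt_of_le hα q2
  have hua : 0 ≤ u * a1 := mul_nonneg hu.le p1
  have e3 : u * a1 * t ≤ ‖Y‖ * t := mul_le_mul_of_nonneg_right hY ht0.le
  have e5 : u * a1 * α ≤ u * a1 * t := mul_le_mul_of_nonneg_left q2 hua
  have e6 : ‖W‖ * t ≤ a2 * β := mul_le_mul hW q3 ht0.le p2
  have e7 : ‖W‖ * t * t ≤ u * a1 / 4 * t := mul_le_mul_of_nonneg_right (by linarith) ht0.le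
  have e8 : ‖W‖ * t ^ 2 = ‖W‖ * t * t := by ring
  linarith

theorem dominance (r : ℕ) (x₀ : ℂ) (D u F : ℝ) (hD : 0 < D) (hu : 0 < u) (hu1 : u ≤ 1)
    (Z : Fin 3 → Set (ℂ × ℂ)) (α β : Fin 3 → ℝ) (hα : 0 < α 0) (hαβ : ∀ i, α i ≤ β i)
    (hF : ∀ i, β i ≤ F) (h01 : 16 * β 0 ≤ u ^ 2 * α 1) (h12 : 16 * β 1 ≤ u ^ 2 * α 2)
    (hZ : ∀ i, ∀ p ∈ Z i, ‖p.1 - x₀‖ ≤ D ∧ α i ≤ ‖p.2‖ ∧ ‖p.2‖ ≤ β i)
    (hpoly : ∀ i, ∀ P : Polynomial ℂ, P.natDegree < r →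
      ∃ p ∈ Z i, ∀ z : ℂ, ‖z - x₀‖ ≤ D → u * ‖P.eval z‖ ≤ ‖P.eval p.1‖)
    (A : Fin 3 → Polynomial ℂ) (hA : ∀ b, (A b).natDegree < r) (hA0 : ∃ b, A b ≠ 0) :
    ∃ i, ∃ p ∈ Z i, 0 < ‖∑ b, (A b).eval p.1 * p.2 ^ (b : ℕ)‖ ∧
      ∀ z y : ℂ, ‖z - x₀‖ ≤ D → ‖y‖ ≤ F →
        ‖∑ b, (A b).eval z * y ^ (b : ℕ)‖
          ≤ (6 / u) * (F / α 0) ^ 2 * ‖∑ b, (A b).eval p.1 * p.2 ^ (b : ℕ)‖ := by
  have hsum : ∀ z y : ℂ, ∑ b, (A b).eval z * y ^ (b : ℕ)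
      = (A 0).eval z + (A 1).eval z * y + (A 2).eval z * y ^ 2 := by
    intro z y
    rw [Fin.sum_univ_three]
    simp
  obtain ⟨a0, p0, b0, ⟨z0, hz0, c0⟩, d0⟩ := do_exists_sup x₀ D hD (A 0)
  obtain ⟨a1, p1, b1, ⟨z1, hz1, c1⟩, d1⟩ := do_exists_sup x₀ D hD (A 1)
  obtain ⟨a2, p2, b2, ⟨z2, hz2, c2⟩, d2⟩ := do_exists_sup x₀ D hD (A 2)
  have hβ0 : 0 < β 0 := lt_of_lt_of_le hα (hαβ 0)
  have hu2 : u ^ 2 ≤ 1 := by nlinarith
  have hu2p : 0 < u ^ 2 := by positivity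
  have hα1 : 0 < α 1 := by
    by_contra hno
    nlinarith
  have hβ1 : 0 < β 1 := lt_of_lt_of_le hα1 (hαβ 1)
  have hα2 : 0 < α 2 := by
    by_contra hno
    nlinarith
  have hβ2 : 0 < β 2 := lt_of_lt_of_le hα2 (hαβ 2)
  have hα01 : α 0 ≤ α 1 := by
    have := hαβ 0
    nlinarith
  have hα12 : α 1 ≤ α 2 := by
    have := hαβ 1
    nlinarith
  have hF0 : β 0 ≤ F := hF 0
  have hF1 : β 1 ≤ F := hF 1
  have hF2 : β 2 ≤ F := hF 2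
  have hFp : 0 < F := lt_of_lt_of_le hβ0 hF0
  have hx1 : 1 ≤ F / α 0 := by
    rw [le_div_iff₀ hα]
    linarith [hαβ 0]
  set x := F / α 0 with hx
  have hFx : F = x * α 0 := by rw [hx]; field_simp
  have hxp : 0 < x := by linarith
  have hne : ¬ (a0 = 0 ∧ a1 = 0 ∧ a2 = 0) := by
    rintro ⟨e0, e1, e2⟩
    obtain ⟨b, hb⟩ := hA0
    fin_cases b
    · exact hb (d0 e0)
    · exact hb (d1 e1)
    · exact hb (d2 e2)
  have hupper : ∀ z y : ℂ, ‖z - x₀‖ ≤ D → ‖y‖ ≤ F →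
      ‖(A 0).eval z + (A 1).eval z * y + (A 2).eval z * y ^ 2‖ ≤ a0 + a1 * F + a2 * F ^ 2 := by
    intro z y hz hy
    refine (do_upper _ _ _).trans ?_
    rw [norm_mul, norm_mul, norm_pow]
    have hy0 := norm_nonneg y
    have e1 : ‖(A 1).eval z‖ * ‖y‖ ≤ a1 * F := mul_le_mul (b1 z hz) hy hy0 p1
    have e2 : ‖(A 2).eval z‖ * ‖y‖ ^ 2 ≤ a2 * F ^ 2 :=
      mul_le_mul (b2 z hz) (pow_le_pow_left₀ hy0 hy 2) (by positivity) p2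
    linarith [b0 z hz]
  simp only [hsum]
  rcases do_cases a0 a1 a2 u (α 1) (α 2) (β 0) (β 1) p1 p2 hu hu1 hβ0 hα1 hα2 (hαβ 1) h01 h12 with
    ⟨g1, g0⟩ | ⟨g1, g2⟩ | ⟨g0, g2⟩
  · -- (2, 2)
    have hpos : 0 < a2 := by
      rcases p2.lt_or_eq with h | h
      · exact h
      · exfalso
        rw [← h, mul_zero, zero_mul] at g1 g0
        exact hne ⟨by linarith, by linarith, h.symm⟩
    obtain ⟨p, hp, hpz⟩ := hpoly 2 (A 2) (hA 2)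
    obtain ⟨q1, q2, q3⟩ := hZ 2 p hp
    have hu' : u * a2 ≤ ‖(A 2).eval p.1‖ := by
      have := hpz z2 hz2
      rwa [c2] at this
    have low := do_low2 ((A 0).eval p.1) ((A 1).eval p.1) ((A 2).eval p.1) p.2 hu p2 hα2 q2 hu'
      (b0 _ q1) (b1 _ q1) g1 g0
    have eF : F ≤ x * α 2 := by
      rw [hFx]
      exact mul_le_mul_of_nonneg_left (hα01.trans hα12) hxp.le
    have up := do_up2 (a0 := a0) (a1 := a1) p2 hα2 hFp hx1 eF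
      (do_weak hu1 (mul_nonneg p2 hα2.le) (by rw [← mul_assoc]; exact g1))
      (do_weak hu1 (mul_nonneg p2 (sq_nonneg _)) (by rw [← mul_assoc]; exact g0))
    obtain ⟨r1, r2⟩ := do_fin hu (mul_pos hpos (pow_pos hα2 2)) up low
    exact ⟨2, p, hp, r1, fun z y hz hy => (hupper z y hz hy).trans r2⟩
  · -- (0, 0)
    have hpos : 0 < a0 := by
      rcases p0.lt_or_eq with h | h
      · exact h
      · exfalso
        rw [← h, mul_zero] at g1 g2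
        have e1 : a1 = 0 := by
          by_contra hne1
          have h3 : 0 < a1 := lt_of_le_of_ne p1 (Ne.symm hne1)
          have := mul_pos h3 hβ0
          linarith
        have e2 : a2 = 0 := by
          by_contra hne1
          have h3 : 0 < a2 := lt_of_le_of_ne p2 (Ne.symm hne1)
          have : 0 < a2 * β 0 ^ 2 := mul_pos h3 (pow_pos hβ0 2)
          linarith
        exact hne ⟨h.symm, e1, e2⟩
    obtain ⟨p, hp, hpz⟩ := hpoly 0 (A 0) (hA 0)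
    obtain ⟨q1, q2, q3⟩ := hZ 0 p hp
    have hu' : u * a0 ≤ ‖(A 0).eval p.1‖ := by
      have := hpz z0 hz0
      rwa [c0] at this
    have low := do_low0 ((A 0).eval p.1) ((A 1).eval p.1) ((A 2).eval p.1) p.2 p1 p2 q3 hu'
      (b1 _ q1) (b2 _ q1) g1 g2
    have eF : F ≤ x * β 0 := by
      rw [hFx]
      exact mul_le_mul_of_nonneg_left (hαβ 0) hxp.le
    have up := do_up0 p0 p1 p2 hFp hx1 eF
      (do_weak hu1 p0 (by rw [← mul_assoc]; exact g1))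
      (do_weak hu1 p0 (by rw [← mul_assoc]; exact g2))
    obtain ⟨r1, r2⟩ := do_fin hu hpos up low
    exact ⟨0, p, hp, r1, fun z y hz hy => (hupper z y hz hy).trans r2⟩
  · -- (1, 1)
    have hpos : 0 < a1 := by
      rcases p1.lt_or_eq with h | h
      · exact h
      · exfalso
        rw [← h] at g0 g2
        have e0 : a0 = 0 := by
          rw [mul_zero, zero_mul] at g0
          linarith
        have e2 : a2 = 0 := by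
          by_contra hne1
          have h3 : 0 < a2 := lt_of_le_of_ne p2 (Ne.symm hne1)
          have := mul_pos h3 hβ1
          rw [mul_zero] at g2
          linarith
        exact hne ⟨e0, h.symm, e2⟩
    obtain ⟨p, hp, hpz⟩ := hpoly 1 (A 1) (hA 1)
    obtain ⟨q1, q2, q3⟩ := hZ 1 p hp
    have hu' : u * a1 ≤ ‖(A 1).eval p.1‖ := by
      have := hpz z1 hz1
      rwa [c1] at this
    have low := do_low1 ((A 0).eval p.1) ((A 1).eval p.1) ((A 2).eval p.1) p.2 hu p1 p2 hα1 q2 q3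
      (b0 _ q1) hu' (b2 _ q1) g0 g2
    have eF : F ≤ x * α 1 := by
      rw [hFx]
      exact mul_le_mul_of_nonneg_left hα01 hxp.le
    have eF' : F ≤ x * β 1 := eF.trans (mul_le_mul_of_nonneg_left (hαβ 1) hxp.le)
    have up := do_up1 (a0 := a0) p1 p2 hα1 hβ1 hFp hx1 eF eF'
      (do_weak hu1 (mul_nonneg p1 hα1.le) (by rw [← mul_assoc]; exact g0))
      (do_weak hu1 p1 (by rw [← mul_assoc]; exact g2))
    obtain ⟨r1, r2⟩ := do_fin hu (mul_pos hpos hα1) up low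
    exact ⟨1, p, hp, r1, fun z y hz hy => (hupper z y hz hy).trans r2⟩

end Pool.Agent.SG
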