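import Mathlib

open Finset

namespace Pool.Agent.SG

theorem exists_kernel {K ι : Type*} [Field K] [Fintype ι] {N : ℕ} (M : Matrix ι (Fin N) K)
    (h : ∀ f : Fin N → ι, (M.submatrix f id).det = 0) :
    ∃ v : Fin N → K, v ≠ 0 ∧ M.mulVec v = 0 := by
  classical
  by_cases hW : Submodule.span K (Set.range M) = ⊤
  · exfalso
    obtain ⟨κ, a, ha, hspan, hli⟩ := exists_linearIndependent' K M
    rw [hW] at hspan
    let b : Module.Basis κ K (Fin N → K) := Module.Basis.mk hli hspan.ge
    have : Fintype κ := Fintype.ofInjective a ha
    have hcard : Fintype.card κ = N := by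
      rw [← Module.finrank_eq_card_basis b]
      simp
    let e : Fin N ≃ κ := (Fintype.equivFinOfCardEq hcard).symm
    have hli2 : LinearIndependent K (fun i : Fin N => M (a (e i))) :=
      hli.comp e e.injective
    have hdet := h (fun i => a (e i))
    have hrows : LinearIndependent K (M.submatrix (fun i => a (e i)) id).row := by
      convert hli2 using 1
      funext i j
      rfl
    rw [Matrix.linearIndependent_rows_iff_isUnit, Matrix.isUnit_iff_isUnit_det, hdet] at hrows
    exact not_isUnit_zero hrows
  · obtain ⟨f, hf0, hf⟩ := Submodule.exists_le_ker_of_lt_top _ (lt_top_iff_ne_top.mpr hW)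
    refine ⟨fun j => f (Pi.single j 1), ?_, ?_⟩
    · intro hv
      apply hf0
      apply LinearMap.pi_ext'
      intro i
      ext
      simpa using congrFun hv i
    · funext t
      have h1 : f (M t) = 0 := by
        have := hf (Submodule.subset_span ⟨t, rfl⟩)
        simpa using this
      have h2 : M t = ∑ j, M t j • (Pi.single j (1 : K) : Fin N → K) := by
        funext k
        simp [Finset.sum_apply, Pi.single_apply]
      rw [h2, map_sum] at h1
      simp only [map_smul, smul_eq_mul] at h1
      simpa [Matrix.mulVec, dotProduct] using h1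

end Pool.Agent.SG
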