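import Mathlib

open Finset Metric

namespace Pool.Agent.SG

theorem zl_prod : ∀ (n : ℕ) (T : Finset ℂ), T.card = n → ∀ (G : ℂ → ℂ),
    DifferentiableOn ℂ G (Metric.closedBall 0 1) → ∀ (M : ℝ),
    (∀ w ∈ Metric.closedBall (0 : ℂ) 1, ‖G w‖ ≤ M) → ∀ (σ : ℝ), 0 ≤ σ → σ < 1 →
    (∀ t ∈ T, ‖t‖ ≤ σ ∧ G t = 0) → ∀ w : ℂ, ‖w‖ ≤ 1 →
    ‖G w‖ ≤ M * ∏ t ∈ T, (‖w - t‖ / (1 - σ)) := by
  intro n
  induction n with
  | zero =>
    intro T hT G _ M hM σ _ _ _ w hw
    rw [Finset.card_eq_zero] at hT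
    subst hT
    simp only [Finset.prod_empty, mul_one]
    exact hM w (by simpa using hw)
  | succ n ih =>
    intro T hTc G hG M hM σ hσ hσ1 hT w hw
    have hne : T.Nonempty := by
      rw [← Finset.card_pos, hTc]
      exact Nat.succ_pos n
    obtain ⟨t, ht⟩ := hne
    have ht1 : ‖t‖ ≤ σ := (hT t ht).1
    have hGt : G t = 0 := (hT t ht).2
    have hmem : t ∈ Metric.ball (0 : ℂ) 1 := by
      rw [mem_ball_zero_iff]
      linarith
    have hnhds : Metric.closedBall (0 : ℂ) 1 ∈ nhds t :=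
      Filter.mem_of_superset (Metric.isOpen_ball.mem_nhds hmem) Metric.ball_subset_closedBall
    have hH : DifferentiableOn ℂ (dslope G t) (Metric.closedBall 0 1) :=
      (Complex.differentiableOn_dslope hnhds).mpr hG
    have hHval : ∀ z : ℂ, z ≠ t → dslope G t z = G z / (z - t) := by
      intro z hz
      rw [dslope_of_ne _ hz, slope_def_field, hGt, sub_zero]
    have h1σ : 0 < 1 - σ := by linarith
    have hM0 : 0 ≤ M := (norm_nonneg _).trans (hM 0 (by simp))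
    have hsphere : ∀ z ∈ frontier (Metric.ball (0 : ℂ) 1), ‖dslope G t z‖ ≤ M / (1 - σ) := by
      intro z hz
      rw [frontier_ball _ one_ne_zero, mem_sphere_zero_iff_norm] at hz
      have hzt : 1 - σ ≤ ‖z - t‖ := by
        have := norm_sub_norm_le z t
        linarith
      have hne : z ≠ t := by
        rintro rfl
        linarith
      rw [hHval z hne, norm_div]
      exact div_le_div₀ hM0 (hM z (by simp [hz])) h1σ hzt
    have hdc : DiffContOnCl ℂ (dslope G t) (Metric.ball 0 1) := by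
      apply DifferentiableOn.diffContOnCl
      rw [closure_ball _ one_ne_zero]
      exact hH
    have hHM : ∀ z ∈ Metric.closedBall (0 : ℂ) 1, ‖dslope G t z‖ ≤ M / (1 - σ) := by
      intro z hz
      apply Complex.norm_le_of_forall_mem_frontier_norm_le Metric.isBounded_ball hdc hsphere
      rw [closure_ball _ one_ne_zero]
      exact hz
    have hfac : ∀ z : ℂ, G z = (z - t) * dslope G t z := by
      intro z
      by_cases hz : z = t
      · subst hz
        simp [hGt]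
      · rw [hHval z hz]
        have : z - t ≠ 0 := sub_ne_zero.mpr hz
        field_simp
    have hcard : (T.erase t).card = n := by
      rw [Finset.card_erase_of_mem ht, hTc]
      rfl
    have hT' : ∀ s ∈ T.erase t, ‖s‖ ≤ σ ∧ dslope G t s = 0 := by
      intro s hs
      have hs1 := Finset.ne_of_mem_erase hs
      have hs2 := Finset.mem_of_mem_erase hs
      refine ⟨(hT s hs2).1, ?_⟩
      rw [hHval s hs1, (hT s hs2).2, zero_div]
    have key := ih (T.erase t) hcard (dslope G t) hH (M / (1 - σ)) hHM σ hσ hσ1 hT' w hw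
    rw [hfac w, norm_mul, ← Finset.mul_prod_erase T _ ht]
    calc ‖w - t‖ * ‖dslope G t w‖
        ≤ ‖w - t‖ * (M / (1 - σ) * ∏ s ∈ T.erase t, (‖w - s‖ / (1 - σ))) :=
          mul_le_mul_of_nonneg_left key (norm_nonneg _)
      _ = M * (‖w - t‖ / (1 - σ) * ∏ s ∈ T.erase t, (‖w - s‖ / (1 - σ))) := by ring

theorem zero_lemma (G : ℂ → ℂ) (hG : DifferentiableOn ℂ G (Metric.closedBall 0 1)) (M : ℝ)
    (hM : ∀ w ∈ Metric.closedBall (0 : ℂ) 1, ‖G w‖ ≤ M) (σ ϑ : ℝ) (hσ : 0 ≤ σ) (hσ1 : σ < 1)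
    (hϑ : ϑ ≤ 1) (T : Finset ℂ) (hT : ∀ t ∈ T, ‖t‖ ≤ σ ∧ G t = 0) (w : ℂ) (hw : ‖w‖ ≤ ϑ) :
    ‖G w‖ ≤ M * ((ϑ + σ) / (1 - σ)) ^ T.card := by
  have h1 := zl_prod T.card T rfl G hG M hM σ hσ hσ1 hT w (hw.trans hϑ)
  have hM0 : 0 ≤ M := (norm_nonneg _).trans (hM 0 (by simp))
  refine h1.trans (mul_le_mul_of_nonneg_left ?_ hM0)
  have h1σ : 0 < 1 - σ := by linarith
  rw [← Finset.prod_const]
  refine Finset.prod_le_prod (fun i _ => by positivity) (fun t ht => ?_)
  refine div_le_div_of_nonneg_right ?_ h1σ.le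
  calc ‖w - t‖ ≤ ‖w‖ + ‖t‖ := norm_sub_le _ _
    _ ≤ ϑ + σ := add_le_add hw (hT t ht).1

end Pool.Agent.SG
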