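import Mathlib
import Pool.Agent.SG.DetBound
import Pool.Agent.SG.Dominance
import Pool.Agent.SG.Kernel
import Pool.Agent.SG.ZeroLemma

open Finset Metric

namespace Pool.Agent.SG

/-- the binomial polynomial `binom (X - x₀, a)` -/
noncomputable def lo_B (x₀ : ℤ) (a : ℕ) : Polynomial ℂ :=
  Polynomial.C ((a.factorial : ℂ)⁻¹) *
    (descPochhammer ℂ a).comp (Polynomial.X - Polynomial.C (x₀ : ℂ))

theorem lo_eval (x₀ : ℤ) (a : ℕ) (z : ℂ) :
    (lo_B x₀ a).eval z = (a.factorial : ℂ)⁻¹ * ∏ j ∈ Finset.range a, (z - x₀ - j) := by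
  unfold lo_B
  rw [Polynomial.eval_mul, Polynomial.eval_C, Polynomial.eval_comp,
    descPochhammer_eval_eq_prod_range]
  simp

theorem lo_eval_int (x₀ p : ℤ) (a : ℕ) :
    (lo_B x₀ a).eval (p : ℂ) = ((Ring.choose (p - x₀) a : ℤ) : ℂ) := by
  have h := Ring.descPochhammer_eq_factorial_smul_choose (p - x₀) a
  rw [← Polynomial.eval_eq_smeval, descPochhammer_eval_eq_prod_range] at h
  have h2 : ((∏ j ∈ Finset.range a, ((p - x₀ : ℤ) - (j : ℤ)) : ℤ) : ℂ)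
      = ((a.factorial • Ring.choose (p - x₀) a : ℤ) : ℂ) := by rw [h]
  rw [lo_eval]
  push_cast at h2
  rw [h2]
  have : (a.factorial : ℂ) ≠ 0 := by exact_mod_cast a.factorial_ne_zero
  simp
  field_simp

theorem lo_natDegree (x₀ : ℤ) (a : ℕ) : (lo_B x₀ a).natDegree ≤ a := by
  unfold lo_B
  refine (Polynomial.natDegree_C_mul_le _ _).trans ?_
  refine (Polynomial.natDegree_comp_le).trans ?_
  have h1 : (descPochhammer ℂ a).natDegree = a := descPochhammer_natDegree ℂ a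
  have h2 : (Polynomial.X - Polynomial.C (x₀ : ℂ)).natDegree = 1 :=
    Polynomial.natDegree_X_sub_C _
  rw [h1, h2]
  simp

theorem lo_bound (x₀ : ℤ) (a : ℕ) (z : ℂ) (D₁ : ℝ) (ha : (a : ℝ) ≤ D₁)
    (hz : ‖z - x₀‖ ≤ D₁) : ‖(lo_B x₀ a).eval z‖ ≤ (2 * D₁) ^ a / (a.factorial : ℝ) := by
  rw [lo_eval, norm_mul, norm_inv, Complex.norm_natCast, div_eq_inv_mul]
  have hD : 0 ≤ D₁ := (Nat.cast_nonneg a).trans ha
  refine mul_le_mul_of_nonneg_left ?_ (by positivity)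
  rw [norm_prod]
  calc ∏ j ∈ Finset.range a, ‖z - x₀ - j‖ ≤ ∏ _j ∈ Finset.range a, (2 * D₁) := by
        refine Finset.prod_le_prod (fun i _ => norm_nonneg _) (fun i hi => ?_)
        have hi' : (i : ℝ) ≤ D₁ := by
          have : (i : ℝ) ≤ a := by exact_mod_cast (Finset.mem_range.mp hi).le
          linarith
        calc ‖z - x₀ - i‖ ≤ ‖z - x₀‖ + ‖(i : ℂ)‖ := norm_sub_le _ _
          _ ≤ D₁ + D₁ := by
              rw [Complex.norm_natCast]
              linarith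
          _ = 2 * D₁ := by ring
    _ = (2 * D₁) ^ a := by simp

theorem lo_indep (x₀ : ℤ) (r : ℕ) (v : Fin r → ℂ)
    (h : ∑ a : Fin r, v a • lo_B x₀ a = 0) : v = 0 := by
  have key : ∀ k : ℕ, ∀ hk : k < r, v ⟨k, hk⟩ = 0 := by
    intro k
    induction k using Nat.strong_induction_on with
    | _ k ih =>
      intro hk
      have h1 := congrArg (Polynomial.eval (((x₀ + k : ℤ)) : ℂ)) h
      rw [Polynomial.eval_finsetSum, Polynomial.eval_zero] at h1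
      rw [Finset.sum_eq_single (⟨k, hk⟩ : Fin r)] at h1
      · rw [Polynomial.eval_smul, lo_eval_int] at h1
        have : (x₀ + (k : ℤ) - x₀) = (k : ℤ) := by ring
        rw [this] at h1
        have h2 : Ring.choose (k : ℤ) k = 1 := by
          rw [Ring.choose_natCast]
          simp
        simp only at h1
        rw [h2] at h1
        simpa using h1
      · intro b _ hb
        rw [Polynomial.eval_smul, lo_eval_int]
        have e1 : (x₀ + (k : ℤ) - x₀) = (k : ℤ) := by ring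
        rw [e1]
        rcases lt_trichotomy (b : ℕ) k with hlt | heq | hgt
        · have := ih b hlt b.2
          have e2 : (⟨(b : ℕ), b.2⟩ : Fin r) = b := rfl
          rw [e2] at this
          rw [this]
          simp
        · exact absurd (Fin.ext heq) hb
        · rw [Ring.choose_natCast, Nat.choose_eq_zero_of_lt hgt]
          simp
      · intro hn
        exact absurd (Finset.mem_univ _) hn
  funext i
  exact key i i.2


/-- the interpolation functions, indexed by `(b, a)` -/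
noncomputable def lo_phi (x₀ : ℤ) (X Y : ℂ → ℂ) (b a : ℕ) (w : ℂ) : ℂ :=
  (lo_B x₀ a).eval (X w) * (Y w) ^ b

theorem lo_phi_int (x₀ : ℤ) (X Y : ℂ → ℂ) (b a : ℕ) (w : ℂ) (h1 : ∃ p : ℤ, X w = p)
    (h2 : ∃ q : ℤ, Y w = q) : ∃ k : ℤ, lo_phi x₀ X Y b a w = k := by
  obtain ⟨p, hp⟩ := h1
  obtain ⟨q, hq⟩ := h2
  refine ⟨Ring.choose (p - x₀) a * q ^ b, ?_⟩
  unfold lo_phi
  rw [hp, hq, lo_eval_int]
  push_cast
  ring

theorem lo_det_zero {N : ℕ} (M : Matrix (Fin N) (Fin N) ℂ) (hint : ∀ i j, ∃ k : ℤ, M i j = k)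
    (hdet : ‖M.det‖ < 1) : M.det = 0 := by
  choose K hK using hint
  have h1 : M = (Matrix.of K).map (Int.castRingHom ℂ) := by
    ext i j
    simp [hK]
  have h2 : M.det = (((Matrix.of K).det : ℤ) : ℂ) := by
    rw [h1, ← RingHom.mapMatrix_apply, ← RingHom.map_det]
    simp
  rw [h2] at hdet ⊢
  rw [Complex.norm_intCast] at hdet
  have : |(Matrix.of K).det| < 1 := by exact_mod_cast hdet
  have h0 : (Matrix.of K).det = 0 := Int.abs_lt_one_iff.mp this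
  rw [h0]
  simp

theorem lo_prod (r : ℕ) (D₁ F₁ : ℝ) :
    ∏ j : Fin (3 * r), ((2 * D₁) ^ ((finProdFinEquiv.symm j).2 : ℕ) /
      (((finProdFinEquiv.symm j).2 : ℕ).factorial : ℝ) * F₁ ^ ((finProdFinEquiv.symm j).1 : ℕ))
      = (∏ a ∈ Finset.range r, (2 * D₁) ^ a / (a.factorial : ℝ)) ^ 3 * F₁ ^ (3 * r) := by
  rw [Fintype.prod_equiv (finProdFinEquiv (m := 3) (n := r)).symm _
    (fun p : Fin 3 × Fin r => (2 * D₁) ^ (p.2 : ℕ) / ((p.2 : ℕ).factorial : ℝ)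
      * F₁ ^ (p.1 : ℕ)) (fun x => rfl)]
  rw [Fintype.prod_prod_type]
  simp only [Finset.prod_mul_distrib, Finset.prod_const, Finset.card_univ, Fintype.card_fin]
  rw [Fin.prod_univ_three, Finset.prod_range]
  generalize (∏ i : Fin r, (2 * D₁) ^ (i : ℕ) / ((i : ℕ).factorial : ℝ)) = P
  have h0 : ((0 : Fin 3) : ℕ) = 0 := rfl
  have h1 : ((1 : Fin 3) : ℕ) = 1 := rfl
  have h2 : ((2 : Fin 3) : ℕ) = 2 := rfl
  rw [h0, h1, h2]
  ring

theorem local_theorem (r : ℕ) (hr : 1 ≤ r) (X Y : ℂ → ℂ)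
    (hX : DifferentiableOn ℂ X (Metric.closedBall 0 1))
    (hY : DifferentiableOn ℂ Y (Metric.closedBall 0 1))
    (x₀ : ℤ) (D₁ D F₁ F σ ρ ϑ u : ℝ) (hσ0 : 0 < σ) (hσρ : σ < ρ) (hρ1 : ρ ≤ 1)
    (hϑ : ϑ + 2 * σ < 1) (hrD : (r : ℝ) ≤ D₁) (hD : 0 < D) (hF1 : 1 ≤ F₁)
    (hX1 : ∀ w : ℂ, ‖w‖ ≤ ρ → ‖X w - x₀‖ ≤ D₁) (hY1 : ∀ w : ℂ, ‖w‖ ≤ ρ → ‖Y w‖ ≤ F₁)
    (hX2 : ∀ w : ℂ, ‖w‖ ≤ 1 → ‖X w - x₀‖ ≤ D) (hY2 : ∀ w : ℂ, ‖w‖ ≤ 1 → ‖Y w‖ ≤ F)
    (T : Finset ℂ) (hT : ∀ w ∈ T, ‖w‖ ≤ σ) (hTX : ∀ w ∈ T, ∃ p : ℤ, X w = p)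
    (hTY : ∀ w ∈ T, ∃ q : ℤ, Y w = q)
    (hnum : ((3 * r).factorial : ℝ) * (4 * σ / (ρ - σ)) ^ (3 * r * (3 * r - 1) / 2)
      * (∏ a ∈ Finset.range r, (2 * D₁) ^ a / (a.factorial : ℝ)) ^ 3 * F₁ ^ (3 * r) < 1)
    (Z : Fin 3 → Set ℂ) (hZ : ∀ i, ∀ w ∈ Z i, ‖w‖ ≤ ϑ) (α β : Fin 3 → ℝ) (hα : 0 < α 0)
    (hαβ : ∀ i, α i ≤ β i) (hF : ∀ i, β i ≤ F) (hu : 0 < u) (hu1 : u ≤ 1)
    (hZY : ∀ i, ∀ w ∈ Z i, α i ≤ ‖Y w‖ ∧ ‖Y w‖ ≤ β i)
    (h01 : 16 * β 0 ≤ u ^ 2 * α 1) (h12 : 16 * β 1 ≤ u ^ 2 * α 2)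
    (hpoly : ∀ i, ∀ P : Polynomial ℂ, P.natDegree < r →
      ∃ w ∈ Z i, ∀ z : ℂ, ‖z - x₀‖ ≤ D → u * ‖P.eval z‖ ≤ ‖P.eval (X w)‖) :
    1 ≤ ((ϑ + σ) / (1 - σ)) ^ T.card * ((6 / u) * (F / α 0) ^ 2) := by
  classical
  have hϑ1 : ϑ ≤ 1 := by linarith
  -- the functions
  set φ : Fin (3 * r) → ℂ → ℂ := fun j =>
    lo_phi x₀ X Y ((finProdFinEquiv.symm j).1 : ℕ) ((finProdFinEquiv.symm j).2 : ℕ) with hφdef
  have hφdiff : ∀ j, DifferentiableOn ℂ (φ j) (Metric.closedBall 0 1) := by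
    intro j
    simp only [hφdef]
    unfold lo_phi
    exact ((lo_B x₀ _).differentiable.comp_differentiableOn hX).mul (hY.pow _)
  have hsub : Metric.closedBall (0 : ℂ) ρ ⊆ Metric.closedBall 0 1 :=
    Metric.closedBall_subset_closedBall hρ1
  have hφbd : ∀ j, ∀ w ∈ Metric.closedBall (0 : ℂ) ρ, ‖φ j w‖ ≤
      (2 * D₁) ^ ((finProdFinEquiv.symm j).2 : ℕ) /
      (((finProdFinEquiv.symm j).2 : ℕ).factorial : ℝ)
        * F₁ ^ ((finProdFinEquiv.symm j).1 : ℕ) := by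
    intro j w hw
    rw [mem_closedBall_zero_iff] at hw
    simp only [hφdef]
    unfold lo_phi
    rw [norm_mul, norm_pow]
    have ha : (((finProdFinEquiv.symm j).2 : Fin r) : ℝ) ≤ D₁ := by
      have : (((finProdFinEquiv.symm j).2 : Fin r) : ℝ) ≤ r := by
        exact_mod_cast (finProdFinEquiv.symm j).2.2.le
      linarith
    have hD1 : 0 ≤ D₁ := (Nat.cast_nonneg _).trans ha
    refine mul_le_mul (lo_bound x₀ _ _ D₁ ha (hX1 w hw)) ?_ (by positivity) (by positivity)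
    exact pow_le_pow_left₀ (norm_nonneg _) (hY1 w hw) _
  have hker : ∃ v : Fin (3 * r) → ℂ, v ≠ 0 ∧
      (Matrix.of fun (t : T) (j : Fin (3 * r)) => φ j (t : ℂ)).mulVec v = 0 := by
    apply exists_kernel
    intro f
    have hmat : (Matrix.of fun (t : T) (j : Fin (3 * r)) => φ j (t : ℂ)).submatrix f id
        = Matrix.of fun i j => φ j ((f i : T) : ℂ) := by
      ext i j
      simp
    rw [hmat]
    apply lo_det_zero
    · intro i j
      simp only [Matrix.of_apply, hφdef]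
      exact lo_phi_int x₀ X Y _ _ _ (hTX _ (f i).2) (hTY _ (f i).2)
    · have := det_bound φ (fun i => ((f i : T) : ℂ)) σ ρ hσ0 hσρ _
        (fun j => (hφdiff j).mono hsub) hφbd (fun i => hT _ (f i).2)
      rw [lo_prod, ← mul_assoc] at this
      exact lt_of_le_of_lt this hnum
  obtain ⟨v, hv0, hv⟩ := hker
  -- the polynomials
  set A : Fin 3 → Polynomial ℂ := fun b => ∑ a : Fin r, v (finProdFinEquiv (b, a)) • lo_B x₀ a
    with hAdef
  have hAdeg : ∀ b, (A b).natDegree < r := by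
    intro b
    have : (A b).natDegree ≤ r - 1 := by
      refine Polynomial.natDegree_sum_le_of_forall_le _ _ (fun a _ => ?_)
      refine (Polynomial.natDegree_smul_le _ _).trans ((lo_natDegree x₀ a).trans ?_)
      have := a.2
      omega
    omega
  have hA0 : ∃ b, A b ≠ 0 := by
    by_contra hcon
    push Not at hcon
    apply hv0
    funext j
    have hj := lo_indep x₀ r (fun a => v (finProdFinEquiv ((finProdFinEquiv.symm j).1, a)))
      (hcon (finProdFinEquiv.symm j).1)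
    have h3 := congrFun hj (finProdFinEquiv.symm j).2
    have h4 : finProdFinEquiv ((finProdFinEquiv.symm j).1, (finProdFinEquiv.symm j).2) = j :=
      Equiv.apply_symm_apply finProdFinEquiv j
    simp only [Pi.zero_apply] at h3 ⊢
    rw [h4] at h3
    exact h3
  have hG : ∀ w : ℂ, ∑ b : Fin 3, (A b).eval (X w) * (Y w) ^ (b : ℕ)
      = ∑ j, v j * φ j w := by
    intro w
    rw [Fintype.sum_equiv (finProdFinEquiv (m := 3) (n := r)).symm
      (fun j => v j * φ j w)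
      (fun p : Fin 3 × Fin r => v (finProdFinEquiv p) * lo_phi x₀ X Y (p.1 : ℕ) (p.2 : ℕ) w)
      (fun x => by
        simp only [hφdef]
        rw [Equiv.apply_symm_apply finProdFinEquiv x])]
    rw [Fintype.sum_prod_type]
    refine Finset.sum_congr rfl (fun b _ => ?_)
    simp only [hAdef]
    rw [Polynomial.eval_finsetSum, Finset.sum_mul]
    refine Finset.sum_congr rfl (fun a _ => ?_)
    rw [Polynomial.eval_smul]
    unfold lo_phi
    simp only [smul_eq_mul]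
    ring
  set G : ℂ → ℂ := fun w => ∑ b : Fin 3, (A b).eval (X w) * (Y w) ^ (b : ℕ) with hGdef
  have hGdiff : DifferentiableOn ℂ G (Metric.closedBall 0 1) := by
    simp only [hGdef]
    refine DifferentiableOn.fun_sum (fun b _ => ?_)
    exact ((A b).differentiable.comp_differentiableOn hX).mul (hY.pow _)
  have hGT : ∀ t ∈ T, ‖t‖ ≤ σ ∧ G t = 0 := by
    intro t ht
    refine ⟨hT t ht, ?_⟩
    simp only [hGdef]
    rw [hG]
    have := congrFun hv ⟨t, ht⟩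
    simp only [Matrix.mulVec, dotProduct, Matrix.of_apply, Pi.zero_apply] at this
    rw [← this]
    exact Finset.sum_congr rfl (fun j _ => by ring)
  -- dominance
  obtain ⟨i, p, hp, hpos, hall⟩ := dominance r x₀ D u F hD hu hu1
    (fun i => (fun w => (X w, Y w)) '' Z i) α β hα hαβ hF h01 h12
    (by
      rintro i p ⟨w, hw, rfl⟩
      exact ⟨hX2 w ((hZ i w hw).trans hϑ1), hZY i w hw⟩)
    (by
      intro i P hP
      obtain ⟨w, hw, hz⟩ := hpoly i P hP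
      exact ⟨(X w, Y w), ⟨w, hw, rfl⟩, hz⟩)
    A hAdeg hA0
  obtain ⟨w₀, hw₀, rfl⟩ := hp
  simp only at hpos hall
  have hw₀ϑ : ‖w₀‖ ≤ ϑ := hZ i w₀ hw₀
  have hGM : ∀ w ∈ Metric.closedBall (0 : ℂ) 1,
      ‖G w‖ ≤ (6 / u) * (F / α 0) ^ 2 * ‖G w₀‖ := by
    intro w hw
    rw [mem_closedBall_zero_iff] at hw
    exact hall (X w) (Y w) (hX2 w hw) (hY2 w hw)
  have hfin := zero_lemma G hGdiff _ hGM σ ϑ hσ0.le (by linarith) hϑ1 T hGT w₀ hw₀ϑ
  have hpos' : 0 < ‖G w₀‖ := hpos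
  have : ‖G w₀‖ * 1 ≤ ‖G w₀‖ *
      (((ϑ + σ) / (1 - σ)) ^ T.card * ((6 / u) * (F / α 0) ^ 2)) := by
    calc ‖G w₀‖ * 1 = ‖G w₀‖ := mul_one _
      _ ≤ _ := hfin
      _ = _ := by ring
  exact le_of_mul_le_mul_left this hpos'

end Pool.Agent.SG
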