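import Mathlib

open Finset

namespace Pool.Agent.SG

theorem pi_lagrange {ι : Type*} [DecidableEq ι] (s : Finset ι) (v : ι → ℂ)
    (hv : Set.InjOn v s) (P : Polynomial ℂ) (hP : P.degree < s.card) (z : ℂ) :
    ‖P.eval z‖ ≤ ∑ i ∈ s, ‖P.eval (v i)‖ * ∏ j ∈ s.erase i, (‖z - v j‖ / ‖v i - v j‖) := by
  have h1 := Lagrange.eq_interpolate (v := v) hv hP
  have h2 : P.eval z = ∑ i ∈ s, P.eval (v i) * ∏ j ∈ s.erase i, ((z - v j) / (v i - v j)) := by
    conv_lhs => rw [h1]
    rw [Lagrange.interpolate_apply, Polynomial.eval_finsetSum]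
    refine Finset.sum_congr rfl (fun i _ => ?_)
    rw [Polynomial.eval_mul, Polynomial.eval_C, Lagrange.basis, Polynomial.eval_prod]
    congr 1
    refine Finset.prod_congr rfl (fun j _ => ?_)
    unfold Lagrange.basisDivisor
    simp only [Polynomial.eval_mul, Polynomial.eval_C, Polynomial.eval_sub, Polynomial.eval_X]
    rw [div_eq_inv_mul]
  rw [h2]
  refine (norm_sum_le _ _).trans (Finset.sum_le_sum (fun i _ => ?_))
  rw [norm_mul, norm_prod]
  simp only [norm_div]
  exact le_rfl

theorem pi_prod_nodes (n i : ℕ) (hi : i ∈ Finset.range (n + 1)) :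
    ∏ j ∈ (Finset.range (n + 1)).erase i, |(i : ℝ) - j| = (i.factorial : ℝ) * (n - i).factorial := by
  have hi' : i < n + 1 := Finset.mem_range.mp hi
  have hsplit : (Finset.range (n + 1)).erase i = Finset.range i ∪ Finset.Ico (i + 1) (n + 1) := by
    ext j
    simp only [Finset.mem_erase, Finset.mem_range, Finset.mem_union, Finset.mem_Ico]
    omega
  have hdisj : Disjoint (Finset.range i) (Finset.Ico (i + 1) (n + 1)) := by
    rw [Finset.disjoint_left]
    intro j hj hj2
    rw [Finset.mem_range] at hj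
    rw [Finset.mem_Ico] at hj2
    omega
  rw [hsplit, Finset.prod_union hdisj]
  congr 1
  · rw [← Finset.prod_range_add_one_eq_factorial, ← Finset.prod_range_reflect]
    push_cast
    refine Finset.prod_congr rfl (fun j hj => ?_)
    rw [Finset.mem_range] at hj
    have h1 : ((i - 1 - j : ℕ) : ℝ) = (i : ℝ) - 1 - j := by
      rw [Nat.cast_sub (by omega), Nat.cast_sub (by omega)]
      simp
    rw [h1, abs_of_nonneg]
    · ring
    · linarith [(Nat.cast_nonneg j : (0 : ℝ) ≤ j)]
  · rw [Finset.prod_Ico_eq_prod_range]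
    have h2 : n + 1 - (i + 1) = n - i := by omega
    rw [h2, ← Finset.prod_range_add_one_eq_factorial]
    push_cast
    refine Finset.prod_congr rfl (fun j _ => ?_)
    rw [abs_sub_comm, abs_of_nonneg]
    · ring
    · linarith [(Nat.cast_nonneg j : (0 : ℝ) ≤ j)]

theorem poly_ineq (r : ℕ) (P : Polynomial ℂ) (hP : P.natDegree < r) (p h D : ℝ)
    (hh : 0 < h) (hD : h ≤ D) :
    ∃ x ∈ Set.Icc p (p + h), ∀ z : ℂ, (∀ t ∈ Set.Icc p (p + h), ‖z - (t : ℂ)‖ ≤ D) →
      ‖P.eval z‖ ≤ (2 * Real.exp 1 * D / h) ^ (r - 1) * ‖P.eval (x : ℂ)‖ := by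
  obtain ⟨n, rfl⟩ : ∃ n, r = n + 1 := ⟨r - 1, by omega⟩
  simp only [Nat.add_sub_cancel]
  rcases Nat.eq_zero_or_pos n with hn | hn
  · subst hn
    refine ⟨p, ⟨le_rfl, by linarith⟩, fun z _ => ?_⟩
    have h0 : P.natDegree = 0 := by omega
    rw [Polynomial.eq_C_of_natDegree_eq_zero h0]
    simp
  have hn' : (0 : ℝ) < n := by exact_mod_cast hn
  set v : ℕ → ℝ := fun j => p + j * (h / n) with hv
  have hvmem : ∀ j ∈ Finset.range (n + 1), v j ∈ Set.Icc p (p + h) := by
    intro j hj
    have hj' : (j : ℝ) ≤ n := by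
      exact_mod_cast Nat.lt_succ_iff.mp (Finset.mem_range.mp hj)
    refine ⟨?_, ?_⟩
    · simp only [hv]
      have : 0 ≤ (j : ℝ) * (h / n) := by positivity
      linarith
    · simp only [hv]
      have : (j : ℝ) * (h / n) ≤ n * (h / n) :=
        mul_le_mul_of_nonneg_right hj' (by positivity)
      have h3 : (n : ℝ) * (h / n) = h := by field_simp
      linarith
  have hdiff : ∀ i j : ℕ, ‖((v i : ℝ) : ℂ) - ((v j : ℝ) : ℂ)‖ = |(i : ℝ) - j| * (h / n) := by
    intro i j
    rw [← Complex.ofReal_sub, Complex.norm_real, Real.norm_eq_abs]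
    have : v i - v j = ((i : ℝ) - j) * (h / n) := by simp only [hv]; ring
    rw [this, abs_mul, abs_of_pos (by positivity : 0 < h / (n : ℝ))]
  have hinj : Set.InjOn (fun j => ((v j : ℝ) : ℂ)) (Finset.range (n + 1) : Set ℕ) := by
    intro i _ j _ hij
    by_contra hne
    have h4 : ‖((v i : ℝ) : ℂ) - ((v j : ℝ) : ℂ)‖ = 0 := by
      simp only at hij
      rw [hij]
      simp
    rw [hdiff] at h4
    rcases mul_eq_zero.mp h4 with h5 | h5
    · rw [abs_eq_zero, sub_eq_zero] at h5
      exact hne (by exact_mod_cast h5)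
    · have : 0 < h / (n : ℝ) := by positivity
      linarith
  obtain ⟨i₀, hi₀, hmax⟩ := Finset.exists_max_image (Finset.range (n + 1))
    (fun j => ‖P.eval ((v j : ℝ) : ℂ)‖) ⟨0, by simp⟩
  refine ⟨v i₀, hvmem i₀ hi₀, fun z hz => ?_⟩
  have hdeg : P.degree < (Finset.range (n + 1)).card := by
    rw [Finset.card_range]
    exact (Polynomial.degree_le_natDegree).trans_lt (by exact_mod_cast hP)
  have hL := pi_lagrange (Finset.range (n + 1)) (fun j => ((v j : ℝ) : ℂ)) hinj P hdeg z
  set m := ‖P.eval ((v i₀ : ℝ) : ℂ)‖ with hm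
  have hm0 : 0 ≤ m := norm_nonneg _
  have hD0 : 0 < D := hh.trans_le hD
  -- bound of each term
  have hterm : ∀ i ∈ Finset.range (n + 1),
      ‖P.eval ((v i : ℝ) : ℂ)‖ * ∏ j ∈ (Finset.range (n + 1)).erase i,
        (‖z - ((v j : ℝ) : ℂ)‖ / ‖((v i : ℝ) : ℂ) - ((v j : ℝ) : ℂ)‖)
      ≤ m * ((D * n / h) ^ n * (1 / ((i.factorial : ℝ) * (n - i).factorial))) := by
    intro i hi
    refine mul_le_mul (hmax i hi) ?_ (by positivity) hm0
    have hc : ((Finset.range (n + 1)).erase i).card = n := by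
      rw [Finset.card_erase_of_mem hi, Finset.card_range]
      rfl
    calc ∏ j ∈ (Finset.range (n + 1)).erase i,
        (‖z - ((v j : ℝ) : ℂ)‖ / ‖((v i : ℝ) : ℂ) - ((v j : ℝ) : ℂ)‖)
        ≤ ∏ j ∈ (Finset.range (n + 1)).erase i, ((D * n / h) * (1 / |(i : ℝ) - j|)) := by
          refine Finset.prod_le_prod (fun j _ => by positivity) (fun j hj => ?_)
          rw [hdiff]
          have hj1 := Finset.ne_of_mem_erase hj
          have hj2 := Finset.mem_of_mem_erase hj
          have hne : (0 : ℝ) < |(i : ℝ) - j| := by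
            rw [abs_pos, sub_ne_zero]
            exact_mod_cast hj1.symm
          calc ‖z - ((v j : ℝ) : ℂ)‖ / (|(i : ℝ) - j| * (h / n))
              ≤ D / (|(i : ℝ) - j| * (h / n)) :=
                div_le_div_of_nonneg_right (hz _ (hvmem j hj2)) (by positivity)
            _ = (D * n / h) * (1 / |(i : ℝ) - j|) := by
                field_simp
      _ = (D * n / h) ^ n * (1 / ((i.factorial : ℝ) * (n - i).factorial)) := by
          rw [Finset.prod_mul_distrib, Finset.prod_const, hc, ← pi_prod_nodes n i hi]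
          congr 1
          simp
  have hsum : ∑ i ∈ Finset.range (n + 1), (1 / ((i.factorial : ℝ) * (n - i).factorial))
      = 2 ^ n / n.factorial := by
    have h6 : ∑ i ∈ Finset.range (n + 1), (n.choose i : ℝ) = 2 ^ n := by
      exact_mod_cast Nat.sum_range_choose n
    rw [← h6, Finset.sum_div]
    refine Finset.sum_congr rfl (fun i hi => ?_)
    have hi' : i ≤ n := Nat.lt_succ_iff.mp (Finset.mem_range.mp hi)
    rw [Nat.cast_choose ℝ hi']
    have : (n.factorial : ℝ) ≠ 0 := by exact_mod_cast n.factorial_ne_zero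
    field_simp
  have hexp : (n : ℝ) ^ n / n.factorial ≤ Real.exp n :=
    Real.pow_div_factorial_le_exp (n : ℝ) (by positivity) n
  calc ‖P.eval z‖ ≤ _ := hL
    _ ≤ ∑ i ∈ Finset.range (n + 1),
        m * ((D * n / h) ^ n * (1 / ((i.factorial : ℝ) * (n - i).factorial))) :=
        Finset.sum_le_sum hterm
    _ = m * ((D * n / h) ^ n * (2 ^ n / n.factorial)) := by
        rw [← Finset.mul_sum, ← Finset.mul_sum, hsum]
    _ = (2 * D / h) ^ n * ((n : ℝ) ^ n / n.factorial) * m := by
        rw [show (D * n / h) = (D / h) * n by ring, mul_pow,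
          show (2 * D / h) = 2 * (D / h) by ring, mul_pow]
        ring
    _ ≤ (2 * D / h) ^ n * Real.exp n * m := by gcongr
    _ = (2 * Real.exp 1 * D / h) ^ n * m := by
        have : Real.exp (n : ℝ) = (Real.exp 1) ^ n := by
          rw [← Real.exp_nat_mul, mul_one]
        rw [this, ← mul_pow]
        congr 2
        ring

theorem poly_nodes (r : ℕ) (P : Polynomial ℂ) (hP : P.natDegree < r) (z₀ : ℂ) (D h : ℝ)
    (hh : 0 < h) (hD : h ≤ 2 * D) (node : Fin r → ℂ) (hnode : ∀ i, ‖node i - z₀‖ ≤ D)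
    (hsep : ∀ i j, i ≠ j → h ≤ ‖node i - node j‖) :
    ∃ i, ∀ z : ℂ, ‖z - z₀‖ ≤ D → ‖P.eval z‖ ≤ r * (2 * D / h) ^ (r - 1) * ‖P.eval (node i)‖ := by
  have hr : 0 < r := by omega
  have hne : (Finset.univ : Finset (Fin r)).Nonempty := ⟨⟨0, hr⟩, Finset.mem_univ _⟩
  obtain ⟨i₀, _, hmax⟩ := Finset.exists_max_image (Finset.univ : Finset (Fin r))
    (fun j => ‖P.eval (node j)‖) hne
  refine ⟨i₀, fun z hz => ?_⟩
  have hinj : Set.InjOn node ((Finset.univ : Finset (Fin r)) : Set (Fin r)) := by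
    intro i _ j _ hij
    by_contra hne
    have := hsep i j hne
    rw [hij, sub_self, norm_zero] at this
    linarith
  have hdeg : P.degree < (Finset.univ : Finset (Fin r)).card := by
    rw [Finset.card_univ, Fintype.card_fin]
    exact (Polynomial.degree_le_natDegree).trans_lt (by exact_mod_cast hP)
  have hL := pi_lagrange (Finset.univ : Finset (Fin r)) node hinj P hdeg z
  refine hL.trans ?_
  set m := ‖P.eval (node i₀)‖ with hm
  have hm0 : 0 ≤ m := norm_nonneg _
  have hD0 : 0 < D := by linarith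
  calc ∑ i ∈ (Finset.univ : Finset (Fin r)), ‖P.eval (node i)‖ *
        ∏ j ∈ Finset.univ.erase i, (‖z - node j‖ / ‖node i - node j‖)
      ≤ ∑ _i ∈ (Finset.univ : Finset (Fin r)), m * (2 * D / h) ^ (r - 1) := by
        refine Finset.sum_le_sum (fun i hi => ?_)
        refine mul_le_mul (hmax i hi) ?_ (by positivity) hm0
        have hc : ((Finset.univ : Finset (Fin r)).erase i).card = r - 1 := by
          rw [Finset.card_erase_of_mem hi, Finset.card_univ, Fintype.card_fin]
        rw [← hc, ← Finset.prod_const]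
        refine Finset.prod_le_prod (fun j _ => by positivity) (fun j hj => ?_)
        have hj1 := Finset.ne_of_mem_erase hj
        refine div_le_div₀ (by positivity) ?_ hh (hsep i j hj1.symm)
        calc ‖z - node j‖ = ‖(z - z₀) - (node j - z₀)‖ := by congr 1; ring
          _ ≤ ‖z - z₀‖ + ‖node j - z₀‖ := norm_sub_le _ _
          _ ≤ 2 * D := by linarith [hnode j]
    _ = r * (2 * D / h) ^ (r - 1) * m := by
        rw [Finset.sum_const, Finset.card_univ, Fintype.card_fin, nsmul_eq_mul]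
        ring

end Pool.Agent.SG
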