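import Mathlib
import Pool.Agent.SG.PolyIneq
import Pool.Agent.SG.FixDisc
import Pool.Agent.SG.Hfun
import Pool.Agent.SG.IntFunction
import Pool.Agent.SG.Local

open Finset Metric Set

namespace Pool.Agent.SG

theorem il_norm (L h : ℝ) (x : ℂ) (hL : 0 < L) (hh : 0 < h)
    (hx : ‖x * h / L - 1‖ ≤ 1 / 1000) :
    999 / 1000 * L ≤ ‖x‖ * h ∧ ‖x‖ * h ≤ 1001 / 1000 * L := by
  have h1 : ‖x * h / L‖ = ‖x‖ * h / L := by
    rw [norm_div, norm_mul, Complex.norm_real, Complex.norm_real, Real.norm_of_nonneg hh.le,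
      Real.norm_of_nonneg hL.le]
  have h2 : ‖x * h / L‖ ≤ ‖x * h / L - 1‖ + 1 := by
    have := norm_add_le (x * h / L - 1) 1
    simpa using this
  have h3 : 1 ≤ ‖x * h / L‖ + ‖x * h / L - 1‖ := by
    have := norm_sub_le (x * h / L) (x * h / L - 1)
    simpa using this
  rw [h1] at h2 h3
  constructor
  · have : 999 / 1000 ≤ ‖x‖ * h / L := by linarith
    rwa [le_div_iff₀ hL] at this
  · have : ‖x‖ * h / L ≤ 1001 / 1000 := by linarith
    rwa [div_le_iff₀ hL] at this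

theorem il_exp2 (τ : ℝ) (h : 2 ≤ τ) : 2 * Real.exp (-τ) ≤ 0.271 := by
  have h1 : Real.exp (-τ) ≤ Real.exp (-2) := Real.exp_le_exp.mpr (by linarith)
  have h2 : Real.exp (-2) ≤ 0.13535 := by
    have e : Real.exp (-2) = (Real.exp 1 ^ 2)⁻¹ := by
      rw [← Real.exp_nat_mul, ← Real.exp_neg]; norm_num
    have h3 : (2.7182818283 : ℝ) ^ 2 ≤ Real.exp 1 ^ 2 := by
      have := Real.exp_one_gt_d9
      gcongr
    rw [e]
    calc (Real.exp 1 ^ 2)⁻¹ ≤ ((2.7182818283 : ℝ) ^ 2)⁻¹ := by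
          apply inv_anti₀ (by positivity) h3
      _ ≤ 0.13535 := by norm_num
  linarith

theorem il_sep (L : ℝ) (hL : 0 < L) (τ τ' h h' : ℝ) (x x' : ℂ) (hτ1 : 1 ≤ τ) (hτ2 : τ ≤ 8000)
    (hττ : 2 * τ ≤ τ') (hh : h ≤ τ + 1) (hh1 : 1 ≤ h)
    (hh' : τ' + 1 - 2 * Real.exp (-τ') ≤ h')
    (hx : ‖x * h / L - 1‖ ≤ 1 / 1000) (hx' : ‖x' * h' / L - 1‖ ≤ 1 / 1000) :
    5 / 100000 * L ≤ ‖x - x'‖ := by
  have he := il_exp2 τ' (by linarith)
  have hh'0 : 2 * τ + 0.729 ≤ h' := by linarith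
  have h1 := (il_norm L h x hL (by linarith) hx).1
  have h2 := (il_norm L h' x' hL (by linarith) hx').2
  have h3 : ‖x‖ - ‖x'‖ ≤ ‖x - x'‖ := norm_sub_norm_le x x'
  have h4 : 999 / 1000 * L ≤ ‖x‖ * (τ + 1) :=
    h1.trans (mul_le_mul_of_nonneg_left hh (norm_nonneg _))
  have h5 : ‖x'‖ * (2 * τ + 0.729) ≤ 1001 / 1000 * L :=
    le_trans (mul_le_mul_of_nonneg_left hh'0 (norm_nonneg _)) h2
  have h6 : 999 / 1000 * L / (τ + 1) ≤ ‖x‖ := by rwa [div_le_iff₀ (by linarith)]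
  have h7 : ‖x'‖ ≤ 1001 / 1000 * L / (2 * τ + 0.729) := by rwa [le_div_iff₀ (by linarith)]
  have h8 : 5 / 100000 * L ≤ 999 / 1000 * L / (τ + 1) - 1001 / 1000 * L / (2 * τ + 0.729) := by
    have e : 999 / 1000 * L / (τ + 1) - 1001 / 1000 * L / (2 * τ + 0.729)
        = L * ((999 / 1000 * (2 * τ + 0.729) - 1001 / 1000 * (τ + 1))
          / ((τ + 1) * (2 * τ + 0.729))) := by
      field_simp
    rw [e, mul_comm (5 / 100000 : ℝ)]
    apply mul_le_mul_of_nonneg_left _ hL.le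
    rw [le_div_iff₀ (by positivity)]
    nlinarith [mul_nonneg (sub_nonneg.mpr hτ1) (sub_nonneg.mpr hτ2)]
  linarith

/-- base points of the three groups -/
noncomputable def il_b : Fin 3 → ℝ := ![1, 100, 2000]

theorem il_b_ge (i : Fin 3) : 1 ≤ il_b i := by
  fin_cases i <;> simp [il_b]

theorem il_b_le (i : Fin 3) : il_b i ≤ 2000 := by
  fin_cases i <;> simp [il_b] <;> norm_num

theorem il_pt_ge (i : Fin 3) (j : Fin 4) : il_b i ≤ il_b i * 2 ^ (j : ℕ) := by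
  have := il_b_ge i
  have h2 : (1 : ℝ) ≤ 2 ^ (j : ℕ) := one_le_pow₀ (by norm_num)
  nlinarith

theorem il_pt_le (i : Fin 3) (j : Fin 4) : il_b i * 2 ^ (j : ℕ) ≤ 8 * il_b i := by
  have := il_b_ge i
  have h2 : (2 : ℝ) ^ (j : ℕ) ≤ 2 ^ 3 := by
    apply pow_le_pow_right₀ (by norm_num)
    omega
  nlinarith

/-- lower bound for `|Y|` -/
theorem il_Y_lower (L τ h : ℝ) (x : ℂ) (hL : 0 < L) (hτ : 1 ≤ τ) (hh : h ≤ τ + 1) (hh1 : 1 ≤ h)
    (hx : ‖x * h / L - 1‖ ≤ 1 / 1000) (a : ℝ) (ha : 10 * (τ + 1) ≤ 9 * Real.exp (τ - a)) :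
    Real.exp a * L ≤ ‖Complex.exp τ * x‖ := by
  have h1 := (il_norm L h x hL (by linarith) hx).1
  have h4 : 999 / 1000 * L ≤ ‖x‖ * (τ + 1) :=
    h1.trans (mul_le_mul_of_nonneg_left hh (norm_nonneg _))
  have h6 : 999 / 1000 * L / (τ + 1) ≤ ‖x‖ := by rwa [div_le_iff₀ (by linarith)]
  rw [norm_mul, ← Complex.ofReal_exp, Complex.norm_real, Real.norm_of_nonneg (Real.exp_pos _).le]
  have e : Real.exp τ = Real.exp a * Real.exp (τ - a) := by rw [← Real.exp_add]; congr 1; ring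
  have h7 : L ≤ Real.exp (τ - a) * ‖x‖ := by
    have h8 : Real.exp (τ - a) * (999 / 1000 * L / (τ + 1)) ≤ Real.exp (τ - a) * ‖x‖ := by gcongr
    refine le_trans ?_ h8
    have h9 : 10 * (τ + 1) / 9 * (999 / 1000 * L / (τ + 1))
        ≤ Real.exp (τ - a) * (999 / 1000 * L / (τ + 1)) := by
      apply mul_le_mul_of_nonneg_right (by linarith) (by positivity)
    refine le_trans ?_ h9
    have : 10 * (τ + 1) / 9 * (999 / 1000 * L / (τ + 1)) = 1.11 * L := by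
      field_simp; norm_num
    rw [this]; linarith
  calc Real.exp a * L ≤ Real.exp a * (Real.exp (τ - a) * ‖x‖) := by gcongr
    _ = _ := by rw [e]; ring

/-- upper bound for `|Y|` -/
theorem il_Y_upper (L τ h : ℝ) (x : ℂ) (hL : 0 < L) (hh : 1.001 ≤ h)
    (hx : ‖x * h / L - 1‖ ≤ 1 / 1000) (b : ℝ) (hb : τ ≤ b) :
    ‖Complex.exp τ * x‖ ≤ Real.exp b * L := by
  have h1 := (il_norm L h x hL (by linarith) hx).2
  have h2 : ‖x‖ ≤ L := by
    have : ‖x‖ * 1.001 ≤ ‖x‖ * h := mul_le_mul_of_nonneg_left hh (norm_nonneg _)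
    linarith
  rw [norm_mul, ← Complex.ofReal_exp, Complex.norm_real, Real.norm_of_nonneg (Real.exp_pos _).le]
  gcongr

theorem il_h_ge (τ h : ℝ) (hτ : 1 ≤ τ) (hh : τ + 1 - 2 * Real.exp (-τ) ≤ h) : 1.001 ≤ h := by
  have h1 : Real.exp (-τ) ≤ Real.exp (-1) := Real.exp_le_exp.mpr (by linarith)
  have h2 : Real.exp (-1) ≤ 0.37 := by
    rw [Real.exp_neg]
    have := Real.exp_one_gt_d9
    calc (Real.exp 1)⁻¹ ≤ (2.7182818283 : ℝ)⁻¹ := by
          apply inv_anti₀ (by positivity) this.le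
      _ ≤ 0.37 := by norm_num
  linarith

theorem il_exp_one_lower (τ : ℝ) (h : 1 ≤ τ) : 10 * (τ + 1) ≤ 9 * Real.exp (τ - 0) := by
  have h1 := Real.exp_one_gt_d9
  have h2 : Real.exp (τ - 0) = Real.exp 1 * Real.exp (τ - 1) := by
    rw [← Real.exp_add]; congr 1; ring
  have h3 : τ ≤ Real.exp (τ - 1) := by
    have := Real.add_one_le_exp (τ - 1); linarith
  rw [h2]
  nlinarith

theorem il_exp_lower (τ a : ℝ) (ha : a + 10 ≤ τ) (h : τ + 1 ≤ 1000 * (τ - a)) :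
    10 * (τ + 1) ≤ 9 * Real.exp (τ - a) := by
  have h10 : (11112 : ℝ) ≤ Real.exp 10 := by
    have h1 := Real.exp_one_gt_d9
    have e : Real.exp 10 = Real.exp 1 ^ 10 := by rw [← Real.exp_nat_mul]; norm_num
    rw [e]
    have : (2.7182818283 : ℝ) ^ 10 ≤ Real.exp 1 ^ 10 := by gcongr
    exact le_trans (by norm_num) this
  have h2 : Real.exp (τ - a) = Real.exp 10 * Real.exp (τ - a - 10) := by
    rw [← Real.exp_add]; congr 1; ring
  have h3 : τ - a - 9 ≤ Real.exp (τ - a - 10) := by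
    have := Real.add_one_le_exp (τ - a - 10); linarith
  rw [h2]
  have h4 : 11112 * (τ - a - 9) ≤ Real.exp 10 * Real.exp (τ - a - 10) := by
    apply mul_le_mul h10 h3 (by linarith) (Real.exp_pos _).le
  have h5 : 0 ≤ τ - a - 10 := by linarith
  linarith

theorem il_Om (B τ : ℝ) (hB : 16000 - 3 / 5 < B) (h1 : 1 ≤ τ) (h2 : τ ≤ 16000) :
    (τ : ℂ) ∈ Om (B + 1) := by
  refine ⟨?_, ?_, ?_⟩
  · rw [Complex.ofReal_re]; linarith
  · rw [Complex.ofReal_re]; linarith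
  · rw [Complex.ofReal_im]; norm_num

theorem il_nodes (L : ℝ) (hL : 0 < L) (B : ℝ) (x : ℂ → ℂ)
    (hx : ∀ τ ∈ Om (B + 1), ‖x τ * hfun τ / L - 1‖ ≤ 1 / 1000) (hB : 16000 - 3 / 5 < B)
    (i : Fin 3) (P : Polynomial ℂ) (hP : P.natDegree < 4) :
    ∃ j : Fin 4, ∀ z : ℂ, ‖z‖ ≤ 2 * L →
      ‖P.eval z‖ ≤ 4 * 80000 ^ 3 * ‖P.eval (x ((il_b i * 2 ^ (j : ℕ) : ℝ) : ℂ))‖ := by
  have hb1 := il_b_ge i
  have hb2 := il_b_le i
  have hp1 : ∀ j : Fin 4, 1 ≤ il_b i * 2 ^ (j : ℕ) := fun j => hb1.trans (il_pt_ge i j)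
  have hp2 : ∀ j : Fin 4, il_b i * 2 ^ (j : ℕ) ≤ 16000 := fun j =>
    (il_pt_le i j).trans (by linarith)
  have key : ∀ j k : Fin 4, j < k → 5 / 100000 * L ≤
      ‖x ((il_b i * 2 ^ (j : ℕ) : ℝ) : ℂ) - x ((il_b i * 2 ^ (k : ℕ) : ℝ) : ℂ)‖ := by
    intro j k hjk
    obtain ⟨h, e1, -, a2, a3⟩ := hfun_real (il_b i * 2 ^ (j : ℕ)) (by linarith [hp1 j])
    obtain ⟨h', e1', b1, -, -⟩ := hfun_real (il_b i * 2 ^ (k : ℕ)) (by linarith [hp1 k])
    have hk : (2 : ℝ) ^ ((j : ℕ) + 1) ≤ 2 ^ (k : ℕ) := by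
      apply pow_le_pow_right₀ (by norm_num)
      exact hjk
    have h2 : 2 * (il_b i * 2 ^ (j : ℕ)) ≤ il_b i * 2 ^ (k : ℕ) := by
      rw [pow_succ] at hk
      nlinarith
    have h3 : il_b i * 2 ^ (j : ℕ) ≤ 8000 := by
      have := hp2 k
      linarith
    apply il_sep L hL _ _ h h' _ _ (hp1 j) h3 h2 a2 a3 b1
    · rw [← e1]; exact hx _ (il_Om B _ hB (hp1 j) (hp2 j))
    · rw [← e1']; exact hx _ (il_Om B _ hB (hp1 k) (hp2 k))
  obtain ⟨j, hj⟩ := poly_nodes 4 P hP 0 (2 * L) (5 / 100000 * L) (by positivity) (by linarith)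
    (fun j : Fin 4 => x ((il_b i * 2 ^ (j : ℕ) : ℝ) : ℂ))
    (by
      intro j
      rw [sub_zero]
      obtain ⟨h, e1, -, a2, a3⟩ := hfun_real (il_b i * 2 ^ (j : ℕ)) (by linarith [hp1 j])
      have h1 := hx _ (il_Om B _ hB (hp1 j) (hp2 j))
      rw [e1] at h1
      have h2 := (il_norm L h _ hL (by linarith) h1).2
      have h3 := mul_le_mul_of_nonneg_left a3 (norm_nonneg (x ((il_b i * 2 ^ (j : ℕ) : ℝ) : ℂ)))
      linarith)
    (by
      intro j k hjk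
      rcases lt_or_gt_of_ne hjk with h | h
      · exact key j k h
      · rw [norm_sub_rev]; exact key k j h)
  refine ⟨j, fun z hz => ?_⟩
  have h1 := hj z (by rw [sub_zero]; exact hz)
  have e : 2 * (2 * L) / (5 / 100000 * L) = 80000 := by field_simp; norm_num
  rw [e] at h1
  simpa using h1

theorem il_gap (L a b : ℝ) (hL : 0 < L) (h : a + 80 ≤ b) :
    16 * (Real.exp a * L) ≤ (1 / (4 * 80000 ^ 3)) ^ 2 * (Real.exp b * L) := by
  have h80 : (16 * (4 * 80000 ^ 3) ^ 2 : ℝ) ≤ Real.exp 80 := by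
    have h1 := Real.exp_one_gt_d9
    have e : Real.exp 80 = Real.exp 1 ^ 80 := by rw [← Real.exp_nat_mul]; norm_num
    rw [e]
    have : (2.718 : ℝ) ^ 80 ≤ Real.exp 1 ^ 80 := by gcongr; linarith
    exact le_trans (by norm_num) this
  have h2 : Real.exp 80 * Real.exp a ≤ Real.exp b := by
    rw [← Real.exp_add]; exact Real.exp_le_exp.mpr (by linarith)
  have h3 : (16 * (4 * 80000 ^ 3) ^ 2 : ℝ) * Real.exp a ≤ Real.exp b :=
    le_trans (mul_le_mul_of_nonneg_right h80 (Real.exp_pos _).le) h2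
  have h4 : 16 * Real.exp a ≤ (1 / (4 * 80000 ^ 3)) ^ 2 * Real.exp b := by
    rw [one_div, inv_pow, ← div_eq_inv_mul, le_div_iff₀ (by positivity)]
    linarith
  nlinarith

theorem il_core (B ϑ : ℝ) (hϑ0 : 0 < ϑ) (hϑ1 : ϑ < 1)
    (L : ℝ) (hL : 2 ≤ L) (x : ℂ → ℂ) (hxd : DifferentiableOn ℂ x (Om (B + 1)))
    (hx : ∀ τ ∈ Om (B + 1), ‖x τ * hfun τ / L - 1‖ ≤ 1 / 1000)
    (Ψ : ℂ → ℂ) (hΨd : DifferentiableOn ℂ Ψ (Metric.closedBall 0 1))
    (hΨ : ∀ w ∈ Metric.closedBall (0 : ℂ) 1,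
      0 < (Ψ w).re ∧ (Ψ w).re < B ∧ |(Ψ w).im| < 1 / 10)
    (hΨs : ∀ τ : ℝ, 1 ≤ τ → τ ≤ 16000 → ∃ w : ℂ, ‖w‖ ≤ ϑ ∧ Ψ w = ((τ - 3 / 5 : ℝ) : ℂ))
    (s : ℝ) (hs0 : 0 < s) (hs : 8 * s ≤ 1 - ϑ)
    (hnum : 479001600 * (16 * s) ^ 66 * ((4 * L) ^ 6) ^ 3 * (2 * L * Real.exp (B + 1)) ^ 12 < 1)
    (T : Finset ℂ) (hT : ∀ w ∈ T, ‖w‖ ≤ s) (hTX : ∀ w ∈ T, ∃ p : ℤ, x (3 / 5 + Ψ w) = p)
    (hTY : ∀ w ∈ T, ∃ q : ℤ, Complex.exp (3 / 5 + Ψ w) * x (3 / 5 + Ψ w) = q) :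
    1 ≤ ((ϑ + s) / (1 - s)) ^ T.card * ((6 / (1 / (4 * 80000 ^ 3)))
      * (2 * Real.exp (B + 1)) ^ 2) := by
  have hL0 : 0 < L := by linarith
  have hBig : 16000 - 3 / 5 < B := by
    obtain ⟨w, hw, e⟩ := hΨs 16000 (by norm_num) le_rfl
    have := (hΨ w (by rw [Metric.mem_closedBall, dist_zero_right]; linarith)).2.1
    rw [e, Complex.ofReal_re] at this
    exact this
  have hmem : ∀ w : ℂ, ‖w‖ ≤ 1 → 3 / 5 + Ψ w ∈ Om (B + 1) := by
    intro w hw
    obtain ⟨h1, h2, h3⟩ := hΨ w (by rw [Metric.mem_closedBall, dist_zero_right]; exact hw)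
    have e1 : ((3 : ℂ) / 5).re = 3 / 5 := by
      rw [show (3 : ℂ) / 5 = ((3 / 5 : ℝ) : ℂ) by push_cast; rfl, Complex.ofReal_re]
    have e2 : ((3 : ℂ) / 5).im = 0 := by
      rw [show (3 : ℂ) / 5 = ((3 / 5 : ℝ) : ℂ) by push_cast; rfl, Complex.ofReal_im]
    refine ⟨?_, ?_, ?_⟩
    · rw [Complex.add_re, e1]; linarith
    · rw [Complex.add_re, e1]; linarith
    · rw [Complex.add_im, e2, zero_add]; exact h3
  have hXn : ∀ w : ℂ, ‖w‖ ≤ 1 → ‖x (3 / 5 + Ψ w)‖ ≤ 2 * L := by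
    intro w hw
    have h1 := hx _ (hmem w hw)
    have h2 := (hfun_bounds _ _ (hmem w hw)).1
    have h3 : 1 ≤ ‖hfun (3 / 5 + Ψ w)‖ := h2.trans (Complex.re_le_norm _)
    have h4 : ‖x (3 / 5 + Ψ w) * hfun (3 / 5 + Ψ w) / L‖ ≤ 1 / 1000 + 1 := by
      have h5 := norm_add_le (x (3 / 5 + Ψ w) * hfun (3 / 5 + Ψ w) / L - 1) 1
      rw [sub_add_cancel, norm_one] at h5
      linarith
    rw [norm_div, norm_mul, Complex.norm_real, Real.norm_of_nonneg hL0.le, div_le_iff₀ hL0] at h4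
    have h5 := mul_le_mul_of_nonneg_left h3 (norm_nonneg (x (3 / 5 + Ψ w)))
    linarith
  have hYn : ∀ w : ℂ, ‖w‖ ≤ 1 → ‖Complex.exp (3 / 5 + Ψ w) * x (3 / 5 + Ψ w)‖
      ≤ 2 * L * Real.exp (B + 1) := by
    intro w hw
    rw [norm_mul, Complex.norm_exp, mul_comm]
    apply mul_le_mul (hXn w hw) _ (Real.exp_pos _).le (by positivity)
    exact Real.exp_le_exp.mpr (hmem w hw).2.1.le
  have hXd : DifferentiableOn ℂ (fun w => x (3 / 5 + Ψ w)) (Metric.closedBall 0 1) := by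
    have h1 : DifferentiableOn ℂ (fun w => 3 / 5 + Ψ w) (Metric.closedBall 0 1) :=
      hΨd.const_add _
    exact hxd.comp h1 (fun w hw => hmem w (by rwa [Metric.mem_closedBall, dist_zero_right] at hw))
  have hYd : DifferentiableOn ℂ (fun w => Complex.exp (3 / 5 + Ψ w) * x (3 / 5 + Ψ w))
      (Metric.closedBall 0 1) := by
    have h1 : DifferentiableOn ℂ (fun w => 3 / 5 + Ψ w) (Metric.closedBall 0 1) :=
      hΨd.const_add _
    exact h1.cexp.mul hXd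
  have key := local_theorem 4 (by norm_num) (fun w => x (3 / 5 + Ψ w))
    (fun w => Complex.exp (3 / 5 + Ψ w) * x (3 / 5 + Ψ w)) hXd hYd 0 (2 * L) (2 * L)
    (2 * L * Real.exp (B + 1)) (2 * L * Real.exp (B + 1)) s (1 / 2) ϑ (1 / (4 * 80000 ^ 3))
    hs0 (by linarith) (by norm_num) (by linarith) (by push_cast; linarith) (by positivity)
    (by
      have : (1 : ℝ) ≤ Real.exp (B + 1) := Real.one_le_exp (by linarith)
      nlinarith)
    (by intro w hw; rw [Int.cast_zero, sub_zero]; exact hXn w (by linarith))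
    (by intro w hw; exact hYn w (by linarith))
    (by intro w hw; rw [Int.cast_zero, sub_zero]; exact hXn w hw)
    (by intro w hw; exact hYn w hw)
    T hT hTX hTY
    (by
      refine lt_of_le_of_lt ?_ hnum
      have e1 : (∏ a ∈ Finset.range 4, (2 * (2 * L)) ^ a / (a.factorial : ℝ)) = (4 * L) ^ 6 / 12 := by
        simp [Finset.prod_range_succ, Nat.factorial]
        ring
      have e2 : 4 * s / (1 / 2 - s) ≤ 16 * s := by
        rw [div_le_iff₀ (by linarith)]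
        nlinarith
      have e20 : 0 ≤ 4 * s / (1 / 2 - s) := div_nonneg (by positivity) (by linarith)
      have e3 : ((3 * 4).factorial : ℝ) = 479001600 := by norm_num [Nat.factorial]
      rw [e1, e3]
      have e4 : (4 * L) ^ 6 / 12 ≤ (4 * L) ^ 6 := by
        have : 0 ≤ (4 * L) ^ 6 := by positivity
        linarith
      have e5 : 3 * 4 * (3 * 4 - 1) / 2 = 66 := by norm_num
      rw [e5]
      gcongr)
    (fun i => {w : ℂ | ‖w‖ ≤ ϑ ∧ ∃ j : Fin 4, Ψ w = ((il_b i * 2 ^ (j : ℕ) - 3 / 5 : ℝ) : ℂ)})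
    (fun i w hw => hw.1)
    ![Real.exp 0 * L, Real.exp 90 * L, Real.exp 1900 * L]
    ![Real.exp 8 * L, Real.exp 800 * L, Real.exp 16000 * L]
    (by simp; exact hL0)
    (by
      intro i
      have hg : ∀ a b : ℝ, a ≤ b → Real.exp a * L ≤ Real.exp b * L := fun a b hab =>
        mul_le_mul_of_nonneg_right (Real.exp_le_exp.mpr hab) hL0.le
      fin_cases i
      · exact hg 0 8 (by norm_num)
      · exact hg 90 800 (by norm_num)
      · exact hg 1900 16000 (by norm_num))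
    (by
      intro i
      have h1 : Real.exp 16000 * L ≤ 2 * L * Real.exp (B + 1) := by
        have : Real.exp 16000 ≤ Real.exp (B + 1) := Real.exp_le_exp.mpr (by linarith)
        have h0 := (Real.exp_pos 16000).le
        nlinarith
      refine le_trans ?_ h1
      have hg : ∀ a b : ℝ, a ≤ b → Real.exp a * L ≤ Real.exp b * L := fun a b hab =>
        mul_le_mul_of_nonneg_right (Real.exp_le_exp.mpr hab) hL0.le
      fin_cases i
      · exact hg 8 16000 (by norm_num)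
      · exact hg 800 16000 (by norm_num)
      · exact hg 16000 16000 le_rfl)
    (by positivity) (by norm_num)
    (by
      intro i w hw
      obtain ⟨hw1, j, hj⟩ := hw
      have e : 3 / 5 + Ψ w = ((il_b i * 2 ^ (j : ℕ) : ℝ) : ℂ) := by
        rw [hj]; push_cast; ring
      have hp1 : 1 ≤ il_b i * 2 ^ (j : ℕ) := (il_b_ge i).trans (il_pt_ge i j)
      obtain ⟨h, e1, a1, a2, a3⟩ := hfun_real (il_b i * 2 ^ (j : ℕ)) (by linarith)
      have h1 := hx _ (hmem w (by linarith))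
      rw [e] at h1 ⊢
      rw [e1] at h1
      have h2 := il_pt_ge i j
      have h3 := il_pt_le i j
      constructor
      · have : ∀ a : ℝ, 10 * (il_b i * 2 ^ (j : ℕ) + 1) ≤ 9 * Real.exp (il_b i * 2 ^ (j : ℕ) - a) →
            Real.exp a * L ≤ _ := fun a ha => il_Y_lower L _ h _ hL0 hp1 a2 a3 h1 a ha
        fin_cases i
        · simp [il_b] at h2 h3 ⊢
          have := this 0 (il_exp_one_lower _ hp1)
          simpa [il_b] using this
        · simp [il_b] at h2 h3 ⊢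
          have := this 90 (by
            simp only [il_b]
            apply il_exp_lower <;> simp <;> linarith)
          simpa [il_b] using this
        · simp [il_b] at h2 h3 ⊢
          have := this 1900 (by
            simp only [il_b]
            apply il_exp_lower <;> simp <;> linarith)
          simpa [il_b] using this
      · have : ∀ b : ℝ, il_b i * 2 ^ (j : ℕ) ≤ b → _ ≤ Real.exp b * L := fun b hb =>
          il_Y_upper L _ h _ hL0 (il_h_ge _ h hp1 a1) h1 b hb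
        fin_cases i
        · simp [il_b] at h2 h3 ⊢
          have := this 8 (by simp only [il_b]; simp; linarith)
          simpa [il_b] using this
        · simp [il_b] at h2 h3 ⊢
          have := this 800 (by simp only [il_b]; simp; linarith)
          simpa [il_b] using this
        · simp [il_b] at h2 h3 ⊢
          have := this 16000 (by simp only [il_b]; simp; linarith)
          simpa [il_b] using this)
    (by
      simp only [Matrix.cons_val_zero, Matrix.cons_val_one]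
      exact il_gap L _ _ hL0 (by norm_num))
    (by
      simp only [Matrix.cons_val_one, Matrix.cons_val_two, Matrix.tail_cons, Matrix.head_cons,
        Matrix.cons_val]
      exact il_gap L _ _ hL0 (by norm_num))
    (by
      intro i P hP
      obtain ⟨j, hj⟩ := il_nodes L hL0 B x hx hBig i P hP
      have hp1 : 1 ≤ il_b i * 2 ^ (j : ℕ) := (il_b_ge i).trans (il_pt_ge i j)
      have hp2 : il_b i * 2 ^ (j : ℕ) ≤ 16000 := (il_pt_le i j).trans (by linarith [il_b_le i])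
      obtain ⟨w, hw1, hw2⟩ := hΨs _ hp1 hp2
      refine ⟨w, ⟨hw1, j, hw2⟩, ?_⟩
      intro z hz
      rw [Int.cast_zero, sub_zero] at hz
      have e : 3 / 5 + Ψ w = ((il_b i * 2 ^ (j : ℕ) : ℝ) : ℂ) := by
        rw [hw2]; push_cast; ring
      rw [e, one_div, ← div_eq_inv_mul, div_le_iff₀ (by positivity), mul_comm]
      exact hj z hz)
  have e : 2 * L * Real.exp (B + 1) / (![Real.exp 0 * L, Real.exp 90 * L, Real.exp 1900 * L] : Fin 3 → ℝ) 0
      = 2 * Real.exp (B + 1) := by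
    simp; field_simp
  rw [e] at key
  exact key

theorem il_num (Cw c E L : ℝ) (hCw : 0 < Cw) (hc : 0 < c) (hE : 0 < E) (hL : 1 ≤ L)
    (h : 16 * (Cw * c) * (1 + 479001600 * 4 ^ 18 * 2 ^ 12 * E ^ 12) ≤ 1) :
    479001600 * (16 * (Cw * (c * L ^ (-(5 / 11) : ℝ)))) ^ 66 * ((4 * L) ^ 6) ^ 3
      * (2 * L * E) ^ 12 < 1 := by
  have hL0 : 0 < L := by linarith
  have hK : 0 < (479001600 * 4 ^ 18 * 2 ^ 12 * E ^ 12 : ℝ) := by positivity
  have e0 : (L ^ (-(5 / 11) : ℝ)) ^ 66 * L ^ 30 = 1 := by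
    rw [← Real.rpow_natCast, ← Real.rpow_mul hL0.le, ← Real.rpow_natCast L 30,
      ← Real.rpow_add hL0]
    norm_num
  have e1 : 479001600 * (16 * (Cw * (c * L ^ (-(5 / 11) : ℝ)))) ^ 66 * ((4 * L) ^ 6) ^ 3
      * (2 * L * E) ^ 12 = (16 * (Cw * c)) ^ 66 * (479001600 * 4 ^ 18 * 2 ^ 12 * E ^ 12)
        * ((L ^ (-(5 / 11) : ℝ)) ^ 66 * L ^ 30) := by
    ring
  rw [e1, e0, mul_one]
  set K : ℝ := 479001600 * 4 ^ 18 * 2 ^ 12 * E ^ 12
  have hx0 : 0 < 16 * (Cw * c) := by positivity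
  have hx1 : 16 * (Cw * c) ≤ 1 := by nlinarith
  have h2 : (16 * (Cw * c)) ^ 66 ≤ 16 * (Cw * c) := by
    calc (16 * (Cw * c)) ^ 66 ≤ (16 * (Cw * c)) ^ 1 := by
          apply pow_le_pow_of_le_one hx0.le hx1; norm_num
      _ = _ := pow_one _
  calc (16 * (Cw * c)) ^ 66 * K ≤ 16 * (Cw * c) * K := by gcongr
    _ < 1 := by nlinarith

theorem int_local : ∃ L₀ c C : ℝ, 0 < c ∧ ∀ L ≥ L₀, ∀ τ₀ ∈ Set.Icc (Real.log 2) 500,
    ∀ T : Finset ℕ, (∀ t ∈ T, 1 ≤ t ∧ ∃ n : ℕ, 2 * t ≤ n ∧ Real.log (n.choose t) = L ∧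
      |Real.log ((n : ℝ) / t) - τ₀| ≤ c * L ^ (-(5 / 11) : ℝ)) →
    (T.card : ℝ) ≤ C := by
  obtain ⟨B, ϑ, Cw, hϑ0, hϑ1, hCw, hdisc⟩ := disc_map 500 200000 (1 / 10) (by norm_num)
    (by norm_num) (by norm_num)
  by_cases hB : 0 ≤ B
  swap
  · -- impossible: the disc map would give `0 < B`
    exfalso
    obtain ⟨Ψ, -, h1, -, -⟩ := hdisc 1 (by norm_num) (by norm_num)
    have := h1 0 (by simp)
    linarith
  obtain ⟨L₁, hint⟩ := int_function (B + 1) (1 / 1000) (by linarith) (by norm_num)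
  set E : ℝ := Real.exp (B + 1) with hE
  have hE0 : 0 < E := Real.exp_pos _
  set K : ℝ := 479001600 * 4 ^ 18 * 2 ^ 12 * E ^ 12 with hK
  have hK0 : 0 < K := by positivity
  set c : ℝ := (1 - ϑ) / (16 * Cw * (1 + K)) with hc
  have hc0 : 0 < c := by
    apply div_pos (by linarith) (by positivity)
  have hCc : 16 * (Cw * c) * (1 + K) = 1 - ϑ := by
    rw [hc]; field_simp
  set κ : ℝ := (1 + 7 * ϑ) / (7 + ϑ) with hκ
  have hκ0 : 0 ≤ κ := by positivity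
  have hκ1 : κ < 1 := by rw [hκ, div_lt_one (by linarith)]; linarith
  set K₂ : ℝ := (6 / (1 / (4 * 80000 ^ 3))) * (2 * E) ^ 2 with hK₂
  have hK₂0 : 0 < K₂ := by positivity
  obtain ⟨N, hN⟩ := exists_pow_lt_of_lt_one (show 0 < 1 / K₂ by positivity) hκ1
  refine ⟨max L₁ 2, c, N, hc0, ?_⟩
  intro L hL τ₀ hτ₀ T hT
  have hL1 : L₁ ≤ L := (le_max_left _ _).trans hL
  have hL2 : 2 ≤ L := (le_max_right _ _).trans hL
  have hL0 : 0 < L := by linarith
  obtain ⟨x, hxd, hx, hxm⟩ := hint L hL1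
  have hlog2 : 0.69 ≤ Real.log 2 := by
    have := Real.log_two_gt_d9; linarith
  obtain ⟨hτa, hτb⟩ := hτ₀
  obtain ⟨Ψ, hΨd, hΨ, hΨ1, hΨ2⟩ := hdisc (τ₀ - 3 / 5) (by linarith) (by linarith)
  have hLp : L ^ (-(5 / 11) : ℝ) ≤ 1 := Real.rpow_le_one_of_one_le_of_nonpos (by linarith)
    (by norm_num)
  have hLp0 : 0 < L ^ (-(5 / 11) : ℝ) := Real.rpow_pos_of_pos hL0 _
  have hCc1 : 16 * (Cw * c) ≤ 1 - ϑ := by
    have : 0 ≤ Cw * c := by positivity
    nlinarith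
  have hCL : Cw * (c * L ^ (-(5 / 11) : ℝ)) ≤ Cw * c := by
    have : Cw * (c * L ^ (-(5 / 11) : ℝ)) ≤ Cw * (c * 1) := by gcongr
    linarith
  have hy : ∀ t : ℕ, ∃ w : ℂ, t ∈ T → ‖w‖ ≤ Cw * (c * L ^ (-(5 / 11) : ℝ)) ∧
      x (3 / 5 + Ψ w) = t ∧ ∃ n : ℕ, Complex.exp (3 / 5 + Ψ w) * x (3 / 5 + Ψ w) = n := by
    intro t
    by_cases ht : t ∈ T
    swap
    · exact ⟨0, fun h => absurd h ht⟩
    obtain ⟨ht1, n, hn1, hn2, hn3⟩ := hT t ht
    have e1 : (Real.log ((n : ℝ) / t) - 3 / 5) - (τ₀ - 3 / 5) = Real.log ((n : ℝ) / t) - τ₀ := by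
      ring
    obtain ⟨w, hw1, hw2⟩ := hΨ2 (Real.log ((n : ℝ) / t) - 3 / 5) (by
      rw [e1]
      refine hn3.trans ?_
      rw [le_div_iff₀ hCw]
      nlinarith)
    rw [e1] at hw1
    have hw3 : ‖w‖ ≤ Cw * (c * L ^ (-(5 / 11) : ℝ)) :=
      hw1.trans (mul_le_mul_of_nonneg_left hn3 hCw.le)
    refine ⟨w, fun _ => ⟨hw3, ?_⟩⟩
    have e2 : 3 / 5 + Ψ w = ((Real.log ((n : ℝ) / t) : ℝ) : ℂ) := by
      rw [hw2]; push_cast; ring
    have hwm : w ∈ Metric.closedBall (0 : ℂ) 1 := by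
      rw [Metric.mem_closedBall, dist_zero_right]; linarith
    have hlt : Real.log ((n : ℝ) / t) < B + 1 := by
      have := (hΨ w hwm).2.1
      rw [hw2, Complex.ofReal_re] at this
      linarith
    have h3 := hxm n t ht1 hn1 hn2 hlt
    rw [e2, h3]
    refine ⟨rfl, n, ?_⟩
    have ht0 : (0 : ℝ) < t := by exact_mod_cast ht1
    have hn0 : (0 : ℝ) < n := by
      have : 0 < n := by omega
      exact_mod_cast this
    rw [← Complex.ofReal_exp, Real.exp_log (by positivity)]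
    have ht0' : (t : ℂ) ≠ 0 := by
      have : t ≠ 0 := by omega
      exact_mod_cast this
    push_cast
    rw [div_mul_cancel₀ _ ht0']
  choose w hw using hy
  have key := il_core B ϑ hϑ0 hϑ1 L hL2 x hxd hx Ψ hΨd hΨ
    (by
      intro τ h1 h2
      exact hΨ1 (τ - 3 / 5) (by
        rw [div_le_iff₀ (by norm_num)]
        nlinarith) (by nlinarith))
    (Cw * (c * L ^ (-(5 / 11) : ℝ))) (by positivity) (by nlinarith)
    (il_num Cw c E L hCw hc0 hE0 (by linarith) (by rw [← hK, hCc]; linarith))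
    (T.image w)
    (by
      intro z hz
      obtain ⟨t, ht, rfl⟩ := Finset.mem_image.mp hz
      exact (hw t ht).1)
    (by
      intro z hz
      obtain ⟨t, ht, rfl⟩ := Finset.mem_image.mp hz
      exact ⟨t, by rw [(hw t ht).2.1]; push_cast; rfl⟩)
    (by
      intro z hz
      obtain ⟨t, ht, rfl⟩ := Finset.mem_image.mp hz
      obtain ⟨n, hn⟩ := (hw t ht).2.2
      exact ⟨n, by rw [hn]; push_cast; rfl⟩)
  have hcard : (T.image w).card = T.card := by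
    apply Finset.card_image_of_injOn
    intro a ha b hb hab
    have h1 := (hw a ha).2.1
    have h2 := (hw b hb).2.1
    rw [hab, h2] at h1
    exact_mod_cast h1.symm
  rw [hcard] at key
  by_contra hcon
  push Not at hcon
  have hN2 : N ≤ T.card := by
    have : N < T.card := by exact_mod_cast hcon
    exact this.le
  set s := Cw * (c * L ^ (-(5 / 11) : ℝ)) with hs
  have hs0 : 0 < s := by positivity
  have hs8 : 8 * s ≤ 1 - ϑ := by nlinarith
  have h1 : (ϑ + s) / (1 - s) ≤ κ := by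
    rw [hκ, div_le_div_iff₀ (by linarith) (by linarith)]
    nlinarith
  have h10 : 0 ≤ (ϑ + s) / (1 - s) := div_nonneg (by linarith) (by linarith)
  have h2 : ((ϑ + s) / (1 - s)) ^ T.card ≤ κ ^ N := by
    calc ((ϑ + s) / (1 - s)) ^ T.card ≤ κ ^ T.card := pow_le_pow_left₀ h10 h1 _
      _ ≤ κ ^ N := pow_le_pow_of_le_one hκ0 hκ1.le hN2
  have h3 : ((ϑ + s) / (1 - s)) ^ T.card * K₂ ≤ κ ^ N * K₂ := by gcongr
  have h4 : κ ^ N * K₂ < 1 := by
    rw [lt_div_iff₀ hK₂0] at hN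
    exact hN
  have h5 : ((ϑ + s) / (1 - s)) ^ T.card * ((6 / (1 / (4 * 80000 ^ 3)))
      * (2 * Real.exp (B + 1)) ^ 2) = ((ϑ + s) / (1 - s)) ^ T.card * K₂ := by
    rw [hK₂, hE]
  rw [h5] at key
  exact absurd (key.trans h3) (not_le.mpr h4)

end Pool.Agent.SG
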