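import Mathlib

/-! # Lagrange correction and iterated solution -/

open Finset Metric Set

namespace Pool.Agent.SG

theorem it_eval_basis (T : Finset ℕ) (t : ℕ) (z : ℂ) :
    (Lagrange.basis T (fun n : ℕ => (n : ℂ)) t).eval z =
      ∏ s ∈ T.erase t, (((t : ℂ) - s)⁻¹ * (z - s)) := by
  unfold Lagrange.basis
  rw [Polynomial.eval_prod]
  refine Finset.prod_congr rfl fun s _ => ?_
  simp [Lagrange.basisDivisor]

theorem lagrange_correction (x₀ : ℝ) (hx : 1 ≤ x₀) (T : Finset ℕ) (e : ℕ → ℂ) (ε : ℝ)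
    (hε : 0 ≤ ε) (he : ∀ t ∈ T, ‖e t‖ ≤ ε) (hT : ∀ t ∈ T, |(t : ℝ) - x₀| ≤ x₀ / 20) :
    ∃ P : Polynomial ℂ, (∀ t ∈ T, P.eval (t : ℂ) = e t) ∧
      ∀ z : ℂ, ‖z - x₀‖ ≤ 19 / 20 * x₀ → ‖P.eval z‖ ≤ T.card * ε * x₀ ^ T.card := by
  have hinj : Set.InjOn (fun n : ℕ => (n : ℂ)) T := fun a _ b _ h => by
    simpa using h
  refine ⟨Lagrange.interpolate T (fun n : ℕ => (n : ℂ)) e, ?_, ?_⟩
  · intro t ht
    exact Lagrange.eval_interpolate_at_node e hinj ht
  · intro z hz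
    rw [Lagrange.interpolate_apply, Polynomial.eval_finsetSum]
    have hterm : ∀ t ∈ T, ‖(Polynomial.C (e t) *
        Lagrange.basis T (fun n : ℕ => (n : ℂ)) t).eval z‖ ≤ ε * x₀ ^ T.card := by
      intro t ht
      rw [Polynomial.eval_mul, Polynomial.eval_C, norm_mul, it_eval_basis, norm_prod]
      have h1 : ∏ s ∈ T.erase t, ‖((t : ℂ) - s)⁻¹ * (z - s)‖ ≤ ∏ s ∈ T.erase t, x₀ := by
        refine Finset.prod_le_prod (fun s _ => norm_nonneg _) fun s hs => ?_
        have hst : s ≠ t := Finset.ne_of_mem_erase hs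
        have hsT := Finset.mem_of_mem_erase hs
        have e1 : (1 : ℝ) ≤ ‖(t : ℂ) - s‖ := by
          have : ((t : ℂ) - s) = (((t : ℤ) - (s : ℤ) : ℤ) : ℂ) := by push_cast; ring
          rw [this, Complex.norm_intCast]
          have hne : (t : ℤ) - (s : ℤ) ≠ 0 := by
            intro h
            apply hst
            have : (t : ℤ) = s := by linarith
            exact_mod_cast this.symm
          exact_mod_cast Int.one_le_abs hne
        have e2 : ‖z - s‖ ≤ x₀ := by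
          have h3 : z - s = (z - x₀) + ((x₀ : ℂ) - s) := by ring
          have h4 : ‖(x₀ : ℂ) - s‖ ≤ x₀ / 20 := by
            have : ((x₀ : ℂ) - s) = ((x₀ - s : ℝ) : ℂ) := by push_cast; ring
            rw [this, Complex.norm_real, Real.norm_eq_abs, abs_sub_comm]
            exact hT s hsT
          calc ‖z - s‖ = ‖(z - x₀) + ((x₀ : ℂ) - s)‖ := by rw [h3]
            _ ≤ ‖z - x₀‖ + ‖(x₀ : ℂ) - s‖ := norm_add_le _ _
            _ ≤ 19 / 20 * x₀ + x₀ / 20 := add_le_add hz h4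
            _ = x₀ := by ring
        rw [norm_mul, norm_inv]
        calc ‖(t : ℂ) - s‖⁻¹ * ‖z - s‖ ≤ 1 * x₀ :=
              mul_le_mul (inv_le_one_of_one_le₀ e1) e2 (norm_nonneg _) zero_le_one
          _ = x₀ := one_mul _
      have h2 : ∏ s ∈ T.erase t, x₀ ≤ x₀ ^ T.card := by
        rw [Finset.prod_const]
        exact pow_le_pow_right₀ hx (Finset.card_le_card (Finset.erase_subset _ _))
      exact mul_le_mul (he t ht) (h1.trans h2) (Finset.prod_nonneg fun _ _ => norm_nonneg _) hε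
    calc ‖∑ t ∈ T, (Polynomial.C (e t) * Lagrange.basis T (fun n : ℕ => (n : ℂ)) t).eval z‖
        ≤ ∑ t ∈ T, ‖(Polynomial.C (e t) *
          Lagrange.basis T (fun n : ℕ => (n : ℂ)) t).eval z‖ := norm_sum_le _ _
      _ ≤ ∑ t ∈ T, ε * x₀ ^ T.card := Finset.sum_le_sum hterm
      _ = T.card * ε * x₀ ^ T.card := by rw [Finset.sum_const, nsmul_eq_mul]; ring

theorem it_exp_lip (M : ℝ) (u v : ℂ) (hu : u.re ≤ M) (hv : v.re ≤ M) :
    ‖Complex.exp u - Complex.exp v‖ ≤ Real.exp M * ‖u - v‖ := by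
  have hconv : Convex ℝ {z : ℂ | z.re ≤ M} := convex_halfSpace_re_le M
  refine hconv.norm_image_sub_le_of_norm_hasDerivWithin_le (f := Complex.exp) (f' := Complex.exp)
    (fun z _ => (Complex.hasDerivAt_exp z).hasDerivWithinAt) (fun z hz => ?_) hv hu
  rw [Complex.norm_exp]
  exact Real.exp_le_exp.2 hz

theorem iterate_solution (U : Set ℂ) (hU : IsOpen U) (φ₀ : ℂ → ℂ)
    (hφ₀ : DifferentiableOn ℂ φ₀ U) (Q : ℕ) (c : ℕ → ℂ → ℂ)
    (hc : ∀ q ∈ Finset.Icc 1 Q, DifferentiableOn ℂ (c q) U) (W : ℂ → ℝ)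
    (hW : ∀ z ∈ U, W z + 1 ≤ (φ₀ z).re) (lam : ℝ) (h0 : 0 < lam) (h1 : lam ≤ 1 / 2)
    (hb : ∀ z ∈ U, ∑ q ∈ Finset.Icc 1 Q, ‖c q z‖ * (2 * q) * Real.exp (-(2 * q * W z)) ≤ lam)
    (k : ℕ) :
    ∃ φ : ℂ → ℂ, DifferentiableOn ℂ φ U ∧ (∀ z ∈ U, ‖φ z - φ₀ z‖ ≤ lam) ∧
      ∀ z ∈ U, ∀ ψ : ℂ, W z ≤ ψ.re → ∀ ε : ℝ,
        ‖ψ - φ₀ z - ∑ q ∈ Finset.Icc 1 Q, c q z * Complex.exp (-(2 * q * ψ))‖ ≤ ε →
          ‖φ z - ψ‖ ≤ 2 * ε + lam ^ k * ‖φ₀ z - ψ‖ := by
  induction k with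
  | zero =>
    refine ⟨φ₀, hφ₀, fun z _ => by simp [h0.le], fun z _ ψ _ ε h => ?_⟩
    have : 0 ≤ ε := (norm_nonneg _).trans h
    rw [pow_zero, one_mul]
    linarith
  | succ k ih =>
    obtain ⟨φ, hφ, hφl, hφe⟩ := ih
    refine ⟨fun z => φ₀ z + ∑ q ∈ Finset.Icc 1 Q, c q z * Complex.exp (-(2 * q * φ z)),
      ?_, ?_, ?_⟩
    · refine hφ₀.add ?_
      refine DifferentiableOn.fun_sum fun q hq => ?_
      refine (hc q hq).mul ?_
      exact ((hφ.const_mul _).neg).cexp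
    · intro z hz
      have hre : W z ≤ (φ z).re := by
        have h2 := Complex.abs_re_le_norm (φ z - φ₀ z)
        have h3 := hφl z hz
        have h4 := (abs_le.1 (h2.trans h3)).1
        rw [Complex.sub_re] at h4
        linarith [hW z hz]
      have : φ₀ z + ∑ q ∈ Finset.Icc 1 Q, c q z * Complex.exp (-(2 * q * φ z)) - φ₀ z =
          ∑ q ∈ Finset.Icc 1 Q, c q z * Complex.exp (-(2 * q * φ z)) := by ring
      rw [this]
      refine (norm_sum_le _ _).trans ((Finset.sum_le_sum fun q hq => ?_).trans (hb z hz))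
      have hq1 : (1 : ℝ) ≤ q := by exact_mod_cast (Finset.mem_Icc.1 hq).1
      rw [norm_mul, Complex.norm_exp]
      have e1 : (-(2 * (q : ℂ) * φ z)).re = -(2 * q * (φ z).re) := by
        simp [Complex.mul_re]
      rw [e1]
      have e2 : Real.exp (-(2 * q * (φ z).re)) ≤ Real.exp (-(2 * q * W z)) := by
        apply Real.exp_le_exp.2
        have := mul_le_mul_of_nonneg_left hre (show (0 : ℝ) ≤ 2 * q by linarith)
        linarith
      have e3 := Real.exp_pos (-(2 * (q : ℝ) * W z))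
      have e4 : Real.exp (-(2 * q * (φ z).re)) ≤ (2 * q) * Real.exp (-(2 * q * W z)) := by
        nlinarith
      have e5 := mul_le_mul_of_nonneg_left e4 (norm_nonneg (c q z))
      calc _ ≤ _ := e5
        _ = _ := by ring
    · intro z hz ψ hψ ε hε
      have hre : W z ≤ (φ z).re := by
        have h2 := Complex.abs_re_le_norm (φ z - φ₀ z)
        have h3 := hφl z hz
        have h4 := (abs_le.1 (h2.trans h3)).1
        rw [Complex.sub_re] at h4
        linarith [hW z hz]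
      have hprev := hφe z hz ψ hψ ε hε
      have hdiff : ‖∑ q ∈ Finset.Icc 1 Q, c q z * Complex.exp (-(2 * q * φ z)) -
          ∑ q ∈ Finset.Icc 1 Q, c q z * Complex.exp (-(2 * q * ψ))‖ ≤ lam * ‖φ z - ψ‖ := by
        rw [← Finset.sum_sub_distrib]
        refine (norm_sum_le _ _).trans ?_
        refine le_trans ?_ (mul_le_mul_of_nonneg_right (hb z hz) (norm_nonneg (φ z - ψ)))
        rw [Finset.sum_mul]
        refine Finset.sum_le_sum fun q hq => ?_
        have hq1 : (1 : ℝ) ≤ q := by exact_mod_cast (Finset.mem_Icc.1 hq).1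
        rw [← mul_sub, norm_mul]
        have e1 : (-(2 * (q : ℂ) * φ z)).re = -(2 * q * (φ z).re) := by
          simp [Complex.mul_re]
        have e2 : (-(2 * (q : ℂ) * ψ)).re = -(2 * q * ψ.re) := by
          simp [Complex.mul_re]
        have l1 : (-(2 * (q : ℂ) * φ z)).re ≤ -(2 * q * W z) := by
          rw [e1]
          have := mul_le_mul_of_nonneg_left hre (show (0 : ℝ) ≤ 2 * q by linarith)
          linarith
        have l2 : (-(2 * (q : ℂ) * ψ)).re ≤ -(2 * q * W z) := by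
          rw [e2]
          have := mul_le_mul_of_nonneg_left hψ (show (0 : ℝ) ≤ 2 * q by linarith)
          linarith
        have l3 := it_exp_lip _ _ _ l1 l2
        have l4 : ‖-(2 * (q : ℂ) * φ z) - -(2 * (q : ℂ) * ψ)‖ = 2 * q * ‖φ z - ψ‖ := by
          have : -(2 * (q : ℂ) * φ z) - -(2 * (q : ℂ) * ψ) = -((2 * q : ℂ) * (φ z - ψ)) := by ring
          rw [this, norm_neg, norm_mul]
          congr 1
          have : (2 * q : ℂ) = ((2 * q : ℝ) : ℂ) := by push_cast; ring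
          rw [this, Complex.norm_real, Real.norm_eq_abs, abs_of_nonneg (by linarith)]
        rw [l4] at l3
        have l5 := mul_le_mul_of_nonneg_left l3 (norm_nonneg (c q z))
        calc _ ≤ _ := l5
          _ = _ := by ring
      have hsplit : φ₀ z + ∑ q ∈ Finset.Icc 1 Q, c q z * Complex.exp (-(2 * q * φ z)) - ψ =
          -(ψ - φ₀ z - ∑ q ∈ Finset.Icc 1 Q, c q z * Complex.exp (-(2 * q * ψ))) +
          (∑ q ∈ Finset.Icc 1 Q, c q z * Complex.exp (-(2 * q * φ z)) -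
          ∑ q ∈ Finset.Icc 1 Q, c q z * Complex.exp (-(2 * q * ψ))) := by ring
      have hn : ‖φ₀ z + ∑ q ∈ Finset.Icc 1 Q, c q z * Complex.exp (-(2 * q * φ z)) - ψ‖ ≤
          ε + lam * ‖φ z - ψ‖ := by
        rw [hsplit]
        refine (norm_add_le _ _).trans ?_
        rw [norm_neg]
        exact add_le_add hε hdiff
      have hε0 : 0 ≤ ε := (norm_nonneg _).trans hε
      have h5 : lam * ‖φ z - ψ‖ ≤ lam * (2 * ε + lam ^ k * ‖φ₀ z - ψ‖) :=
        mul_le_mul_of_nonneg_left hprev h0.le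
      have h6 : lam * (2 * ε) ≤ ε := by nlinarith
      have h7 : lam * (2 * ε + lam ^ k * ‖φ₀ z - ψ‖) =
        lam * (2 * ε) + lam ^ (k + 1) * ‖φ₀ z - ψ‖ := by ring
      linarith

end Pool.Agent.SG
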