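import Mathlib

/-!
# Power sums as entire functions, with bounds
-/

set_option autoImplicit false

open Finset Metric Set

namespace Pool.Agent.SG

theorem ps_desc (k : ℕ) : ∑ i ∈ Finset.range k, (k + 1).descFactorial i + 1 ≤ (k + 1).factorial := by
  induction k with
  | zero => simp
  | succ k ih =>
    rw [Finset.sum_range_succ', Nat.descFactorial_zero]
    simp_rw [Nat.succ_descFactorial_succ]
    rw [← Finset.mul_sum, Nat.factorial_succ (k + 1)]
    have h1 : (k + 1 + 1) * (∑ i ∈ Finset.range k, (k + 1).descFactorial i + 1) ≤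
        (k + 1 + 1) * (k + 1).factorial := Nat.mul_le_mul_left _ ih
    rw [mul_add] at h1
    omega

theorem ps_bernoulli (k : ℕ) : |bernoulli k| ≤ (k.factorial : ℚ) := by
  induction k using Nat.strong_induction_on with
  | _ k ih =>
    rcases Nat.eq_zero_or_pos k with h | h
    · subst h
      simp
    · have h1 := sum_bernoulli (k + 1)
      rw [if_neg (by omega), Finset.sum_range_succ, Nat.choose_succ_self_right] at h1
      have h2 : ((k + 1 : ℕ) : ℚ) * bernoulli k =
          -∑ i ∈ Finset.range k, ((k + 1).choose i : ℚ) * bernoulli i := by linarith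
      have h3 : |((k + 1 : ℕ) : ℚ) * bernoulli k| ≤ ((k + 1).factorial : ℚ) := by
        rw [h2, abs_neg]
        calc |∑ i ∈ Finset.range k, ((k + 1).choose i : ℚ) * bernoulli i|
            ≤ ∑ i ∈ Finset.range k, |((k + 1).choose i : ℚ) * bernoulli i| :=
              Finset.abs_sum_le_sum_abs _ _
          _ ≤ ∑ i ∈ Finset.range k, ((k + 1).descFactorial i : ℚ) := by
              apply Finset.sum_le_sum
              intro i hi
              rw [Finset.mem_range] at hi
              rw [abs_mul, Nat.abs_cast, Nat.descFactorial_eq_factorial_mul_choose]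
              push_cast
              rw [mul_comm (i.factorial : ℚ)]
              exact mul_le_mul_of_nonneg_left (ih i hi) (Nat.cast_nonneg _)
          _ ≤ ((k + 1).factorial : ℚ) := by
              have := ps_desc k
              have h4 : ∑ i ∈ Finset.range k, (k + 1).descFactorial i ≤ (k + 1).factorial := by
                omega
              exact_mod_cast h4
      rw [abs_mul, Nat.abs_cast, Nat.factorial_succ] at h3
      push_cast at h3
      exact le_of_mul_le_mul_left h3 (by positivity)

/-- the complex Bernoulli polynomial -/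
noncomputable def psB (n : ℕ) : Polynomial ℂ := (Polynomial.bernoulli n).map (algebraMap ℚ ℂ)

theorem ps_one_add (n : ℕ) (x : ℂ) :
    (psB n).eval (1 + x) = (psB n).eval x + n * x ^ (n - 1) := by
  have h := Polynomial.bernoulli_comp_one_add_X n
  have h2 := congrArg (fun P : Polynomial ℚ => (P.map (algebraMap ℚ ℂ)).eval x) h
  simp only [Polynomial.map_comp, Polynomial.map_add, Polynomial.map_one, Polynomial.map_X,
    Polynomial.eval_comp, Polynomial.eval_add, Polynomial.eval_one, Polynomial.eval_X] at h2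
  unfold psB
  rw [h2]
  congr 1
  simp

theorem ps_sum (n m : ℕ) (x : ℂ) :
    (psB n).eval (x + m) = (psB n).eval x + n * ∑ j ∈ Finset.range m, (x + j) ^ (n - 1) := by
  induction m with
  | zero => simp
  | succ m ih =>
    rw [Finset.sum_range_succ, mul_add, ← add_assoc, ← ih]
    have h : x + ((m + 1 : ℕ) : ℂ) = 1 + (x + m) := by
      push_cast
      ring
    rw [h, ps_one_add]

theorem ps_eval (n : ℕ) (x : ℂ) : (psB n).eval x =
    ∑ i ∈ Finset.range (n + 1), ((bernoulli i * (n.choose i : ℚ) : ℚ) : ℂ) * x ^ (n - i) := by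
  unfold psB Polynomial.bernoulli
  rw [Polynomial.map_sum, Polynomial.eval_finsetSum]
  apply Finset.sum_congr rfl
  intro i _
  rw [Polynomial.map_monomial, Polynomial.eval_monomial]
  rfl

theorem ps_bound {n : ℕ} {R : ℝ} (hn : (n : ℝ) ≤ R) {x : ℂ} (hx : ‖x‖ ≤ R) :
    ‖(psB n).eval x‖ ≤ (n + 1) * R ^ n := by
  have hR : 0 ≤ R := (Nat.cast_nonneg n).trans hn
  rw [ps_eval]
  calc ‖∑ i ∈ Finset.range (n + 1), ((bernoulli i * (n.choose i : ℚ) : ℚ) : ℂ) * x ^ (n - i)‖
      ≤ ∑ i ∈ Finset.range (n + 1), ‖((bernoulli i * (n.choose i : ℚ) : ℚ) : ℂ) * x ^ (n - i)‖ :=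
        norm_sum_le _ _
    _ ≤ ∑ i ∈ Finset.range (n + 1), R ^ n := by
        apply Finset.sum_le_sum
        intro i hi
        rw [Finset.mem_range] at hi
        rw [norm_mul, norm_pow]
        have h1 : ‖((bernoulli i * (n.choose i : ℚ) : ℚ) : ℂ)‖ ≤ R ^ i := by
          have h2 : ‖((bernoulli i * (n.choose i : ℚ) : ℚ) : ℂ)‖ =
              ((|bernoulli i * (n.choose i : ℚ)| : ℚ) : ℝ) := by
            rw [← Complex.ofReal_ratCast, Complex.norm_real, Real.norm_eq_abs]
            push_cast
            rfl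
          rw [h2]
          have h3 : |bernoulli i * (n.choose i : ℚ)| ≤ ((n ^ i : ℕ) : ℚ) := by
            rw [abs_mul, Nat.abs_cast]
            calc |bernoulli i| * (n.choose i : ℚ) ≤ (i.factorial : ℚ) * (n.choose i : ℚ) :=
                  mul_le_mul_of_nonneg_right (ps_bernoulli i) (Nat.cast_nonneg _)
              _ = ((n.descFactorial i : ℕ) : ℚ) := by
                  rw [Nat.descFactorial_eq_factorial_mul_choose]
                  push_cast
                  rfl
              _ ≤ ((n ^ i : ℕ) : ℚ) := by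
                  exact_mod_cast Nat.descFactorial_le_pow n i
          calc ((|bernoulli i * (n.choose i : ℚ)| : ℚ) : ℝ) ≤ (((n ^ i : ℕ) : ℚ) : ℝ) := by
                exact_mod_cast h3
            _ = (n : ℝ) ^ i := by
                push_cast
                rfl
            _ ≤ R ^ i := pow_le_pow_left₀ (Nat.cast_nonneg _) hn i
        calc ‖((bernoulli i * (n.choose i : ℚ) : ℚ) : ℂ)‖ * ‖x‖ ^ (n - i)
            ≤ R ^ i * R ^ (n - i) := by
              apply mul_le_mul h1 (pow_le_pow_left₀ (norm_nonneg _) hx _) (by positivity)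
                (by positivity)
          _ = R ^ n := by
              rw [← pow_add]
              congr 1
              omega
    _ = (n + 1) * R ^ n := by
        rw [Finset.sum_const, Finset.card_range, nsmul_eq_mul]
        push_cast
        rfl

theorem exists_powerSum : ∃ S : ℕ → ℂ → ℂ, (∀ q, Differentiable ℂ (S q)) ∧
    (∀ q m : ℕ, S q m = ∑ j ∈ Finset.range m, (((m : ℂ) - 1) / 2 - j) ^ (2 * q)) ∧
    (∀ (q : ℕ) (R : ℝ) (z : ℂ), 1 ≤ q → (2 * q + 1 : ℝ) ≤ R → ‖z‖ ≤ R →
      ‖S q z‖ ≤ (100 * R) ^ (2 * q + 1)) := by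
  refine ⟨fun q z => ((psB (2 * q + 1)).eval ((z + 1) / 2) -
    (psB (2 * q + 1)).eval ((1 - z) / 2)) / ((2 * q + 1 : ℕ) : ℂ), ?_, ?_, ?_⟩
  · intro q
    apply Differentiable.div_const
    apply Differentiable.sub
    · exact (psB (2 * q + 1)).differentiable.comp (by fun_prop)
    · exact (psB (2 * q + 1)).differentiable.comp (by fun_prop)
  · intro q m
    simp only
    have h1 := ps_sum (2 * q + 1) m ((1 - (m : ℂ)) / 2)
    have h2 : (1 - (m : ℂ)) / 2 + m = ((m : ℂ) + 1) / 2 := by ring
    rw [h2] at h1
    rw [h1, add_sub_cancel_left, Nat.add_sub_cancel, mul_div_cancel_left₀]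
    · apply Finset.sum_congr rfl
      intro j _
      have h3 : (1 - (m : ℂ)) / 2 + j = -(((m : ℂ) - 1) / 2 - j) := by ring
      rw [h3, Even.neg_pow (even_two_mul q)]
    · exact_mod_cast Nat.succ_ne_zero (2 * q)
  · intro q R z hq hR hz
    simp only
    have hR1 : (1 : ℝ) ≤ R := by
      have : (1 : ℝ) ≤ q := by exact_mod_cast hq
      linarith
    have hR0 : 0 ≤ R := by linarith
    have hn : ((2 * q + 1 : ℕ) : ℝ) ≤ R := by
      push_cast
      exact hR
    have hx1 : ‖(z + 1) / 2‖ ≤ R := by
      rw [norm_div, Complex.norm_ofNat, div_le_iff₀ (by norm_num)]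
      have := norm_add_le z 1
      rw [norm_one] at this
      linarith
    have hx2 : ‖(1 - z) / 2‖ ≤ R := by
      rw [norm_div, Complex.norm_ofNat, div_le_iff₀ (by norm_num)]
      have := norm_sub_le 1 z
      rw [norm_one] at this
      linarith
    have h1 := ps_bound hn hx1
    have h2 := ps_bound hn hx2
    set n := 2 * q + 1 with hndef
    have hn1 : (1 : ℝ) ≤ n := by exact_mod_cast (by omega : 1 ≤ n)
    rw [norm_div, Complex.norm_natCast, div_le_iff₀ (by linarith)]
    have h3 := norm_sub_le ((psB n).eval ((z + 1) / 2)) ((psB n).eval ((1 - z) / 2))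
    have h4 : (100 : ℝ) ^ 1 ≤ 100 ^ n := pow_le_pow_right₀ (by norm_num) (by omega)
    have h5 : (0 : ℝ) ≤ R ^ n := pow_nonneg hR0 n
    rw [mul_pow]
    have h6 : ((n : ℝ) + 1) * R ^ n ≤ 2 * n * R ^ n := by
      apply mul_le_mul_of_nonneg_right _ h5
      linarith
    have h7 : 100 * R ^ n * n ≤ 100 ^ n * R ^ n * n := by
      apply mul_le_mul_of_nonneg_right _ (by linarith)
      apply mul_le_mul_of_nonneg_right _ h5
      linarith
    have h8 : 0 ≤ (n : ℝ) * R ^ n := by positivity
    nlinarith

end Pool.Agent.SG
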