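import Mathlib
import Pool.Agent.SG.LogGamma
import Pool.Agent.SG.PowerSum
import Pool.Agent.SG.Expansion
import Pool.Agent.SG.Iterate

open Finset Metric Set

namespace Pool.Agent.SG

/-! ### auxiliary estimates -/

theorem ef_exp_two_pow (n : ℕ) (x : ℝ) (h : (n : ℝ) ≤ x) : (2 : ℝ) ^ n ≤ Real.exp x := by
  have h1 : (2 : ℝ) ≤ Real.exp 1 := by have := Real.add_one_le_exp (1 : ℝ); linarith
  calc (2 : ℝ) ^ n ≤ (Real.exp 1) ^ n := pow_le_pow_left₀ (by norm_num) h1 n
    _ = Real.exp n := by rw [← Real.exp_nat_mul, mul_one]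
    _ ≤ Real.exp x := Real.exp_le_exp.2 h

theorem ef_log_le (x a : ℝ) (hx : 0 < x) (ha : 0 < a) : Real.log x ≤ x / a - 1 + Real.log a := by
  have h1 := Real.log_le_sub_one_of_pos (div_pos hx ha)
  rw [Real.log_div hx.ne' ha.ne'] at h1
  linarith

theorem ef_log_le_nat (n : ℕ) (x : ℝ) (hx : 0 < x) (h : x ≤ 2 ^ n) : Real.log x ≤ n := by
  have h1 : Real.log x ≤ Real.log (2 ^ n) := Real.log_le_log hx h
  rw [Real.log_pow] at h1
  have h2 : Real.log 2 ≤ 1 := by
    have := Real.log_le_sub_one_of_pos (show (0 : ℝ) < 2 by norm_num)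
    linarith
  have h3 : (n : ℝ) * Real.log 2 ≤ n * 1 := mul_le_mul_of_nonneg_left h2 (Nat.cast_nonneg n)
  linarith

/-- bounds for the real part of `1 / z` in a disc -/
theorem ef_inv_re (x₀ ρ : ℝ) (hρ : 0 ≤ ρ) (hρx : ρ < x₀) (z : ℂ) (hz : ‖z - x₀‖ ≤ ρ) :
    x₀ - ρ ≤ z.re ∧ x₀ - ρ ≤ ‖z‖ ∧ ‖z‖ ≤ x₀ + ρ ∧ z ≠ 0 ∧
      1 / (x₀ + ρ) ≤ (1 / z).re ∧ (1 / z).re ≤ 1 / (x₀ - ρ) := by
  have hx : 0 < x₀ := lt_of_le_of_lt hρ hρx
  have h1 : |(z - x₀).re| ≤ ρ := (Complex.abs_re_le_norm _).trans hz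
  have h2 : (z - x₀).re = z.re - x₀ := by simp
  rw [h2, abs_le] at h1
  have h3 : x₀ - ρ ≤ z.re := by linarith [h1.1]
  have h4 : z.re ≤ x₀ + ρ := by linarith [h1.2]
  have hre : 0 < z.re := lt_of_lt_of_le (by linarith) h3
  have hz0 : z ≠ 0 := by
    rintro rfl
    simp at hre
  have h5 : z.re ≤ ‖z‖ := Complex.re_le_norm z
  have h6 : ‖z‖ ≤ x₀ + ρ := by
    calc ‖z‖ = ‖(x₀ : ℂ) + (z - x₀)‖ := by ring_nf
      _ ≤ ‖(x₀ : ℂ)‖ + ‖z - x₀‖ := norm_add_le _ _
      _ ≤ x₀ + ρ := by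
        rw [Complex.norm_real, Real.norm_eq_abs, abs_of_pos hx]
        linarith
  have hns : Complex.normSq z = ‖z‖ ^ 2 := Complex.normSq_eq_norm_sq z
  have hre1 : (1 / z).re = z.re / Complex.normSq z := by
    rw [one_div, Complex.inv_re]
  have hnpos : 0 < Complex.normSq z := Complex.normSq_pos.2 hz0
  have h7 : Complex.normSq z = z.re ^ 2 + z.im ^ 2 := by
    rw [Complex.normSq_apply]; ring
  have h8 : (z.re - x₀) ^ 2 + z.im ^ 2 ≤ ρ ^ 2 := by
    have : Complex.normSq (z - x₀) ≤ ρ ^ 2 := by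
      rw [Complex.normSq_eq_norm_sq]
      exact pow_le_pow_left₀ (norm_nonneg _) hz 2
    rw [Complex.normSq_apply] at this
    simp at this
    nlinarith
  refine ⟨h3, h3.trans h5, h6, hz0, ?_, ?_⟩
  · rw [hre1, div_le_div_iff₀ (by linarith) hnpos, one_mul, h7]
    nlinarith [mul_nonneg (sub_nonneg.2 hρx.le) (sub_nonneg.2 h4)]
  · rw [hre1, div_le_div_iff₀ hnpos (by linarith), one_mul, h7]
    nlinarith [mul_nonneg hre.le (sub_nonneg.2 h3), sq_nonneg z.im]

theorem ef_geom (Q : ℕ) : ∑ q ∈ Finset.Icc 1 Q, (1 / 2 : ℝ) ^ q ≤ 1 := by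
  have h : ∑ q ∈ Finset.Icc 1 Q, (1 / 2 : ℝ) ^ q = 1 - (1 / 2) ^ Q := by
    induction Q with
    | zero => simp
    | succ n ih =>
      rw [Finset.sum_Icc_succ_top (by omega), ih, pow_succ]
      ring
  rw [h]
  have : (0 : ℝ) ≤ (1 / 2) ^ Q := by positivity
  linarith

theorem ef_term (x₀ L l : ℝ) (hx : 1000000 ≤ x₀) (hl : 480 ≤ l) (hL : L = l * x₀) (z : ℂ)
    (hz : ‖z - x₀‖ ≤ 19 / 20 * x₀) (s : ℝ) (q : ℕ) (hq : 1 ≤ q)
    (hs : s ≤ (100 * (39 / 20 * x₀)) ^ (2 * q + 1)) :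
    s / ‖z‖ * Real.exp (-(2 * q * (L * (1 / z).re + Real.log ‖z‖ - 3)))
      ≤ Real.exp (-(9 / 10 * l)) * (1 / 2) ^ q := by
  obtain ⟨-, h2, h3, hz0, h4, -⟩ := ef_inv_re x₀ (19 / 20 * x₀) (by linarith) (by linarith) z hz
  have hx0 : 0 < x₀ := by linarith
  have hn : 0 < ‖z‖ := norm_pos_iff.2 hz0
  have h4' : 20 / 39 / x₀ ≤ (1 / z).re := by
    refine le_trans (le_of_eq ?_) h4
    field_simp
    norm_num
  have hLre : 20 / 39 * l ≤ L * (1 / z).re := by
    have : L * (20 / 39 / x₀) ≤ L * (1 / z).re :=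
      mul_le_mul_of_nonneg_left h4' (by rw [hL]; positivity)
    refine le_trans (le_of_eq ?_) this
    rw [hL]
    field_simp
  set A : ℝ := 100 * (39 / 20 * x₀) / ‖z‖ with hA
  have hA0 : 0 < A := by positivity
  have hA1 : A ≤ 3900 := by
    rw [hA, div_le_iff₀ hn]
    nlinarith
  set E : ℝ := Real.exp (-(2 * (L * (1 / z).re)) + 6) with hE
  have hE0 : 0 < E := Real.exp_pos _
  have hE1 : E ≤ Real.exp (-(40 / 39 * l) + 6) := by
    apply Real.exp_le_exp.2
    linarith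
  have hkey : (100 * (39 / 20 * x₀)) ^ (2 * q + 1) / ‖z‖ *
      Real.exp (-(2 * q * (L * (1 / z).re + Real.log ‖z‖ - 3))) = A * (A ^ 2 * E) ^ q := by
    have e1 : Real.exp (-(2 * q * (L * (1 / z).re + Real.log ‖z‖ - 3))) =
        E ^ q * (‖z‖ ^ (2 * q))⁻¹ := by
      have : -(2 * q * (L * (1 / z).re + Real.log ‖z‖ - 3)) =
          q * (-(2 * (L * (1 / z).re)) + 6) + -((2 * q : ℕ) * Real.log ‖z‖) := by
        push_cast; ring
      rw [this, Real.exp_add, Real.exp_nat_mul, Real.exp_neg, Real.exp_nat_mul, Real.exp_log hn]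
    have e2 : A * (A ^ 2 * E) ^ q = A ^ (2 * q + 1) * E ^ q := by
      rw [mul_pow (A ^ 2) E q, ← pow_mul, pow_succ]
      ring
    rw [e1, e2, hA, div_pow, pow_succ ‖z‖ (2 * q)]
    field_simp
  have h5 : s / ‖z‖ * Real.exp (-(2 * q * (L * (1 / z).re + Real.log ‖z‖ - 3))) ≤
      A * (A ^ 2 * E) ^ q := by
    rw [← hkey]
    exact mul_le_mul_of_nonneg_right (div_le_div_of_nonneg_right hs hn.le) (Real.exp_pos _).le
  refine h5.trans ?_
  set B : ℝ := 3900 ^ 2 * Real.exp (-(40 / 39 * l) + 6) with hB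
  have hB0 : 0 < B := by positivity
  have h6 : A * (A ^ 2 * E) ^ q ≤ 3900 * B ^ q := by
    apply mul_le_mul hA1 _ (by positivity) (by norm_num)
    apply pow_le_pow_left₀ (by positivity)
    exact mul_le_mul (pow_le_pow_left₀ hA0.le hA1 2) hE1 hE0.le (by norm_num)
  refine h6.trans ?_
  have h7 : 7800 * B ≤ Real.exp (-(9 / 10 * l)) := by
    have e1 : (2 : ℝ) ^ 54 ≤ Real.exp (49 / 390 * l - 6) := by
      apply ef_exp_two_pow
      push_cast
      linarith
    have e2 : Real.exp (-(9 / 10 * l)) =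
        Real.exp (49 / 390 * l - 6) * Real.exp (-(40 / 39 * l) + 6) := by
      rw [← Real.exp_add]
      congr 1
      ring
    rw [e2, hB, ← mul_assoc]
    apply mul_le_mul_of_nonneg_right _ (Real.exp_pos _).le
    refine le_trans ?_ e1
    norm_num
  have h8 : 2 * B ≤ 1 := by
    have : Real.exp (-(9 / 10 * l)) ≤ 1 := Real.exp_le_one_iff.2 (by linarith)
    linarith
  have h9 : 3900 * B ^ q = 3900 * (2 * B) ^ q * (1 / 2) ^ q := by
    rw [mul_assoc, ← mul_pow]
    congr 2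
    ring
  rw [h9]
  apply mul_le_mul_of_nonneg_right _ (by positivity)
  obtain ⟨k, rfl⟩ := Nat.exists_eq_add_of_le' hq
  rw [pow_succ]
  have h10 : (2 * B) ^ k ≤ 1 := pow_le_one₀ (by positivity) h8
  calc 3900 * ((2 * B) ^ k * (2 * B)) ≤ 3900 * (1 * (2 * B)) := by
        apply mul_le_mul_of_nonneg_left _ (by norm_num)
        exact mul_le_mul_of_nonneg_right h10 (by positivity)
    _ = 7800 * B := by ring
    _ ≤ _ := h7

theorem ef_phi0 (x₀ L : ℝ) (hx : 1000000 ≤ x₀) (g : ℂ → ℂ)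
    (hg : ∀ z : ℂ, 1 < z.re → ‖g z - (z * Complex.log z - z)‖ ≤ Real.log ‖z‖ + 3) (z : ℂ)
    (hz : ‖z - x₀‖ ≤ 19 / 20 * x₀) :
    |((L + g z) / z).re - (L * (1 / z).re + Real.log ‖z‖ - 1)| ≤ 1 / 1000 := by
  obtain ⟨h1, h2, h3, hz0, -, -⟩ := ef_inv_re x₀ (19 / 20 * x₀) (by linarith) (by linarith) z hz
  have hn : 0 < ‖z‖ := norm_pos_iff.2 hz0
  have h4 : (L + g z) / z - ((L : ℂ) * (1 / z) + Complex.log z - 1) =
      (g z - (z * Complex.log z - z)) / z := by
    field_simp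
    ring
  have h5 : ‖(L + g z) / z - ((L : ℂ) * (1 / z) + Complex.log z - 1)‖ ≤ 1 / 1000 := by
    rw [h4, norm_div, div_le_iff₀ hn]
    refine (hg z (by linarith)).trans ?_
    have h6 := ef_log_le ‖z‖ 5000 hn (by norm_num)
    have h7 := ef_log_le_nat 13 5000 (by norm_num) (by norm_num)
    have h8 : 50000 ≤ ‖z‖ := by linarith
    push_cast at h7
    linarith
  have h6 : ((L : ℂ) * (1 / z) + Complex.log z - 1).re = L * (1 / z).re + Real.log ‖z‖ - 1 := by
    rw [Complex.sub_re, Complex.add_re, Complex.re_ofReal_mul, Complex.log_re, Complex.one_re]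
  rw [← h6, ← Complex.sub_re]
  exact (Complex.abs_re_le_norm _).trans h5

theorem ef_size (x₀ L l : ℝ) (hx : 1000000 ≤ x₀) (hl : 480 ≤ l) (hL : L = l * x₀) (t n : ℕ)
    (ht : |(t : ℝ) - x₀| ≤ x₀ / 1000) (hn : 2 * t ≤ n) (hc : Real.log (n.choose t) = L) (v : ℝ)
    (hv : v = n - ((t : ℝ) - 1) / 2) :
    1 ≤ t ∧ 0 < v ∧ L / t + Real.log t - 2 ≤ Real.log v ∧
      (t : ℝ) ^ 2 / (4 * v ^ 2) ≤ Real.exp (-(19 / 10 * l)) ∧
      4 * v ≤ x₀ * Real.exp (5 * l) := by
  rw [abs_le] at ht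
  have ht1 : 999 / 1000 * x₀ ≤ t := by linarith [ht.1]
  have ht2 : (t : ℝ) ≤ 1001 / 1000 * x₀ := by linarith [ht.2]
  have ht0 : (0 : ℝ) < t := by linarith
  have htn : 1 ≤ t := by exact_mod_cast ht0
  have hnR : 2 * (t : ℝ) ≤ n := by exact_mod_cast hn
  have hn0 : (0 : ℝ) < n := by linarith
  obtain ⟨h1, h2⟩ := choose_size t n htn (by omega)
  rw [hc] at h1 h2
  have hlog : Real.log ((n : ℝ) / t) = Real.log n - Real.log t := Real.log_div hn0.ne' ht0.ne'
  have h3 : Real.log ((n : ℝ) / t) ≤ L / t := by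
    rw [le_div_iff₀ ht0]
    linarith
  have h4 : L / t ≤ Real.log ((n : ℝ) / t) + 1 := by
    rw [div_le_iff₀ ht0]
    linarith
  have hlt1 : 499 / 500 * l ≤ L / t := by
    rw [le_div_iff₀ ht0, hL]
    nlinarith
  have hlt2 : L / t ≤ 2 * l := by
    rw [div_le_iff₀ ht0, hL]
    nlinarith
  have h5 : (n : ℝ) = t * Real.exp (Real.log ((n : ℝ) / t)) := by
    rw [Real.exp_log (by positivity)]
    field_simp
  have hvle : v ≤ n := by
    rw [hv]
    have : (1 : ℝ) ≤ t := by exact_mod_cast htn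
    linarith
  have hvge : (n : ℝ) - t / 2 ≤ v := by
    rw [hv]
    linarith
  have hv0 : 0 < v := by linarith
  have h6 : (t : ℝ) * Real.exp (L / t - 1) ≤ n := by
    rw [h5]
    apply mul_le_mul_of_nonneg_left _ ht0.le
    apply Real.exp_le_exp.2
    linarith
  have h7 : (t : ℝ) * Real.exp (L / t - 2) ≤ v := by
    refine le_trans ?_ hvge
    have e1 : Real.exp (L / t - 1) = Real.exp (L / t - 2) * Real.exp 1 := by
      rw [← Real.exp_add]
      congr 1
      ring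
    have e2 : (2 : ℝ) ≤ Real.exp 1 := by have := Real.add_one_le_exp (1 : ℝ); linarith
    have e3 : (1 : ℝ) ≤ Real.exp (L / t - 2) := Real.one_le_exp (by linarith)
    have e4 : Real.exp (L / t - 2) + 1 / 2 ≤ Real.exp (L / t - 1) := by
      rw [e1]
      nlinarith
    nlinarith
  refine ⟨htn, hv0, ?_, ?_, ?_⟩
  · have h8 := Real.log_le_log (by positivity) h7
    rw [Real.log_mul ht0.ne' (Real.exp_pos _).ne', Real.log_exp] at h8
    linarith
  · have h8 : ((t : ℝ) * Real.exp (L / t - 2)) ^ 2 ≤ v ^ 2 := pow_le_pow_left₀ (by positivity) h7 2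
    have h9 : Real.exp (L / t - 2) ^ 2 = Real.exp (2 * (L / t - 2)) := by
      rw [← Real.exp_nat_mul]
      push_cast
      rfl
    rw [mul_pow, h9] at h8
    rw [div_le_iff₀ (by positivity)]
    have h10 : (t : ℝ) ^ 2 ≤ Real.exp (-(2 * (L / t - 2))) * v ^ 2 := by
      have := mul_le_mul_of_nonneg_left h8 (Real.exp_pos (-(2 * (L / t - 2)))).le
      refine le_trans (le_of_eq ?_) this
      rw [mul_left_comm, ← Real.exp_add, neg_add_cancel, Real.exp_zero, mul_one]
    refine h10.trans ?_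
    have h11 : Real.exp (-(2 * (L / t - 2))) ≤ Real.exp (-(19 / 10 * l)) := by
      apply Real.exp_le_exp.2
      linarith
    have h12 : 0 ≤ Real.exp (-(19 / 10 * l)) * v ^ 2 := by positivity
    nlinarith [mul_le_mul_of_nonneg_right h11 (sq_nonneg v)]
  · have h8 : (n : ℝ) ≤ t * Real.exp (2 * l) := by
      rw [h5]
      apply mul_le_mul_of_nonneg_left _ ht0.le
      apply Real.exp_le_exp.2
      linarith
    have h9 : Real.exp (5 * l) = Real.exp (2 * l) * Real.exp (3 * l) := by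
      rw [← Real.exp_add]
      congr 1
      ring
    have h10 : (8 : ℝ) ≤ Real.exp (3 * l) := by
      have := ef_exp_two_pow 3 (3 * l) (by push_cast; linarith)
      linarith
    rw [h9]
    have h11 : 4 * v ≤ 8 * x₀ * Real.exp (2 * l) := by
      have : (t : ℝ) * Real.exp (2 * l) ≤ 2 * x₀ * Real.exp (2 * l) :=
        mul_le_mul_of_nonneg_right (by linarith) (Real.exp_pos _).le
      linarith
    refine h11.trans ?_
    have h12 : 0 ≤ x₀ * Real.exp (2 * l) := by positivity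
    nlinarith [mul_le_mul_of_nonneg_left h10 h12]

/-- the defect of the exact solution at an integer -/
theorem ef_defect (L : ℝ) (g : ℂ → ℂ) (S : ℕ → ℂ → ℂ)
    (hg : ∀ m : ℕ, 2 ≤ m → g m = (Real.log (m.factorial : ℝ) : ℂ))
    (hS : ∀ q m : ℕ, S q m = ∑ j ∈ Finset.range m, (((m : ℂ) - 1) / 2 - j) ^ (2 * q))
    (Q t n : ℕ) (ht : 2 ≤ t) (hn : 2 * t ≤ n) (hc : Real.log (n.choose t) = L) (v : ℝ)
    (hv : v = n - ((t : ℝ) - 1) / 2) (hv0 : 0 < v) :
    ‖((Real.log v : ℝ) : ℂ) - (L + g t) / t - ∑ q ∈ Finset.Icc 1 Q, S q t / (2 * q * t) *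
      Complex.exp (-(2 * q * ((Real.log v : ℝ) : ℂ)))‖ ≤ ((t : ℝ) ^ 2 / (4 * v ^ 2)) ^ (Q + 1) := by
  have ht0 : (0 : ℝ) < t := by
    have : 0 < t := by omega
    exact_mod_cast this
  have h1 := exact_expansion t n Q (by omega) hn v hv
  rw [hc] at h1
  set a : ℕ → ℝ := fun q => ∑ j ∈ Finset.range t, (((t : ℝ) - 1) / 2 - j) ^ (2 * q) with ha
  have h2 : ((Real.log v : ℝ) : ℂ) - (L + g t) / t - ∑ q ∈ Finset.Icc 1 Q, S q t / (2 * q * t) *
      Complex.exp (-(2 * q * ((Real.log v : ℝ) : ℂ))) =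
      ((((t : ℝ) * Real.log v - ∑ q ∈ Finset.Icc 1 Q, a q / (2 * q * v ^ (2 * q))
        - (L + Real.log (t.factorial))) / t : ℝ) : ℂ) := by
    rw [hg t ht]
    have h3 : ∀ q ∈ Finset.Icc 1 Q, S q t / (2 * q * t) *
      Complex.exp (-(2 * q * ((Real.log v : ℝ) : ℂ))) =
        ((a q / (2 * q * v ^ (2 * q)) / t : ℝ) : ℂ) := by
      intro q hq
      have hq1 : 1 ≤ q := (Finset.mem_Icc.1 hq).1
      have hq0 : (q : ℂ) ≠ 0 := by
        have : q ≠ 0 := by omega
        exact_mod_cast this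
      have e1 : S q t = (a q : ℂ) := by
        rw [hS, ha]
        push_cast
        rfl
      have e2 : Complex.exp (-(2 * q * ((Real.log v : ℝ) : ℂ))) = (((v ^ (2 * q))⁻¹ : ℝ) : ℂ) := by
        have : -(2 * (q : ℂ) * ((Real.log v : ℝ) : ℂ)) = ((-((2 * q : ℕ) * Real.log v) : ℝ) : ℂ) := by
          push_cast
          ring
        rw [this, ← Complex.ofReal_exp, Real.exp_neg, Real.exp_nat_mul, Real.exp_log hv0]
      have hv1 : (v : ℂ) ≠ 0 := by exact_mod_cast hv0.ne'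
      have ht1 : (t : ℂ) ≠ 0 := by exact_mod_cast ht0.ne'
      rw [e1, e2]
      push_cast
      field_simp
    rw [Finset.sum_congr rfl h3]
    have ht1 : (t : ℂ) ≠ 0 := by exact_mod_cast ht0.ne'
    push_cast
    rw [← Finset.sum_div]
    field_simp
    ring
  rw [h2, Complex.norm_real, Real.norm_eq_abs, abs_div, abs_of_pos ht0, div_le_iff₀ ht0]
  rw [mul_comm _ (t : ℝ)]
  exact h1

theorem ef_corr (x₀ l : ℝ) (hx : 1000000 ≤ x₀) (hl : 480 ≤ l) (N Q : ℕ)
    (hN : (N : ℝ) ≤ 401 * l) (hQ : 500 * Real.log (2 * x₀) ≤ Q) :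
    (N : ℝ) * (x₀ * Real.exp (-(17 / 20 * l * Q))) * x₀ ^ N ≤ 1 := by
  have hx0 : 0 < x₀ := by linarith
  have hΛ : 1 ≤ Real.log (2 * x₀) := by
    rw [Real.le_log_iff_exp_le (by linarith)]
    have := Real.exp_one_lt_d9
    linarith
  set Λ := Real.log (2 * x₀) with hΛd
  have hlx : Real.log x₀ ≤ Λ := Real.log_le_log hx0 (by linarith)
  have hlx0 : 0 ≤ Real.log x₀ := Real.log_nonneg (by linarith)
  have h1 : (N : ℝ) ≤ Real.exp (l + 9) := by
    rw [Real.exp_add]
    have e1 := ef_exp_two_pow 9 9 (by norm_num)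
    have e2 : l ≤ Real.exp l := by have := Real.add_one_le_exp l; linarith
    have e3 : (401 : ℝ) ≤ Real.exp 9 := by norm_num at e1; linarith
    nlinarith [Real.exp_pos l, Real.exp_pos (9 : ℝ)]
  have h2 : x₀ ^ N ≤ Real.exp (401 * l * Λ) := by
    have e1 : x₀ ^ N = Real.exp (N * Real.log x₀) := by
      rw [Real.exp_nat_mul, Real.exp_log hx0]
    rw [e1]
    apply Real.exp_le_exp.2
    exact mul_le_mul hN hlx hlx0 (by positivity)
  have h3 : x₀ ≤ Real.exp Λ := by
    rw [hΛd, Real.exp_log (by linarith)]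
    linarith
  calc (N : ℝ) * (x₀ * Real.exp (-(17 / 20 * l * Q))) * x₀ ^ N
      ≤ Real.exp (l + 9) * (Real.exp Λ * Real.exp (-(17 / 20 * l * Q))) *
        Real.exp (401 * l * Λ) := by
        have := (Real.exp_pos (-(17 / 20 * l * Q))).le
        have h4 := mul_le_mul_of_nonneg_right h3 this
        have h5 : (N : ℝ) * (x₀ * Real.exp (-(17 / 20 * l * Q))) ≤
            Real.exp (l + 9) * (Real.exp Λ * Real.exp (-(17 / 20 * l * Q))) :=
          mul_le_mul h1 h4 (by positivity) (by positivity)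
        exact mul_le_mul h5 h2 (by positivity) (by positivity)
    _ = Real.exp (l + 9 + (Λ + -(17 / 20 * l * Q)) + 401 * l * Λ) := by
        rw [← Real.exp_add Λ, ← Real.exp_add, ← Real.exp_add]
    _ ≤ 1 := by
        rw [Real.exp_le_one_iff]
        have h6 : 17 / 20 * l * (500 * Λ) ≤ 17 / 20 * l * Q :=
          mul_le_mul_of_nonneg_left hQ (by linarith)
        have h7 : l ≤ l * Λ := by nlinarith
        have h8 : Λ ≤ l * Λ := by nlinarith
        nlinarith

theorem ef_small (x₀ l v : ℝ) (hx : 1000000 ≤ x₀) (hl : 480 ≤ l) (Q : ℕ)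
    (hQ : 500 * Real.log (2 * x₀) ≤ Q) (hv : 4 * v ≤ x₀ * Real.exp (5 * l)) :
    v * (4 * Real.exp (-(9 / 10 * l * Q))) ≤ x₀ * Real.exp (-(17 / 20 * l * Q)) := by
  have hΛ : 1 ≤ Real.log (2 * x₀) := by
    rw [Real.le_log_iff_exp_le (by linarith)]
    have := Real.exp_one_lt_d9
    linarith
  have hQ1 : (500 : ℝ) ≤ Q := by linarith
  calc v * (4 * Real.exp (-(9 / 10 * l * Q))) = 4 * v * Real.exp (-(9 / 10 * l * Q)) := by ring
    _ ≤ x₀ * Real.exp (5 * l) * Real.exp (-(9 / 10 * l * Q)) :=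
        mul_le_mul_of_nonneg_right hv (Real.exp_pos _).le
    _ = x₀ * Real.exp (5 * l + -(9 / 10 * l * Q)) := by rw [Real.exp_add]; ring
    _ ≤ x₀ * Real.exp (-(17 / 20 * l * Q)) := by
        apply mul_le_mul_of_nonneg_left _ (by linarith)
        apply Real.exp_le_exp.2
        nlinarith

theorem ext_function (x₀ L : ℝ) (hx : 1000000 ≤ x₀) (hl : 480 * x₀ ≤ L) (T : Finset ℕ)
    (y : ℕ → ℕ) (hT : ∀ t ∈ T, |(t : ℝ) - x₀| ≤ x₀ / 1000) (hTc : (T.card : ℝ) * x₀ ≤ 401 * L)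
    (hy : ∀ t ∈ T, 2 * t ≤ y t ∧ Real.log ((y t).choose t) = L) :
    ∃ f : ℂ → ℂ, DifferentiableOn ℂ f (Metric.ball (x₀ : ℂ) (19 / 20 * x₀)) ∧
      (∀ t ∈ T, f t = y t) ∧
      (∀ z : ℂ, ‖z - x₀‖ ≤ 9 / 10 * x₀ → ‖f z‖ ≤ x₀ * Real.exp (10 * (L / x₀) + 5)) ∧
      (∀ z : ℂ, ‖z - x₀‖ ≤ 1 / 2 * x₀ → ‖f z‖ ≤ x₀ * Real.exp (2 * (L / x₀) + 5)) ∧
      (∀ x : ℝ, 3 / 20 * x₀ ≤ x → x ≤ x₀ →
        x₀ * Real.exp (L / x - 5) ≤ ‖f x‖ ∧ ‖f x‖ ≤ x₀ * Real.exp (L / x + 5)) := by
  classical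
  have hx0 : 0 < x₀ := by linarith
  obtain ⟨g, hgd, hgm, hgb⟩ := exists_logGamma
  obtain ⟨S, hSd, hSm, hSb⟩ := exists_powerSum
  set l : ℝ := L / x₀ with hldef
  have hL : L = l * x₀ := by rw [hldef]; field_simp
  have hl' : 480 ≤ l := by rw [hldef, le_div_iff₀ hx0]; exact hl
  have hL0 : 0 < L := by linarith
  set U : Set ℂ := Metric.ball (x₀ : ℂ) (19 / 20 * x₀) with hU
  have hUmem : ∀ z ∈ U, ‖z - x₀‖ ≤ 19 / 20 * x₀ := by
    intro z hz
    rw [hU, Metric.mem_ball, dist_eq_norm] at hz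
    exact hz.le
  have hUz : ∀ z ∈ U, z ≠ 0 ∧ 1 < z.re := by
    intro z hz
    obtain ⟨h1, -, -, h2, -, -⟩ := ef_inv_re x₀ (19 / 20 * x₀) (by linarith) (by linarith) z
      (hUmem z hz)
    exact ⟨h2, by linarith⟩
  set φ₀ : ℂ → ℂ := fun z => (L + g z) / z with hφ₀
  set c : ℕ → ℂ → ℂ := fun q z => S q z / (2 * q * z) with hc
  set W : ℂ → ℝ := fun z => L * (1 / z).re + Real.log ‖z‖ - 3 with hW
  set Q : ℕ := ⌈500 * Real.log (2 * x₀)⌉₊ with hQ
  have hΛ0 : 0 ≤ Real.log (2 * x₀) := Real.log_nonneg (by linarith)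
  have hQ1 : 500 * Real.log (2 * x₀) ≤ Q := Nat.le_ceil _
  have hQ2 : (Q : ℝ) ≤ 500 * Real.log (2 * x₀) + 1 := (Nat.ceil_lt_add_one (by positivity)).le
  have hQR : 2 * (Q : ℝ) + 1 ≤ 39 / 20 * x₀ := by
    have h1 := ef_log_le (2 * x₀) 20000 (by linarith) (by norm_num)
    have h2 := ef_log_le_nat 15 20000 (by norm_num) (by norm_num)
    push_cast at h2
    linarith
  set lam : ℝ := Real.exp (-(9 / 10 * l)) with hlam
  have hlam0 : 0 < lam := Real.exp_pos _
  have hlam1 : lam ≤ 1 / 1000 := by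
    have h1 := ef_exp_two_pow 10 (9 / 10 * l) (by push_cast; linarith)
    rw [hlam, Real.exp_neg, inv_le_comm₀ (Real.exp_pos _) (by norm_num)]
    norm_num at h1 ⊢
    linarith
  have hφ₀d : DifferentiableOn ℂ φ₀ U := by
    apply DifferentiableOn.div
    · exact (differentiableOn_const _).add (hgd.mono fun z hz => (hUz z hz).2)
    · exact differentiableOn_id
    · exact fun z hz => (hUz z hz).1
  have hcd : ∀ q ∈ Finset.Icc 1 Q, DifferentiableOn ℂ (c q) U := by
    intro q hq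
    have hq0 : (q : ℂ) ≠ 0 := by
      have : q ≠ 0 := by have := (Finset.mem_Icc.1 hq).1; omega
      exact_mod_cast this
    apply DifferentiableOn.div
    · exact (hSd q).differentiableOn
    · exact (differentiableOn_const _).mul differentiableOn_id
    · intro z hz
      exact mul_ne_zero (mul_ne_zero two_ne_zero hq0) (hUz z hz).1
  have hV : ∀ z ∈ U, |(φ₀ z).re - (W z + 2)| ≤ 1 / 1000 := by
    intro z hz
    have h1 := ef_phi0 x₀ L hx g hgb z (hUmem z hz)
    have h2 : W z + 2 = L * (1 / z).re + Real.log ‖z‖ - 1 := by rw [hW]; ring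
    rw [h2]
    exact h1
  have hWφ : ∀ z ∈ U, W z + 1 ≤ (φ₀ z).re := by
    intro z hz
    have h1 := hV z hz
    rw [abs_le] at h1
    linarith [h1.1]
  have hb : ∀ z ∈ U, ∑ q ∈ Finset.Icc 1 Q, ‖c q z‖ * (2 * q) * Real.exp (-(2 * q * W z)) ≤
      lam := by
    intro z hz
    have hz0 := (hUz z hz).1
    obtain ⟨-, -, h3, -, -, -⟩ := ef_inv_re x₀ (19 / 20 * x₀) (by linarith) (by linarith) z
      (hUmem z hz)
    calc ∑ q ∈ Finset.Icc 1 Q, ‖c q z‖ * (2 * q) * Real.exp (-(2 * q * W z))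
        ≤ ∑ q ∈ Finset.Icc 1 Q, lam * (1 / 2) ^ q := by
          refine Finset.sum_le_sum fun q hq => ?_
          have hq1 : 1 ≤ q := (Finset.mem_Icc.1 hq).1
          have hqQ : q ≤ Q := (Finset.mem_Icc.1 hq).2
          have hq0 : (0 : ℝ) < q := by exact_mod_cast hq1
          have hqQ' : (q : ℝ) ≤ Q := by exact_mod_cast hqQ
          have h4 := hSb q (39 / 20 * x₀) z hq1 (by linarith) (by linarith)
          have h5 := ef_term x₀ L l hx hl' hL z (hUmem z hz) ‖S q z‖ q hq1 h4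
          refine le_trans (le_of_eq ?_) h5
          have h6 : ‖c q z‖ * (2 * q) = ‖S q z‖ / ‖z‖ := by
            rw [hc]
            simp only [norm_div, norm_mul, Complex.norm_natCast, Complex.norm_ofNat]
            have : ‖z‖ ≠ 0 := norm_ne_zero_iff.2 hz0
            field_simp
          rw [h6]
      _ = lam * ∑ q ∈ Finset.Icc 1 Q, (1 / 2 : ℝ) ^ q := by rw [Finset.mul_sum]
      _ ≤ lam * 1 := mul_le_mul_of_nonneg_left (ef_geom Q) hlam0.le
      _ = lam := mul_one _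
  obtain ⟨φ, hφd, hφb, hφs⟩ := iterate_solution U Metric.isOpen_ball φ₀ hφ₀d Q c hcd W hWφ lam
    hlam0 (by linarith) hb Q
  -- the points of `T`
  set v : ℕ → ℝ := fun t => (y t : ℝ) - ((t : ℝ) - 1) / 2 with hv
  have hpt : ∀ t ∈ T, ‖(v t : ℂ) - Complex.exp (φ t)‖ ≤ x₀ * Real.exp (-(17 / 20 * l * Q)) := by
    intro t ht
    obtain ⟨h1, h2, h3, h4, h5⟩ := ef_size x₀ L l hx hl' hL t (y t) (hT t ht) (hy t ht).1
      (hy t ht).2 (v t) rfl
    have htU : (t : ℂ) ∈ U := by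
      rw [hU, Metric.mem_ball, dist_eq_norm]
      have : ((t : ℂ) - (x₀ : ℂ)) = (((t : ℝ) - x₀ : ℝ) : ℂ) := by push_cast; rfl
      rw [this, Complex.norm_real, Real.norm_eq_abs]
      refine (hT t ht).trans_lt ?_
      linarith
    have ht0 : (0 : ℝ) < t := by exact_mod_cast h1
    have ht2 : 2 ≤ t := by
      have h := hT t ht
      rw [abs_le] at h
      have : (2 : ℝ) ≤ t := by linarith [h.1]
      exact_mod_cast this
    have hWt : W t = L / t + Real.log t - 3 := by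
      rw [hW]
      simp only [Complex.norm_natCast]
      have : (1 / (t : ℂ)).re = 1 / t := by
        have : (1 / (t : ℂ)) = ((1 / (t : ℝ) : ℝ) : ℂ) := by push_cast; rfl
        rw [this, Complex.ofReal_re]
      rw [this]
      ring
    have hWv : W t ≤ (((Real.log (v t) : ℝ) : ℂ)).re := by
      rw [Complex.ofReal_re, hWt]
      linarith
    set ε : ℝ := ((t : ℝ) ^ 2 / (4 * v t ^ 2)) ^ (Q + 1) with hε
    have hdef := ef_defect L g S hgm hSm Q t (y t) ht2 (hy t ht).1 (hy t ht).2 (v t) rfl h2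
    have h6 := hφs t htU ((Real.log (v t) : ℝ) : ℂ) hWv ε hdef
    have hε0 : 0 ≤ ε := by positivity
    have hε1 : ε ≤ Real.exp (-(19 / 10 * l * (Q + 1))) := by
      calc ε ≤ Real.exp (-(19 / 10 * l)) ^ (Q + 1) := pow_le_pow_left₀ (by positivity) h4 _
        _ = _ := by
          rw [← Real.exp_nat_mul]
          congr 1
          push_cast
          ring
    have hQ0 : (0 : ℝ) ≤ Q := Nat.cast_nonneg _
    have hlQ : 0 ≤ l * Q := by positivity
    have hε2 : 2 * ε ≤ Real.exp (-(9 / 10 * l * Q)) := by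
      have e1 : Real.exp (-(9 / 10 * l * Q)) =
          Real.exp (-(19 / 10 * l * (Q + 1))) * Real.exp (l * Q + 19 / 10 * l) := by
        rw [← Real.exp_add]
        congr 1
        ring
      have e2 : (2 : ℝ) ≤ Real.exp (l * Q + 19 / 10 * l) := by
        have := ef_exp_two_pow 1 (l * Q + 19 / 10 * l) (by push_cast; linarith)
        linarith
      rw [e1]
      have e3 : 0 < Real.exp (-(19 / 10 * l * (Q + 1))) := Real.exp_pos _
      nlinarith
    have hφψ : ‖φ₀ t - ((Real.log (v t) : ℝ) : ℂ)‖ ≤ 1 := by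
      have e1 : ‖∑ q ∈ Finset.Icc 1 Q, c q t * Complex.exp (-(2 * q *
          ((Real.log (v t) : ℝ) : ℂ)))‖ ≤ lam := by
        refine (norm_sum_le _ _).trans ((Finset.sum_le_sum fun q hq => ?_).trans (hb t htU))
        have hq1 : 1 ≤ q := (Finset.mem_Icc.1 hq).1
        have hq0 : (1 : ℝ) ≤ q := by exact_mod_cast hq1
        rw [norm_mul, Complex.norm_exp, mul_assoc ‖c q t‖]
        apply mul_le_mul_of_nonneg_left _ (norm_nonneg _)
        have e2 : (-(2 * (q : ℂ) * ((Real.log (v t) : ℝ) : ℂ))).re =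
            -(2 * q * Real.log (v t)) := by
          have : -(2 * (q : ℂ) * ((Real.log (v t) : ℝ) : ℂ)) =
            ((-(2 * q * Real.log (v t)) : ℝ) : ℂ) := by push_cast; ring
          rw [this, Complex.ofReal_re]
        rw [e2]
        rw [Complex.ofReal_re] at hWv
        have e3 : Real.exp (-(2 * q * Real.log (v t))) ≤ Real.exp (-(2 * q * W t)) := by
          apply Real.exp_le_exp.2
          have : 2 * (q : ℝ) * W t ≤ 2 * q * Real.log (v t) :=
            mul_le_mul_of_nonneg_left hWv (by positivity)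
          linarith
        have e4 := Real.exp_pos (-(2 * q * W t))
        nlinarith
      have e5 : ε ≤ 1 / 2 := by
        have : Real.exp (-(9 / 10 * l * Q)) ≤ 1 := by
          rw [Real.exp_le_one_iff]
          nlinarith
        linarith
      have e6 : φ₀ t - ((Real.log (v t) : ℝ) : ℂ) =
          -(((Real.log (v t) : ℝ) : ℂ) - φ₀ t - ∑ q ∈ Finset.Icc 1 Q, c q t *
            Complex.exp (-(2 * q * ((Real.log (v t) : ℝ) : ℂ)))) -
          ∑ q ∈ Finset.Icc 1 Q, c q t * Complex.exp (-(2 * q *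
            ((Real.log (v t) : ℝ) : ℂ))) := by ring
      rw [e6]
      refine (norm_sub_le _ _).trans ?_
      rw [norm_neg]
      have e7 : ‖((Real.log (v t) : ℝ) : ℂ) - φ₀ t - ∑ q ∈ Finset.Icc 1 Q, c q t *
            Complex.exp (-(2 * q * ((Real.log (v t) : ℝ) : ℂ)))‖ ≤ ε := hdef
      linarith
    have h7 : ‖φ t - ((Real.log (v t) : ℝ) : ℂ)‖ ≤ 2 * Real.exp (-(9 / 10 * l * Q)) := by
      have e1 : lam ^ Q = Real.exp (-(9 / 10 * l * Q)) := by
        rw [hlam, ← Real.exp_nat_mul]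
        congr 1
        ring
      rw [e1] at h6
      have e2 : Real.exp (-(9 / 10 * l * Q)) * ‖φ₀ t - ((Real.log (v t) : ℝ) : ℂ)‖ ≤
          Real.exp (-(9 / 10 * l * Q)) * 1 :=
        mul_le_mul_of_nonneg_left hφψ (Real.exp_pos _).le
      linarith
    have hQ500 : (500 : ℝ) ≤ Q := by
      have : 1 ≤ Real.log (2 * x₀) := by
        rw [Real.le_log_iff_exp_le (by linarith)]
        have := Real.exp_one_lt_d9
        linarith
      linarith
    have h8 : 2 * Real.exp (-(9 / 10 * l * Q)) ≤ 1 := by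
      have e1 := ef_exp_two_pow 1 (9 / 10 * l * Q) (by push_cast; nlinarith)
      rw [Real.exp_neg]
      rw [pow_one] at e1
      rw [← div_eq_mul_inv, div_le_one (Real.exp_pos _)]
      exact e1
    have h9 := Complex.norm_exp_sub_one_le (h7.trans h8)
    have h10 : (v t : ℂ) - Complex.exp (φ t) =
        -((v t : ℂ) * (Complex.exp (φ t - ((Real.log (v t) : ℝ) : ℂ)) - 1)) := by
      have e1 : Complex.exp (φ t) = Complex.exp (φ t - ((Real.log (v t) : ℝ) : ℂ)) * (v t : ℂ) := by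
        have e2 : (v t : ℂ) = Complex.exp ((Real.log (v t) : ℝ) : ℂ) := by
          rw [← Complex.ofReal_exp, Real.exp_log h2]
        conv_rhs => rw [e2]
        rw [← Complex.exp_add, sub_add_cancel]
      rw [e1]
      ring
    rw [h10, norm_neg, norm_mul, Complex.norm_real, Real.norm_eq_abs, abs_of_pos h2]
    calc v t * ‖Complex.exp (φ t - ((Real.log (v t) : ℝ) : ℂ)) - 1‖
        ≤ v t * (4 * Real.exp (-(9 / 10 * l * Q))) := by
          apply mul_le_mul_of_nonneg_left _ h2.le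
          linarith
      _ ≤ _ := ef_small x₀ l (v t) hx hl' Q hQ1 h5
  obtain ⟨P, hP1, hP2⟩ := lagrange_correction x₀ (by linarith) T
    (fun t => (v t : ℂ) - Complex.exp (φ t)) (x₀ * Real.exp (-(17 / 20 * l * Q)))
    (by positivity) hpt (fun t ht => (hT t ht).trans (by linarith))
  have hcard : (T.card : ℝ) ≤ 401 * l := by
    have : (T.card : ℝ) * x₀ ≤ 401 * l * x₀ := by rw [mul_assoc, ← hL]; exact hTc
    exact le_of_mul_le_mul_right this hx0
  have hP3 : ∀ z : ℂ, ‖z - x₀‖ ≤ 19 / 20 * x₀ → ‖P.eval z‖ ≤ 1 := fun z hz =>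
    (hP2 z hz).trans (ef_corr x₀ l hx hl' T.card Q hcard hQ1)
  -- general bounds
  have hgen : ∀ z ∈ U, ‖z‖ * Real.exp (L * (1 / z).re - 101 / 100) ≤ ‖Complex.exp (φ z)‖ ∧
      ‖Complex.exp (φ z)‖ ≤ ‖z‖ * Real.exp (L * (1 / z).re) := by
    intro z hz
    have hn : 0 < ‖z‖ := norm_pos_iff.2 (hUz z hz).1
    have e1 : |(φ z).re - (φ₀ z).re| ≤ lam := by
      rw [← Complex.sub_re]
      exact (Complex.abs_re_le_norm _).trans (hφb z hz)
    have e2 := hV z hz
    rw [abs_le] at e1 e2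
    have e3 : W z = L * (1 / z).re + Real.log ‖z‖ - 3 := rfl
    rw [Complex.norm_exp]
    constructor
    · have e4 : ‖z‖ * Real.exp (L * (1 / z).re - 101 / 100) =
          Real.exp (L * (1 / z).re - 101 / 100 + Real.log ‖z‖) := by
        rw [Real.exp_add _ (Real.log ‖z‖), Real.exp_log hn, mul_comm]
      rw [e4]
      apply Real.exp_le_exp.2
      linarith [e1.1, e2.1]
    · have e4 : ‖z‖ * Real.exp (L * (1 / z).re) =
          Real.exp (L * (1 / z).re + Real.log ‖z‖) := by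
        rw [Real.exp_add _ (Real.log ‖z‖), Real.exp_log hn, mul_comm]
      rw [e4]
      apply Real.exp_le_exp.2
      linarith [e1.2, e2.2]
  set f : ℂ → ℂ := fun z => Complex.exp (φ z) + (z - 1) / 2 + P.eval z with hf
  have hrest : ∀ z ∈ U, ‖(z - 1) / 2 + P.eval z‖ ≤ 2 * x₀ := by
    intro z hz
    obtain ⟨-, -, h3, -, -, -⟩ := ef_inv_re x₀ (19 / 20 * x₀) (by linarith) (by linarith) z
      (hUmem z hz)
    have e1 : ‖(z - 1) / 2‖ ≤ (‖z‖ + 1) / 2 := by
      rw [norm_div, Complex.norm_ofNat]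
      have : ‖z - 1‖ ≤ ‖z‖ + 1 := by simpa using norm_sub_le z 1
      linarith
    refine (norm_add_le _ _).trans ?_
    have := hP3 z (hUmem z hz)
    linarith
  have hup : ∀ z ∈ U, ∀ K : ℝ, 0 ≤ K → L * (1 / z).re ≤ K → ‖f z‖ ≤ x₀ * Real.exp (K + 5) := by
    intro z hz K hK hLK
    obtain ⟨-, -, h3, -, -, -⟩ := ef_inv_re x₀ (19 / 20 * x₀) (by linarith) (by linarith) z
      (hUmem z hz)
    have e1 := (hgen z hz).2
    have e2 := hrest z hz
    have e3 : f z = Complex.exp (φ z) + ((z - 1) / 2 + P.eval z) := by rw [hf]; ring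
    rw [e3]
    refine (norm_add_le _ _).trans ?_
    have e4 : ‖z‖ * Real.exp (L * (1 / z).re) ≤ 2 * x₀ * Real.exp K :=
      mul_le_mul (by linarith) (Real.exp_le_exp.2 hLK) (Real.exp_pos _).le (by linarith)
    have e5 : 1 ≤ Real.exp K := Real.one_le_exp hK
    have e6 : (4 : ℝ) ≤ Real.exp 5 := by
      have := ef_exp_two_pow 2 5 (by norm_num)
      linarith
    rw [Real.exp_add]
    have e7 : 0 < x₀ * Real.exp K := by positivity
    nlinarith [mul_le_mul_of_nonneg_left e6 e7.le]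
  refine ⟨f, ?_, ?_, ?_, ?_, ?_⟩
  · exact ((hφd.cexp).add (((differentiable_id.sub_const 1).div_const 2).differentiableOn)).add
      P.differentiable.differentiableOn
  · intro t ht
    have e1 : f t = Complex.exp (φ t) + ((t : ℂ) - 1) / 2 + P.eval (t : ℂ) := rfl
    rw [e1, hP1 t ht]
    have e2 : (v t : ℂ) = (y t : ℂ) - ((t : ℂ) - 1) / 2 := by
      rw [hv]
      push_cast
      rfl
    rw [e2]
    ring
  · intro z hz
    have hzU : z ∈ U := by
      rw [hU, Metric.mem_ball, dist_eq_norm]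
      linarith
    obtain ⟨-, -, -, -, -, h3⟩ := ef_inv_re x₀ (9 / 10 * x₀) (by linarith) (by linarith) z hz
    apply hup z hzU (10 * l) (by linarith)
    have e1 : 1 / (x₀ - 9 / 10 * x₀) = 10 / x₀ := by
      field_simp
      norm_num
    rw [e1] at h3
    have := mul_le_mul_of_nonneg_left h3 hL0.le
    refine this.trans (le_of_eq ?_)
    rw [hldef]
    ring
  · intro z hz
    have hzU : z ∈ U := by
      rw [hU, Metric.mem_ball, dist_eq_norm]
      linarith
    obtain ⟨-, -, -, -, -, h3⟩ := ef_inv_re x₀ (1 / 2 * x₀) (by linarith) (by linarith) z hz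
    apply hup z hzU (2 * l) (by linarith)
    have e1 : 1 / (x₀ - 1 / 2 * x₀) = 2 / x₀ := by
      field_simp
      norm_num
    rw [e1] at h3
    have := mul_le_mul_of_nonneg_left h3 hL0.le
    refine this.trans (le_of_eq ?_)
    rw [hldef]
    ring
  · intro x hx1 hx2
    have hx3 : 0 < x := by linarith
    have hzU : (x : ℂ) ∈ U := by
      rw [hU, Metric.mem_ball, dist_eq_norm]
      have : ((x : ℂ) - (x₀ : ℂ)) = ((x - x₀ : ℝ) : ℂ) := by push_cast; rfl
      rw [this, Complex.norm_real, Real.norm_eq_abs, abs_of_nonpos (by linarith)]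
      linarith
    have hre : (1 / (x : ℂ)).re = 1 / x := by
      have : (1 / (x : ℂ)) = ((1 / x : ℝ) : ℂ) := by push_cast; rfl
      rw [this, Complex.ofReal_re]
    have hLx : L * (1 / (x : ℂ)).re = L / x := by rw [hre]; ring
    have hLx1 : 480 ≤ L / x := by
      rw [le_div_iff₀ hx3]
      nlinarith
    constructor
    · obtain ⟨e1, -⟩ := hgen x hzU
      rw [hLx, Complex.norm_real, Real.norm_eq_abs, abs_of_pos hx3] at e1
      have e2 := hrest x hzU
      have e3 : Complex.exp (φ x) = f x - (((x : ℂ) - 1) / 2 + P.eval (x : ℂ)) := by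
        rw [hf]
        ring
      have e4 : ‖Complex.exp (φ x)‖ ≤ ‖f x‖ + 2 * x₀ := by
        rw [e3]
        exact (norm_sub_le _ _).trans (by linarith)
      have e5 : Real.exp (L / x - 101 / 100) = Real.exp (L / x - 5) * Real.exp (399 / 100) := by
        rw [← Real.exp_add]
        congr 1
        ring
      have e6 : (8 : ℝ) ≤ Real.exp (399 / 100) := by
        have := ef_exp_two_pow 3 (399 / 100) (by norm_num)
        linarith
      have e7 : (16 : ℝ) ≤ Real.exp (L / x - 5) := by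
        have := ef_exp_two_pow 4 (L / x - 5) (by push_cast; linarith)
        linarith
      rw [e5] at e1
      set Y := Real.exp (L / x - 5) with hY
      have e8 : 3 / 20 * x₀ * (Y * 8) ≤ x * (Y * Real.exp (399 / 100)) := by
        apply mul_le_mul hx1 _ (by positivity) hx3.le
        exact mul_le_mul_of_nonneg_left e6 (by positivity)
      nlinarith [mul_le_mul_of_nonneg_left e7 hx0.le]
    · exact hup x hzU (L / x) (by linarith) hLx.le

end Pool.Agent.SG
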