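import Mathlib

/-!
# A lower bound for the superfactorial
-/

set_option autoImplicit false

open Finset Metric Set

namespace Pool.Agent.SG

/-- `(1 + 1 / r) ^ k ≤ exp (k / r)` -/
theorem sf_pow_le {r : ℕ} (hr : 1 ≤ r) (k : ℕ) :
    (((r : ℝ) + 1) / 8) ^ k ≤ ((r : ℝ) / 8) ^ k * Real.exp ((k : ℝ) / r) := by
  have hr' : (0 : ℝ) < r := by exact_mod_cast hr
  have h1 : ((r : ℝ) + 1) / 8 = (r : ℝ) / 8 * (1 / r + 1) := by
    field_simp
    ring
  have h2 : Real.exp ((k : ℝ) / r) = Real.exp (1 / r) ^ k := by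
    rw [← Real.exp_nat_mul]
    congr 1
    ring
  rw [h1, mul_pow, h2]
  apply mul_le_mul_of_nonneg_left _ (by positivity)
  exact pow_le_pow_left₀ (by positivity) (Real.add_one_le_exp _) k

theorem sf_step {r : ℕ} (hr : 1 ≤ r) :
    Real.exp (((r : ℝ) - 1) / 2) * (((r : ℝ) + 1) / 8) ^ r ≤ (r.factorial : ℝ) := by
  have hr' : (0 : ℝ) < r := by exact_mod_cast hr
  have h1 := sf_pow_le hr r
  rw [div_self hr'.ne'] at h1
  have h2 : (r : ℝ) ^ r ≤ r.factorial * Real.exp r := by
    have h3 := Real.pow_div_factorial_le_exp (r : ℝ) hr'.le r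
    rw [div_le_iff₀ (by positivity)] at h3
    linarith
  have h4 : Real.exp (((r : ℝ) - 1) / 2) * Real.exp 1 * Real.exp r ≤ 8 ^ r := by
    have h5 : Real.exp (((r : ℝ) - 1) / 2) * Real.exp 1 * Real.exp r =
        Real.exp 2 * (Real.exp (3 / 2)) ^ (r - 1) := by
      rw [← Real.exp_nat_mul, ← Real.exp_add, ← Real.exp_add, ← Real.exp_add]
      congr 1
      rw [Nat.cast_sub hr]
      push_cast
      ring
    have he : Real.exp 1 < 2.7182818286 := Real.exp_one_lt_d9
    have he0 := Real.exp_pos 1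
    have h6 : Real.exp 2 ≤ 8 := by
      have : Real.exp 2 = Real.exp 1 * Real.exp 1 := by
        rw [← Real.exp_add]
        norm_num
      rw [this]
      nlinarith
    have h7 : Real.exp (3 / 2) ≤ 8 :=
      (Real.exp_le_exp.mpr (by norm_num)).trans h6
    have h8 : (8 : ℝ) ^ r = 8 * 8 ^ (r - 1) := by
      rw [← pow_succ']
      congr 1
      omega
    rw [h5, h8]
    exact mul_le_mul h6 (pow_le_pow_left₀ (Real.exp_pos _).le h7 _) (by positivity) (by norm_num)
  have h9 : Real.exp (((r : ℝ) - 1) / 2) * (((r : ℝ) + 1) / 8) ^ r * Real.exp r ≤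
      r.factorial * Real.exp r := by
    calc Real.exp (((r : ℝ) - 1) / 2) * (((r : ℝ) + 1) / 8) ^ r * Real.exp r
        ≤ Real.exp (((r : ℝ) - 1) / 2) * (((r : ℝ) / 8) ^ r * Real.exp 1) * Real.exp r := by
          gcongr
      _ = (Real.exp (((r : ℝ) - 1) / 2) * Real.exp 1 * Real.exp r) * ((r : ℝ) / 8) ^ r := by ring
      _ ≤ 8 ^ r * ((r : ℝ) / 8) ^ r := by
          gcongr
      _ = (r : ℝ) ^ r := by
          rw [← mul_pow]
          congr 1
          ring
      _ ≤ r.factorial * Real.exp r := h2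
  exact le_of_mul_le_mul_right h9 (Real.exp_pos _)

theorem sf_exponent (r : ℕ) : (r + 1) * (r + 1 - 1) / 2 = r * (r - 1) / 2 + r := by
  have h := Nat.triangle_succ r
  rw [h]

theorem superfactorial_lower (r : ℕ) :
    ((r : ℝ) / 8) ^ (r * (r - 1) / 2) ≤ ∏ a ∈ Finset.range r, (a.factorial : ℝ) := by
  induction r with
  | zero => simp
  | succ r ih =>
    rcases Nat.eq_zero_or_pos r with h | h
    · subst h
      simp
    · have hr' : (0 : ℝ) < r := by exact_mod_cast h
      rw [Finset.prod_range_succ, sf_exponent, pow_add]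
      have h1 := sf_pow_le h (r * (r - 1) / 2)
      have h2 := sf_step h
      have h3 : (((r * (r - 1) / 2 : ℕ) : ℝ)) / r = ((r : ℝ) - 1) / 2 := by
        have h4 : r * (r - 1) / 2 * 2 = r * (r - 1) :=
          Nat.div_mul_cancel (Nat.even_mul_pred_self r).two_dvd
        have h5 : (((r * (r - 1) / 2 : ℕ) : ℝ)) * 2 = r * (r - 1) := by
          have h6 : ((r * (r - 1) / 2 * 2 : ℕ) : ℝ) = ((r * (r - 1) : ℕ) : ℝ) := by
            rw [h4]
          push_cast [Nat.cast_sub h] at h6 ⊢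
          linarith
        field_simp
        linarith
      rw [h3] at h1
      push_cast
      calc (((r : ℝ) + 1) / 8) ^ (r * (r - 1) / 2) * (((r : ℝ) + 1) / 8) ^ r
          ≤ (((r : ℝ) / 8) ^ (r * (r - 1) / 2) * Real.exp (((r : ℝ) - 1) / 2)) *
            (((r : ℝ) + 1) / 8) ^ r := by
            gcongr
        _ = ((r : ℝ) / 8) ^ (r * (r - 1) / 2) *
            (Real.exp (((r : ℝ) - 1) / 2) * (((r : ℝ) + 1) / 8) ^ r) := by ring
        _ ≤ (∏ a ∈ Finset.range r, (a.factorial : ℝ)) * (r.factorial : ℝ) := by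
            gcongr

end Pool.Agent.SG
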