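import Mathlib
import Pool.Agent.SG.Superfactorial
import Pool.Agent.SG.PolyIneq
import Pool.Agent.SG.ExtFunction
import Pool.Agent.SG.Local

open Finset Metric Set

namespace Pool.Agent.SG

theorem el_exp_le {a c : ℝ} (_h : a ≤ c) : Real.exp a ≤ Real.exp c := Real.exp_le_exp.mpr _h

/-- numeric logs -/
theorem el_log21 : Real.log 21 ≤ 3.1 := by
  rw [Real.log_le_iff_le_exp (by norm_num)]
  have : Real.exp 3.1 = Real.exp 1 ^ (3.1 : ℝ) := by rw [← Real.exp_mul]; norm_num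
  have h1 := Real.exp_one_gt_d9
  have h3 : Real.exp 3 ≥ 20 := by
    have : Real.exp 3 = Real.exp 1 ^ 3 := by rw [← Real.exp_nat_mul]; norm_num
    rw [this]
    have : (2.7182818283 : ℝ) ^ 3 ≤ Real.exp 1 ^ 3 := by gcongr
    norm_num at this ⊢; linarith
  have h4 : Real.exp (0.1 : ℝ) ≥ 1.1 := by
    have := Real.add_one_le_exp (0.1 : ℝ); linarith
  have h5 : Real.exp 3.1 = Real.exp 3 * Real.exp 0.1 := by rw [← Real.exp_add]; norm_num
  rw [h5]
  nlinarith

theorem el_log3 : Real.log 3 ≤ 2 := by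
  have := Real.log_le_sub_one_of_pos (show (0 : ℝ) < 3 by norm_num); linarith

/-- `log 8.02 * 3 + log 8 ≤ 8.9` -/
theorem el_log_const : 3 * Real.log 8.02 + Real.log 8 ≤ 8.9 := by
  have h : 3 * Real.log 8.02 + Real.log 8 = Real.log (8.02 ^ 3 * 8) := by
    rw [Real.log_mul (by norm_num) (by norm_num), Real.log_pow]; norm_num
  rw [h, Real.log_le_iff_le_exp (by norm_num)]
  have h1 := Real.exp_one_gt_d9
  have h9 : Real.exp 8.9 = Real.exp 1 ^ 9 * Real.exp (-0.1) := by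
    rw [← Real.exp_nat_mul, ← Real.exp_add]; norm_num
  have h4 : Real.exp (-0.1 : ℝ) ≥ 0.9 := by
    have := Real.add_one_le_exp (-0.1 : ℝ); linarith
  have h5 : (2.7182818283 : ℝ) ^ 9 ≤ Real.exp 1 ^ 9 := by gcongr
  rw [h9]
  have h6 : (8000 : ℝ) ≤ Real.exp 1 ^ 9 := le_trans (by norm_num) h5
  nlinarith

theorem el_num (r : ℕ) (x l σ : ℝ) (hr1 : 1 ≤ r) (hl : 480 ≤ l) (hr : (r : ℝ) ≤ l / 20)
    (hr' : l / 21 ≤ (r : ℝ)) (hx : 1000000 ≤ x) (hσ : 1 ≤ σ) (hσx : 1000 * σ ≤ x)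
    (h : σ ^ 3 * Real.exp (180 + 50 * Real.log x / l) ≤ x * (x * l)) :
    ((3 * r).factorial : ℝ)
      * (4 * (σ / (9 / 10 * x)) / (5 / 9 - σ / (9 / 10 * x))) ^ (3 * r * (3 * r - 1) / 2)
      * (∏ a ∈ Finset.range r, (2 * (x / 2)) ^ a / (a.factorial : ℝ)) ^ 3
      * (x * Real.exp (2 * l + 5)) ^ (3 * r) < 1 := by
  have hx0 : 0 < x := by linarith
  have hσ0 : 0 < σ := by linarith
  have hl0 : 0 < l := by linarith
  have hR0 : (0 : ℝ) < r := by exact_mod_cast hr1
  -- factor A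
  have hA : ((3 * r).factorial : ℝ) ≤ (3 * (r : ℝ)) ^ (3 * r) := by
    have := Nat.factorial_le_pow (3 * r)
    exact_mod_cast this
  -- factor B
  have hq : σ / (9 / 10 * x) ≤ 1 / 900 := by
    rw [div_le_div_iff₀ (by positivity) (by norm_num)]; linarith
  have hq0 : 0 < σ / (9 / 10 * x) := by positivity
  have hB : 4 * (σ / (9 / 10 * x)) / (5 / 9 - σ / (9 / 10 * x)) ≤ 8.02 * σ / x := by
    rw [div_le_div_iff₀ (by linarith) hx0]
    have e1 : 4 * (σ / (9 / 10 * x)) * x = 40 / 9 * σ := by field_simp; norm_num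
    rw [e1]
    have : (499 / 900 : ℝ) ≤ 5 / 9 - σ / (9 / 10 * x) := by linarith
    have h2 : 8.02 * σ * (499 / 900) ≤ 8.02 * σ * (5 / 9 - σ / (9 / 10 * x)) := by
      apply mul_le_mul_of_nonneg_left this (by positivity)
    refine le_trans ?_ h2
    nlinarith
  have hB0 : 0 ≤ 4 * (σ / (9 / 10 * x)) / (5 / 9 - σ / (9 / 10 * x)) := by
    apply div_nonneg (by positivity); linarith
  -- factor C
  have hC : (∏ a ∈ Finset.range r, (2 * (x / 2)) ^ a / (a.factorial : ℝ))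
      ≤ (8 * x / r) ^ (r * (r - 1) / 2) := by
    rw [Finset.prod_div_distrib]
    have h1 : ∏ a ∈ Finset.range r, (2 * (x / 2)) ^ a = x ^ (r * (r - 1) / 2) := by
      rw [show 2 * (x / 2) = x by ring, Finset.prod_pow_eq_pow_sum, Finset.sum_range_id]
    rw [h1, div_le_iff₀ (Finset.prod_pos fun a _ => by positivity)]
    calc x ^ (r * (r - 1) / 2) = (8 * x / r) ^ (r * (r - 1) / 2) * ((r : ℝ) / 8) ^ (r * (r - 1) / 2) := by
          rw [← mul_pow]; congr 1; field_simp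
      _ ≤ _ := by
          apply mul_le_mul_of_nonneg_left (superfactorial_lower r) (by positivity)
  have hC0 : 0 ≤ (∏ a ∈ Finset.range r, (2 * (x / 2)) ^ a / (a.factorial : ℝ)) :=
    Finset.prod_nonneg fun a _ => by positivity
  have hle : ((3 * r).factorial : ℝ)
      * (4 * (σ / (9 / 10 * x)) / (5 / 9 - σ / (9 / 10 * x))) ^ (3 * r * (3 * r - 1) / 2)
      * (∏ a ∈ Finset.range r, (2 * (x / 2)) ^ a / (a.factorial : ℝ)) ^ 3
      * (x * Real.exp (2 * l + 5)) ^ (3 * r) ≤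
      (3 * (r : ℝ)) ^ (3 * r) * (8.02 * σ / x) ^ (3 * r * (3 * r - 1) / 2)
      * ((8 * x / r) ^ (r * (r - 1) / 2)) ^ 3 * (x * Real.exp (2 * l + 5)) ^ (3 * r) := by
    gcongr
  refine lt_of_le_of_lt hle ?_
  have hpos : 0 < (3 * (r : ℝ)) ^ (3 * r) * (8.02 * σ / x) ^ (3 * r * (3 * r - 1) / 2)
      * ((8 * x / r) ^ (r * (r - 1) / 2)) ^ 3 * (x * Real.exp (2 * l + 5)) ^ (3 * r) := by
    positivity
  rw [← Real.log_neg_iff hpos]
  have e1 : ((3 * r * (3 * r - 1) / 2 : ℕ) : ℝ) = 3 * (r : ℝ) * (3 * r - 1) / 2 := by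
    rw [← Nat.choose_two_right, Nat.cast_choose_two]; push_cast; ring
  have e2 : ((r * (r - 1) / 2 : ℕ) : ℝ) = (r : ℝ) * (r - 1) / 2 := by
    rw [← Nat.choose_two_right, Nat.cast_choose_two]
  have hlog : Real.log ((3 * (r : ℝ)) ^ (3 * r) * (8.02 * σ / x) ^ (3 * r * (3 * r - 1) / 2)
      * ((8 * x / r) ^ (r * (r - 1) / 2)) ^ 3 * (x * Real.exp (2 * l + 5)) ^ (3 * r))
      = 3 * r / 2 * (2 * (Real.log 3 + Real.log r)
        + (3 * r - 1) * (Real.log 8.02 + Real.log σ - Real.log x)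
        + (r - 1) * (Real.log 8 + Real.log x - Real.log r)
        + 2 * (Real.log x + (2 * l + 5))) := by
    rw [Real.log_mul (by positivity) (by positivity), Real.log_mul (by positivity) (by positivity),
      Real.log_mul (by positivity) (by positivity), Real.log_pow, Real.log_pow, Real.log_pow,
      Real.log_pow, Real.log_pow, Real.log_mul (by norm_num) (by positivity),
      Real.log_div (by positivity) (by positivity), Real.log_mul (by norm_num) (by positivity),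
      Real.log_div (by positivity) (by positivity), Real.log_mul (by norm_num) (by positivity),
      Real.log_mul (by positivity) (by positivity), Real.log_exp, e1, e2]
    push_cast
    ring
  rw [hlog]
  apply mul_neg_of_pos_of_neg (by positivity)
  -- hypotheses in logs
  have hlogh : 3 * Real.log σ + (180 + 50 * Real.log x / l) ≤ 2 * Real.log x + Real.log l := by
    have := Real.log_le_log (by positivity) h
    rw [Real.log_mul (by positivity) (by positivity), Real.log_pow, Real.log_exp,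
      Real.log_mul (by positivity) (by positivity), Real.log_mul (by positivity) (by positivity)] at this
    push_cast at this
    linarith
  have hRl : Real.log l - 3.1 ≤ Real.log r := by
    have h1 : Real.log (l / 21) ≤ Real.log r := Real.log_le_log (by positivity) hr'
    rw [Real.log_div (by positivity) (by norm_num)] at h1
    have := el_log21
    linarith
  have hs0 : 0 ≤ Real.log σ := Real.log_nonneg hσ
  have hX0 : 0 ≤ Real.log x := Real.log_nonneg (by linarith)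
  have hlr : Real.log r ≤ r := by
    have := Real.log_le_sub_one_of_pos hR0; linarith
  have h8 : 0 ≤ Real.log 8 := Real.log_nonneg (by norm_num)
  have h802 : 0 ≤ Real.log 8.02 := Real.log_nonneg (by norm_num)
  have hcst := el_log_const
  have h3 := el_log3
  set X := Real.log x
  set s := Real.log σ
  set lr := Real.log (r : ℝ)
  have hY : 50 * X / l = 50 * (X / l) := by ring
  rw [hY] at hlogh
  set q := X / l
  have hq1 : X = q * l := by rw [div_mul_cancel₀ _ hl0.ne']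
  have hq0 : 0 ≤ q := by positivity
  have hmain : (r : ℝ) * (3 * Real.log 8.02 + Real.log 8 + 3 * s - 2 * X - lr)
      ≤ (r : ℝ) * (-168 - 50 * q) := by
    apply mul_le_mul_of_nonneg_left _ hR0.le
    linarith
  have h6 : (r : ℝ) * (-168 - 50 * q) ≤ l / 21 * (-168 - 50 * q) := by
    apply mul_le_mul_of_nonpos_right hr'
    linarith
  have h7 : l / 21 * (-168 - 50 * q) = - 8 * l - 50 / 21 * X := by rw [hq1]; ring
  nlinarith

/-- the final comparison of the card bound -/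
theorem el_final (N : ℕ) (l s : ℝ) (hl : 480 ≤ l) (hs : s ≤ 1 / 900) (hs0 : 0 ≤ s)
    (x : ℝ) (hx : 0 < x)
    (h : 1 ≤ ((17 / 18 + s) / (1 - s)) ^ N * ((6 / Real.exp (-(0.235 * l)))
      * (x * Real.exp (10 * l + 5) / (x * Real.exp (l - 5))) ^ 2)) : (N : ℝ) ≤ 400 * l := by
  have h1 : (17 / 18 + s) / (1 - s) ≤ 851 / 899 := by
    rw [div_le_div_iff₀ (by linarith) (by norm_num)]; linarith
  have h10 : 0 ≤ (17 / 18 + s) / (1 - s) := div_nonneg (by linarith) (by linarith)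
  have h2 : x * Real.exp (10 * l + 5) / (x * Real.exp (l - 5)) = Real.exp (9 * l + 10) := by
    rw [mul_div_mul_left _ _ hx.ne', ← Real.exp_sub]; congr 1; ring
  rw [h2] at h
  have h3 : (6 : ℝ) ≤ Real.exp 2 := by
    have h1 := Real.exp_one_gt_d9
    have : Real.exp 2 = Real.exp 1 ^ 2 := by rw [← Real.exp_nat_mul]; norm_num
    rw [this]; nlinarith
  have h4 : (6 / Real.exp (-(0.235 * l))) * Real.exp (9 * l + 10) ^ 2
      ≤ Real.exp (18.235 * l + 22) := by
    rw [Real.exp_neg, div_inv_eq_mul, ← Real.exp_nat_mul]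
    calc 6 * Real.exp (0.235 * l) * Real.exp ((2 : ℕ) * (9 * l + 10))
        ≤ Real.exp 2 * Real.exp (0.235 * l) * Real.exp ((2 : ℕ) * (9 * l + 10)) := by gcongr
      _ = Real.exp (18.235 * l + 22) := by
          rw [← Real.exp_add, ← Real.exp_add]; congr 1; push_cast; ring
  have h5 : (851 / 899 : ℝ) ≤ Real.exp (-(0.053)) := by
    have := Real.add_one_le_exp (-(0.053) : ℝ)
    norm_num at this ⊢
    linarith
  have h6 : ((17 / 18 + s) / (1 - s)) ^ N ≤ Real.exp (-(0.053) * N) := by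
    calc ((17 / 18 + s) / (1 - s)) ^ N ≤ (Real.exp (-(0.053))) ^ N := by
          apply pow_le_pow_left₀ h10 (h1.trans h5)
      _ = _ := by rw [← Real.exp_nat_mul]; congr 1; ring
  have h7 : 1 ≤ Real.exp (-(0.053) * N) * Real.exp (18.235 * l + 22) := by
    refine h.trans ?_
    apply mul_le_mul h6 h4 (by positivity) (by positivity)
  rw [← Real.exp_add] at h7
  have h8 : 0 ≤ -(0.053) * (N : ℝ) + (18.235 * l + 22) := by
    by_contra hc
    push Not at hc
    have := Real.exp_lt_one_iff.mpr hc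
    linarith
  nlinarith

theorem el_poly (r : ℕ) (x l : ℝ) (hx : 0 < x) (hr : (r : ℝ) ≤ l / 20) (hl : 480 ≤ l)
    (p : ℝ) (hp : 3 / 20 * x ≤ p) (hp' : p + x / 10 ≤ x)
    (P : Polynomial ℂ) (hP : P.natDegree < r) :
    ∃ y ∈ Set.Icc p (p + x / 10), ∀ z : ℂ, ‖z - x‖ ≤ 9 / 10 * x →
      Real.exp (-(0.235 * l)) * ‖P.eval z‖ ≤ ‖P.eval (y : ℂ)‖ := by
  obtain ⟨y, hy, h⟩ := poly_ineq r P hP p (x / 10) (19 / 10 * x) (by positivity) (by linarith)
  refine ⟨y, hy, fun z hz => ?_⟩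
  have h1 := h z (by
    intro t ht
    have e : z - (t : ℂ) = (z - x) + ((x - t : ℝ) : ℂ) := by push_cast; ring
    rw [e]
    refine (norm_add_le _ _).trans ?_
    rw [Complex.norm_real, Real.norm_eq_abs, abs_of_nonneg (by linarith [ht.2])]
    linarith [ht.1])
  have e1 : 2 * Real.exp 1 * (19 / 10 * x) / (x / 10) = 38 * Real.exp 1 := by
    field_simp; ring
  rw [e1] at h1
  have h38 : (38 : ℝ) * Real.exp 1 ≤ Real.exp 4.7 := by
    have e2 : Real.exp 4.7 = Real.exp 1 ^ 4 * Real.exp (-0.3) * Real.exp 1 := by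
      rw [← Real.exp_nat_mul, ← Real.exp_add, ← Real.exp_add]; norm_num
    rw [e2]
    have h2 := Real.exp_one_gt_d9
    have h3 : Real.exp (-0.3 : ℝ) ≥ 0.7 := by
      have := Real.add_one_le_exp (-0.3 : ℝ); linarith
    have h4 : (54.5 : ℝ) ≤ Real.exp 1 ^ 4 := by
      have : (2.7182818283 : ℝ) ^ 4 ≤ Real.exp 1 ^ 4 := by gcongr
      exact le_trans (by norm_num) this
    have h5 : (38 : ℝ) ≤ Real.exp 1 ^ 4 * Real.exp (-0.3) := by nlinarith
    exact mul_le_mul_of_nonneg_right h5 (Real.exp_pos _).le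
  have h5 : (38 * Real.exp 1) ^ (r - 1) ≤ Real.exp (0.235 * l) := by
    calc (38 * Real.exp 1) ^ (r - 1) ≤ (Real.exp 4.7) ^ (r - 1) := by gcongr
      _ ≤ (Real.exp 4.7) ^ r := by
          apply pow_le_pow_right₀ _ (Nat.sub_le _ _)
          exact Real.one_le_exp (by norm_num)
      _ = Real.exp (r * 4.7) := by rw [← Real.exp_nat_mul]
      _ ≤ Real.exp (0.235 * l) := by
          apply Real.exp_le_exp.mpr; linarith
  calc Real.exp (-(0.235 * l)) * ‖P.eval z‖
      ≤ Real.exp (-(0.235 * l)) * ((38 * Real.exp 1) ^ (r - 1) * ‖P.eval (y : ℂ)‖) := by gcongr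
    _ ≤ Real.exp (-(0.235 * l)) * (Real.exp (0.235 * l) * ‖P.eval (y : ℂ)‖) := by gcongr
    _ = ‖P.eval (y : ℂ)‖ := by
        rw [← mul_assoc, ← Real.exp_add]; simp

theorem el_gap (x l a b : ℝ) (hx : 0 < x) (h : a + 3 + 0.47 * l ≤ b) :
    16 * (x * Real.exp a) ≤ Real.exp (-(0.235 * l)) ^ 2 * (x * Real.exp b) := by
  have h16 : (16 : ℝ) ≤ Real.exp 3 := by
    have h1 := Real.exp_one_gt_d9
    have : Real.exp 3 = Real.exp 1 ^ 3 := by rw [← Real.exp_nat_mul]; norm_num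
    rw [this]
    have : (2.7182818283 : ℝ) ^ 3 ≤ Real.exp 1 ^ 3 := by gcongr
    exact le_trans (by norm_num) this
  calc 16 * (x * Real.exp a) ≤ Real.exp 3 * (x * Real.exp a) := by gcongr
    _ = x * Real.exp (a + 3) := by rw [Real.exp_add]; ring
    _ ≤ x * Real.exp (b - 0.47 * l) := by gcongr; linarith
    _ = _ := by
        rw [← Real.exp_nat_mul, mul_left_comm, ← Real.exp_add]
        congr 2; push_cast; ring

theorem el_core (x₀ r : ℕ) (l σ : ℝ) (hx : (1000000 : ℝ) ≤ x₀) (hl : 480 ≤ l)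
    (hlx : l ≤ x₀) (hσ : 1 ≤ σ) (hσx : 1000 * σ ≤ x₀)
    (hr1 : 1 ≤ r) (hr : (r : ℝ) ≤ l / 20) (hr' : l / 21 ≤ (r : ℝ))
    (hnum : σ ^ 3 * Real.exp (180 + 50 * Real.log x₀ / l) ≤ x₀ * (x₀ * l))
    (T : Finset ℕ) (y : ℕ → ℕ) (hT : ∀ t ∈ T, |(t : ℝ) - x₀| ≤ σ)
    (f : ℂ → ℂ) (hf : DifferentiableOn ℂ f (Metric.ball (((x₀ : ℝ)) : ℂ) (19 / 20 * x₀)))
    (hft : ∀ t ∈ T, f t = y t)
    (hf1 : ∀ z : ℂ, ‖z - ((x₀ : ℝ) : ℂ)‖ ≤ 9 / 10 * x₀ → ‖f z‖ ≤ x₀ * Real.exp (10 * l + 5))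
    (hf2 : ∀ z : ℂ, ‖z - ((x₀ : ℝ) : ℂ)‖ ≤ 1 / 2 * x₀ → ‖f z‖ ≤ x₀ * Real.exp (2 * l + 5))
    (hf3 : ∀ x : ℝ, 3 / 20 * x₀ ≤ x → x ≤ x₀ →
        x₀ * Real.exp (x₀ * l / x - 5) ≤ ‖f x‖ ∧ ‖f x‖ ≤ x₀ * Real.exp (x₀ * l / x + 5)) :
    (T.card : ℝ) ≤ 400 * l := by
  set x : ℝ := (x₀ : ℝ) with hxdef
  have hx0 : 0 < x := by linarith
  have hσ' : σ / (9 / 10 * x) ≤ 1 / 900 := by
    rw [div_le_div_iff₀ (by positivity) (by norm_num)]; linarith
  have hσ'0 : 0 < σ / (9 / 10 * x) := by positivity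
  let X : ℂ → ℂ := fun w => x + ((9 / 10 * x : ℝ) : ℂ) * w
  have hXdef : ∀ w, X w = x + ((9 / 10 * x : ℝ) : ℂ) * w := fun w => rfl
  have hXn : ∀ w : ℂ, ‖X w - (x : ℂ)‖ = 9 / 10 * x * ‖w‖ := by
    intro w
    rw [hXdef, add_sub_cancel_left, norm_mul, Complex.norm_real, Real.norm_eq_abs,
      abs_of_pos (by positivity)]
  -- real points
  have hXr : ∀ a : ℝ, X (((a - x) / (9 / 10 * x) : ℝ) : ℂ) = (a : ℂ) := by
    intro a
    rw [hXdef, ← Complex.ofReal_mul, ← Complex.ofReal_add]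
    congr 1
    field_simp
    ring
  have hXd : Differentiable ℂ X := by
    intro w
    simp only [X]
    fun_prop
  have hxc : (x : ℂ) = (x₀ : ℂ) := by rw [hxdef]; push_cast; rfl
  let Z : Fin 3 → Set ℂ := fun i => (fun a : ℝ => (((a - x) / (9 / 10 * x) : ℝ) : ℂ)) ''
    Set.Icc ((![9 / 10, 4 / 10, 3 / 20] : Fin 3 → ℝ) i * x)
      ((![9 / 10, 4 / 10, 3 / 20] : Fin 3 → ℝ) i * x + x / 10)
  have key := local_theorem r hr1 X (fun w => f (X w)) hXd.differentiableOn
    (by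
      apply hf.comp hXd.differentiableOn
      intro w hw
      rw [Metric.mem_closedBall, dist_zero_right] at hw
      rw [Metric.mem_ball, dist_eq_norm, hXn]
      nlinarith)
    (x₀ : ℤ) (x / 2) (9 / 10 * x) (x * Real.exp (2 * l + 5)) (x * Real.exp (10 * l + 5))
    (σ / (9 / 10 * x)) (5 / 9) (17 / 18) (Real.exp (-(0.235 * l)))
    hσ'0 (by linarith) (by norm_num) (by linarith) (by linarith) (by positivity)
    (by
      have : (1 : ℝ) ≤ Real.exp (2 * l + 5) := Real.one_le_exp (by positivity)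
      nlinarith)
    (by
      intro w hw
      rw [Int.cast_natCast, ← hxc, hXn]; nlinarith)
    (by
      intro w hw
      apply hf2
      rw [hXn]; nlinarith)
    (by
      intro w hw
      rw [Int.cast_natCast, ← hxc, hXn]; nlinarith)
    (by
      intro w hw
      apply hf1
      rw [hXn]; nlinarith)
    (T.image (fun t : ℕ => ((((t : ℝ) - x) / (9 / 10 * x) : ℝ) : ℂ)))
    (by
      intro w hw
      obtain ⟨t, ht, rfl⟩ := Finset.mem_image.mp hw
      rw [Complex.norm_real, Real.norm_eq_abs, abs_div, abs_of_pos (show 0 < 9 / 10 * x by positivity)]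
      gcongr
      exact hT t ht)
    (by
      intro w hw
      obtain ⟨t, ht, rfl⟩ := Finset.mem_image.mp hw
      exact ⟨t, by rw [hXr]; push_cast; rfl⟩)
    (by
      intro w hw
      obtain ⟨t, ht, rfl⟩ := Finset.mem_image.mp hw
      refine ⟨y t, ?_⟩
      rw [hXr]
      have := hft t ht
      push_cast at this ⊢
      exact this)
    (el_num r x l σ hr1 hl hr hr' hx hσ hσx hnum)
    Z
    (by
      intro i w hw
      obtain ⟨a, ha, rfl⟩ := hw
      rw [Complex.norm_real, Real.norm_eq_abs, abs_div, abs_of_pos (show 0 < 9 / 10 * x by positivity),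
        div_le_iff₀ (by positivity), abs_le]
      fin_cases i <;> simp at ha <;> constructor <;> linarith [ha.1, ha.2])
    ![x * Real.exp (l - 5), x * Real.exp (2 * l - 5), x * Real.exp (4 * l - 5)]
    ![x * Real.exp (1.12 * l + 5), x * Real.exp (2.5 * l + 5), x * Real.exp (6.7 * l + 5)]
    (by simp; positivity)
    (by
      intro i
      fin_cases i <;> simp <;> gcongr <;> linarith)
    (by
      intro i
      fin_cases i <;> simp <;> gcongr <;> linarith)
    (Real.exp_pos _) (Real.exp_le_one_iff.mpr (by linarith))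
    (by
      intro i w hw
      obtain ⟨a, ha, rfl⟩ := hw
      have ha0 : 3 / 20 * x ≤ a := by
        fin_cases i <;> simp at ha <;> linarith [ha.1, ha.2]
      have ha1 : a ≤ x := by
        fin_cases i <;> simp at ha <;> linarith [ha.1, ha.2]
      have ha00 : 0 < a := by linarith
      obtain ⟨h1, h2⟩ := hf3 a ha0 ha1
      rw [hXr]
      have hlo : (![l, 2 * l, 4 * l] : Fin 3 → ℝ) i ≤ x * l / a := by
        rw [le_div_iff₀ ha00]
        fin_cases i <;> simp at ha ⊢ <;> nlinarith [ha.1, ha.2]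
      have hhi : x * l / a ≤ (![1.12 * l, 2.5 * l, 6.7 * l] : Fin 3 → ℝ) i := by
        rw [div_le_iff₀ ha00]
        fin_cases i <;> simp at ha ⊢ <;> nlinarith [ha.1, ha.2]
      constructor
      · refine le_trans ?_ h1
        fin_cases i <;> simp at hlo ⊢ <;> gcongr
      · refine le_trans h2 ?_
        fin_cases i <;> simp at hhi ⊢ <;> gcongr)
    (by
      simp only [Matrix.cons_val_zero, Matrix.cons_val_one]
      exact el_gap x l _ _ hx0 (by linarith))
    (by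
      simp only [Matrix.cons_val_one, Matrix.cons_val_two, Matrix.tail_cons, Matrix.head_cons,
        Matrix.cons_val]
      exact el_gap x l _ _ hx0 (by linarith))
    (by
      intro i P hP
      have : 3 / 20 * x ≤ (![9 / 10, 4 / 10, 3 / 20] : Fin 3 → ℝ) i * x ∧
          (![9 / 10, 4 / 10, 3 / 20] : Fin 3 → ℝ) i * x + x / 10 ≤ x := by
        fin_cases i <;> simp <;> (try constructor) <;> linarith
      obtain ⟨a, ha, h⟩ := el_poly r x l hx0 hr hl _ this.1 this.2 P hP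
      refine ⟨_, ⟨a, ha, rfl⟩, ?_⟩
      intro z hz
      rw [hXr]
      apply h
      push_cast at hz ⊢
      exact hz)
  have hcard : (T.image (fun t : ℕ => ((((t : ℝ) - x) / (9 / 10 * x) : ℝ) : ℂ))).card = T.card := by
    apply Finset.card_image_of_injective
    intro a b hab
    simp only [Complex.ofReal_inj] at hab
    have h0 : (9 / 10 * x) ≠ 0 := by positivity
    have := (div_left_inj' h0).mp hab
    have h2 : (a : ℝ) = b := by linarith
    exact_mod_cast h2
  rw [hcard] at key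
  exact el_final T.card l (σ / (9 / 10 * x)) hl hσ' hσ'0.le x hx0 (by simpa using key)

theorem ext_local : ∃ X₀ : ℕ, ∀ (x₀ : ℕ) (L σ : ℝ), X₀ ≤ x₀ → 480 * (x₀ : ℝ) ≤ L →
    L ≤ (x₀ : ℝ) ^ 2 → 1 ≤ σ → 1000 * σ ≤ x₀ →
    σ ^ 3 * Real.exp (180 + 50 * Real.log x₀ * x₀ / L) ≤ x₀ * L →
    ∀ T : Finset ℕ, (∀ t ∈ T, |(t : ℝ) - x₀| ≤ σ ∧
      ∃ n : ℕ, 2 * t ≤ n ∧ Real.log (n.choose t) = L) →
    (T.card : ℝ) ≤ 400 * (L / x₀) + 1 := by
  refine ⟨1000000, ?_⟩
  intro x₀ L σ hx hl hL2 hσ hσx hnum T hT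
  by_contra hcard
  push Not at hcard
  have hx1 : (1000000 : ℝ) ≤ (x₀ : ℝ) := by exact_mod_cast hx
  have hx0 : 0 < (x₀ : ℝ) := by linarith
  set l : ℝ := L / x₀ with hldef
  have hLl : L = x₀ * l := by rw [hldef]; field_simp
  have hl1 : 480 ≤ l := by rw [hldef, le_div_iff₀ hx0]; exact hl
  have hlx : l ≤ x₀ := by rw [hldef, div_le_iff₀ hx0]; nlinarith
  have hm : ⌊400 * l⌋₊ + 1 ≤ T.card := by
    have h1 : (⌊400 * l⌋₊ : ℝ) ≤ 400 * l := Nat.floor_le (by linarith)
    have h2 : ((⌊400 * l⌋₊ : ℝ)) + 1 < T.card := by linarith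
    have h3 : ⌊400 * l⌋₊ + 1 < T.card := by exact_mod_cast h2
    exact h3.le
  obtain ⟨T', hT's, hT'c⟩ := Finset.exists_subset_card_eq hm
  have hc1 : 400 * l < (T'.card : ℝ) := by
    rw [hT'c]; push_cast; exact Nat.lt_floor_add_one _
  have hc2 : (T'.card : ℝ) ≤ 401 * l := by
    have h1 : (⌊400 * l⌋₊ : ℝ) ≤ 400 * l := Nat.floor_le (by linarith)
    rw [hT'c]; push_cast; linarith
  have hy : ∀ t, ∃ n : ℕ, t ∈ T' → 2 * t ≤ n ∧ Real.log (n.choose t) = L := by
    intro t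
    by_cases ht : t ∈ T'
    · obtain ⟨n, hn⟩ := (hT t (hT's ht)).2
      exact ⟨n, fun _ => hn⟩
    · exact ⟨0, fun h => absurd h ht⟩
  choose y hy using hy
  obtain ⟨f, hf0, hft, hf1, hf2, hf3⟩ := ext_function (x₀ : ℝ) L hx1 hl T' y
    (fun t ht => ((hT t (hT's ht)).1).trans (by linarith))
    (by rw [hLl]; nlinarith) hy
  have hr1 : 24 ≤ ⌊l / 20⌋₊ := Nat.le_floor (by push_cast; linarith)
  have := el_core x₀ ⌊l / 20⌋₊ l σ hx1 hl1 hlx hσ hσx (by omega) (Nat.floor_le (by linarith))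
    (by have := Nat.lt_floor_add_one (l / 20); linarith)
    (by
      have e : 50 * Real.log x₀ / l = 50 * Real.log x₀ * x₀ / L := by
        rw [hldef]; field_simp
      rw [e, ← hLl]; exact hnum)
    T' y (fun t ht => (hT t (hT's ht)).1) f hf0 hft hf1 hf2
    (by
      intro a h1 h2
      rw [← hLl]
      exact hf3 a h1 h2)
  linarith

end Pool.Agent.SG
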